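import Pool.Agent.Lib.H94M.QA2
import Pool.Agent.Lib.H94M.QA7
import Pool.Agent.Lib.H94M.TM
import Pool.Agent.Lib.H94M.KMF

/-!
# H53N: modular forms modulo `p` on `Γ₁(N)`

Copies of the modules Q and K of H94M, with `Γ₁(N)` for `Γ₀(N)`.
-/

namespace H53N

open H94M H53M UpperHalfPlane ModularForm PowerSeries
open scoped MatrixGroups ModularForm Manifold

/-- `Γ₁(N)` as a subgroup of `GL₂(ℝ)`. -/
abbrev Gm1 (N : ℕ) : Subgroup (GL (Fin 2) ℝ) :=
  ((CongruenceSubgroup.Gamma1 N : Subgroup SL(2, ℤ)) : Subgroup (GL (Fin 2) ℝ))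

/-- Reductions modulo `p` of the modular forms on `Γ₁(N)` of weight `w` with `p`-integral rational
`q`-expansions. -/
def MN1set (N p w : ℕ) [Fact p.Prime] : Set (PowerSeries (ZMod p)) :=
  {f | ∃ (F : ModularForm (Gm1 N) (w : ℤ)) (g : PowerSeries ℚ), PI p g ∧
    UpperHalfPlane.qExpansion 1 (F : UpperHalfPlane → ℂ) = ktoC g ∧ f = redQ p g}

/-- Modular forms modulo `p` on `Γ₁(N)`, of weight `w`. -/
noncomputable def MN1 (N p w : ℕ) [Fact p.Prime] : Submodule (ZMod p) (PowerSeries (ZMod p)) :=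
  Submodule.span (ZMod p) (MN1set N p w)

/-- The index of `Γ₁(N)` in `SL₂(ℤ)` (as it occurs in `ModularForm.norm`). -/
noncomputable def mu1 (N : ℕ) : ℕ := Nat.card (𝒮ℒ ⧸ (Gm1 N).subgroupOf 𝒮ℒ)
theorem Gm1_le (N : ℕ) : Gm1 N ≤ 𝒮ℒ := by
  rintro g ⟨γ, _, rfl⟩
  exact ⟨γ, rfl⟩

theorem one_mem_strictPeriodsG1 (N : ℕ) : (1 : ℝ) ∈ (Gm1 N).strictPeriods := by
  rw [CongruenceSubgroup.strictPeriods_Gamma1]
  exact AddSubgroup.mem_zmultiples 1

instance Gm1_arith (N : ℕ) [NeZero N] : (Gm1 N).IsArithmetic := by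
  infer_instance

theorem mu1_pos (N : ℕ) [NeZero N] : 0 < mu1 N := by
  unfold mu1
  have : Finite (𝒮ℒ ⧸ (Gm1 N).subgroupOf 𝒮ℒ) := inferInstance
  exact Nat.card_pos

/-- Restriction of a level one form to `Γ₁(N)`. -/
noncomputable def resGm1 (N : ℕ) {k : ℤ} (F : ModularForm 𝒮ℒ k) : ModularForm (Gm1 N) k where
  toFun := F
  slash_action_eq' γ hγ := F.slash_action_eq' γ (Gm1_le N hγ)
  holo' := F.holo'
  bdd_at_cusps' hc := F.bdd_at_cusps' (hc.mono (Gm1_le N))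

theorem QB1_zero {N p w : ℕ} [Fact p.Prime] : (0 : PowerSeries (ZMod p)) ∈ MN1set N p w := by
  refine ⟨0, 0, ?_, ?_, ?_⟩
  · have h := PI_natCast (p := p) 0
    rwa [Nat.cast_zero] at h
  · rw [map_zero]
    exact qExpansion_zero 1
  · have h := kredQ_natCast (p := p) 0
    rw [Nat.cast_zero, Nat.cast_zero] at h
    exact h.symm

theorem QB1_add {N p w : ℕ} [Fact p.Prime] {f g : PowerSeries (ZMod p)}
    (hf : f ∈ MN1set N p w) (hg : g ∈ MN1set N p w) : f + g ∈ MN1set N p w := by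
  obtain ⟨F, f', hf', hF, rfl⟩ := hf
  obtain ⟨G, g', hg', hG, rfl⟩ := hg
  refine ⟨F + G, f' + g', PI_add hf' hg', ?_, (kredQ_add hf' hg').symm⟩
  rw [map_add, ← hF, ← hG]
  exact ModularForm.qExpansion_add one_pos (one_mem_strictPeriodsG1 N) F G

theorem QB1_nsmul {N p w : ℕ} [Fact p.Prime] {f : PowerSeries (ZMod p)}
    (hf : f ∈ MN1set N p w) (n : ℕ) : n • f ∈ MN1set N p w := by
  induction n with
  | zero =>
    rw [zero_smul]
    exact QB1_zero
  | succ n ih =>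
    rw [succ_nsmul]
    exact QB1_add ih hf

theorem mem_MN1 {N p w : ℕ} [Fact p.Prime] {f : PowerSeries (ZMod p)} :
    f ∈ MN1 N p w ↔ f ∈ MN1set N p w := by
  constructor
  · intro h
    refine Submodule.span_induction (p := fun x _ => x ∈ MN1set N p w) (fun x hx => hx) QB1_zero
      (fun x y _ _ hx hy => QB1_add hx hy) (fun a x _ hx => ?_) h
    have h1 : a • x = a.val • x := by
      rw [← Nat.cast_smul_eq_nsmul (ZMod p), ZMod.natCast_zmod_val]
    rw [h1]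
    exact QB1_nsmul hx _
  · exact fun h => Submodule.subset_span h

theorem MN1_mul {N p w w' : ℕ} [NeZero N] [Fact p.Prime] {f g : PowerSeries (ZMod p)}
    (hf : f ∈ MN1 N p w) (hg : g ∈ MN1 N p w') : f * g ∈ MN1 N p (w + w') := by
  rw [mem_MN1] at hf hg ⊢
  obtain ⟨F, f', hf', hF, rfl⟩ := hf
  obtain ⟨G, g', hg', hG, rfl⟩ := hg
  refine ⟨ModularForm.mcast (by push_cast; ring) (F.mul G), f' * g', PI_mul hf' hg', ?_,
    (kredQ_mul hf' hg').symm⟩
  rw [map_mul, ← hF, ← hG]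
  exact ModularForm.qExpansion_mul one_pos (one_mem_strictPeriodsG1 N) F G

theorem one_mem_MN1 {N p : ℕ} [NeZero N] [Fact p.Prime] :
    (1 : PowerSeries (ZMod p)) ∈ MN1 N p 0 := by
  rw [mem_MN1]
  refine ⟨ModularForm.mcast (by simp) (1 : ModularForm (Gm1 N) 0), 1, ?_, ?_, ?_⟩
  · have h := PI_natCast (p := p) 1
    rwa [Nat.cast_one] at h
  · rw [map_one]
    exact ModularForm.qExpansion_one
  · have h := kredQ_natCast (p := p) 1
    rw [Nat.cast_one, Nat.cast_one] at h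
    exact h.symm

theorem MN1_pow {N p w : ℕ} [NeZero N] [Fact p.Prime] {f : PowerSeries (ZMod p)}
    (hf : f ∈ MN1 N p w) (n : ℕ) : f ^ n ∈ MN1 N p (n * w) := by
  induction n with
  | zero =>
    rw [pow_zero, zero_mul]
    exact one_mem_MN1
  | succ n ih =>
    rw [pow_succ, Nat.succ_mul]
    exact MN1_mul ih hf

/-- p-integral forms reduce into `MN1`. -/
theorem red_mem_MN1 {N p w : ℕ} [Fact p.Prime] (F : ModularForm (Gm1 N) (w : ℤ)) (g : PowerSeries ℚ)
    (hg : PI p g) (hF : qExpansion 1 (F : ℍ → ℂ) = ktoC g) : redQ p g ∈ MN1 N p w :=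
  Submodule.subset_span ⟨F, g, hg, hF, rfl⟩

theorem MP_le_MN1 (N p w : ℕ) [Fact p.Prime] : MP p w ≤ MN1 N p w := by
  unfold MP
  rw [Submodule.span_le]
  rintro f ⟨a, b, c, h, rfl⟩
  obtain ⟨F, hF⟩ := QA2_form w a b c h
  rw [← kredQ_toQ]
  exact red_mem_MN1 (resGm1 N F) _ (PI_toQ _) hF

theorem QB4_bdd (N : ℕ) [NeZero N] (w : ℕ) (F : ModularForm (Gm1 N) (w : ℤ))
    (q : 𝒮ℒ ⧸ (Gm1 N).subgroupOf 𝒮ℒ) : IsBoundedAtImInfty (SlashInvariantForm.quotientFunc F q) := by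
  induction q using Quotient.inductionOn with
  | h r =>
    obtain ⟨r, hr⟩ := r
    have hc : IsCusp OnePoint.infty (𝒮ℒ : Subgroup (GL (Fin 2) ℝ)) :=
      Subgroup.isCusp_of_mem_strictPeriods one_pos (by simp)
    have h1 := (ModularForm.translate F r⁻¹).bdd_at_cusps' (c := OnePoint.infty)
      (by simpa using hc.of_isFiniteRelIndex_conj (𝒢 := Gm1 N) hr) 1 (by simp)
    rw [SlashAction.slash_one] at h1
    exact h1

theorem QB4_isBigO (N : ℕ) [NeZero N] (w : ℕ) (F : ModularForm (Gm1 N) (w : ℤ)) (M : ℕ)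
    (h : ∀ n : ℕ, n < M → coeff n (qExpansion 1 (F : ℍ → ℂ)) = 0) :
    (F : ℍ → ℂ) =O[atImInfty] fun τ => ‖Function.Periodic.qParam 1 (τ : ℂ)‖ ^ M := by
  have han := ModularFormClass.analyticAt_cuspFunction_zero F one_pos (one_mem_strictPeriodsG1 N)
  have hcusp : Fact (IsCusp OnePoint.infty (Gm1 N)) :=
    ⟨Subgroup.isCusp_of_mem_strictPeriods one_pos (one_mem_strictPeriodsG1 N)⟩
  have h1 := (hasFPowerSeries_cuspFunction F one_pos han
    (c := fun n => coeff n (qExpansion 1 (F : ℍ → ℂ)))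
    (fun τ => by
      simpa using ModularForm.hasSum_qExpansion F one_pos (one_mem_strictPeriodsG1 N) τ)).hasFPowerSeriesAt
  have h2 := h1.isBigO_sub_partialSum_pow M
  have h3 : ∀ y : ℂ, (qExpansionFormalMultilinearSeries 1 F).partialSum M y = 0 := by
    intro y
    unfold FormalMultilinearSeries.partialSum
    refine Finset.sum_eq_zero fun k hk => ?_
    rw [FormalMultilinearSeries.apply_eq_pow_smul_coeff, qExpansionFormalMultilinearSeries_coeff,
      h k (Finset.mem_range.1 hk), smul_zero]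
  simp only [h3, zero_add, sub_zero] at h2
  have h4 := h2.comp_tendsto (qParam_tendsto_atImInfty (h := 1) one_pos)
  refine (h4.congr' ?_ ?_)
  · filter_upwards with τ
    exact SlashInvariantFormClass.eq_cuspFunction F τ (one_mem_strictPeriodsG1 N) one_ne_zero
  · filter_upwards with τ
    rfl

theorem sturmG1 (N : ℕ) [NeZero N] (w : ℕ) (F : ModularForm (Gm1 N) (w : ℤ))
    (h : ∀ n : ℕ, 12 * n ≤ w * mu1 N → coeff n (qExpansion 1 (F : ℍ → ℂ)) = 0) : F = 0 := by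
  classical
  set M : ℕ := w * mu1 N / 12 + 1 with hM
  have hF : ∀ n : ℕ, n < M → coeff n (qExpansion 1 (F : ℍ → ℂ)) = 0 := by
    intro n hn
    apply h
    omega
  have h1 := QB4_isBigO N w F M hF
  have hP : (ModularForm.norm 𝒮ℒ F : ℍ → ℂ) =O[atImInfty]
      fun τ => ‖Function.Periodic.qParam 1 (τ : ℂ)‖ ^ M := by
    rw [ModularForm.coe_norm]
    let _ := Fintype.ofFinite (𝒮ℒ ⧸ (Gm1 N).subgroupOf 𝒮ℒ)
    show (∏ q : 𝒮ℒ ⧸ (Gm1 N).subgroupOf 𝒮ℒ, SlashInvariantForm.quotientFunc F q) =O[atImInfty] _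
    rw [← Finset.mul_prod_erase Finset.univ (SlashInvariantForm.quotientFunc F)
      (Finset.mem_univ (⟦(1 : 𝒮ℒ)⟧ : 𝒮ℒ ⧸ (Gm1 N).subgroupOf 𝒮ℒ))]
    have h2 : SlashInvariantForm.quotientFunc F (⟦(1 : 𝒮ℒ)⟧ : 𝒮ℒ ⧸ (Gm1 N).subgroupOf 𝒮ℒ) =
        (F : ℍ → ℂ) := by
      rw [SlashInvariantForm.quotientFunc_mk]
      simp
    rw [h2]
    have h3 : (∏ q ∈ Finset.univ.erase (⟦(1 : 𝒮ℒ)⟧ : 𝒮ℒ ⧸ (Gm1 N).subgroupOf 𝒮ℒ),
        SlashInvariantForm.quotientFunc F q) =O[atImInfty] (fun _ => (1 : ℝ)) := by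
      have h4 := Asymptotics.IsBigO.finsetProd (s := Finset.univ.erase
        (⟦(1 : 𝒮ℒ)⟧ : 𝒮ℒ ⧸ (Gm1 N).subgroupOf 𝒮ℒ)) (l := atImInfty)
        (f := fun q => SlashInvariantForm.quotientFunc F q) (g := fun _ _ => (1 : ℝ))
        (fun q _ => QB4_bdd N w F q)
      refine h4.congr (fun τ => ?_) (fun τ => ?_)
      · rw [Finset.prod_apply]
      · simp
    have h5 := h1.mul h3
    refine h5.congr (fun τ => rfl) (fun τ => ?_)
    rw [mul_one]
  have hzero : ModularForm.norm 𝒮ℒ F = 0 := by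
    apply ModularForm.sturm_bound_levelOne
    have h6 : ((M : ℕ) : ℕ∞) ≤ (qExpansion 1 (ModularForm.norm 𝒮ℒ F : ℍ → ℂ)).order :=
      PowerSeries.nat_le_order _ _ fun n hn => QA4_coeff _ _ M hP n hn
    refine lt_of_lt_of_le ?_ h6
    have h7 : ((w : ℤ) * (Nat.card (𝒮ℒ ⧸ (Gm1 N).subgroupOf 𝒮ℒ) : ℤ)).toNat = w * mu1 N := by
      rw [← Nat.cast_mul, Int.toNat_natCast]
      rfl
    rw [h7]
    exact_mod_cast Nat.lt_succ_self _
  rw [ModularForm.norm_eq_zero_iff] at hzero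
  exact DFunLike.coe_injective hzero

theorem QB5_qexp (N : ℕ) [NeZero N] (w r : ℕ) (F : Fin r → ModularForm (Gm1 N) (w : ℤ))
    (x : Fin r → ℂ) :
    qExpansion 1 ((∑ i, x i • F i : ModularForm (Gm1 N) (w : ℤ)) : ℍ → ℂ) =
      ∑ i, x i • qExpansion 1 (F i : ℍ → ℂ) := by
  have h := map_sum (ModularForm.qExpansionAddHom (Γ := Gm1 N) zero_lt_one
    (one_mem_strictPeriodsG1 N) (w : ℤ)) (fun i => x i • F i) Finset.univ
  have h2 : ∀ G : ModularForm (Gm1 N) (w : ℤ), ModularForm.qExpansionAddHom (Γ := Gm1 N) zero_lt_one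
    (one_mem_strictPeriodsG1 N) (w : ℤ) G = qExpansion 1 (G : ℍ → ℂ) := fun G => rfl
  rw [h2] at h
  rw [h]
  refine Finset.sum_congr rfl fun i _ => ?_
  rw [h2]
  exact ModularForm.qExpansion_smul zero_lt_one (one_mem_strictPeriodsG1 N) (x i) (F i)

theorem dependentG1 (N : ℕ) [NeZero N] (w r : ℕ) (hr : w * mu1 N / 12 + 1 < r)
    (F : Fin r → ModularForm (Gm1 N) (w : ℤ)) :
    ∃ x : Fin r → ℂ, x ≠ 0 ∧ ∑ i, x i • qExpansion 1 (F i : ℍ → ℂ) = 0 := by
  let L : (Fin r → ℂ) →ₗ[ℂ] (Fin (w * mu1 N / 12 + 1) → ℂ) :=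
    LinearMap.pi fun n => ∑ i, (coeff (n : ℕ) (qExpansion 1 (F i : ℍ → ℂ))) •
      (LinearMap.proj i : (Fin r → ℂ) →ₗ[ℂ] ℂ)
  have hlt : Module.finrank ℂ (Fin (w * mu1 N / 12 + 1) → ℂ) < Module.finrank ℂ (Fin r → ℂ) := by
    rw [Module.finrank_fin_fun, Module.finrank_fin_fun]
    exact hr
  have hker := LinearMap.ker_ne_bot_of_finrank_lt (f := L) hlt
  obtain ⟨x, hx, hx0⟩ := (Submodule.ne_bot_iff _).mp hker
  refine ⟨x, hx0, ?_⟩
  have hLx : ∀ n : Fin (w * mu1 N / 12 + 1),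
      ∑ i, x i * coeff (n : ℕ) (qExpansion 1 (F i : ℍ → ℂ)) = 0 := by
    intro n
    have h := congrFun (LinearMap.mem_ker.mp hx) n
    simp only [L, LinearMap.pi_apply, LinearMap.sum_apply, LinearMap.smul_apply,
      LinearMap.proj_apply, smul_eq_mul, Pi.zero_apply] at h
    rw [← h]
    exact Finset.sum_congr rfl fun i _ => mul_comm _ _
  have hG : (∑ i, x i • F i : ModularForm (Gm1 N) (w : ℤ)) = 0 := by
    refine sturmG1 N w _ fun n hn => ?_
    rw [QB5_qexp, map_sum]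
    have hn' : n < w * mu1 N / 12 + 1 := by omega
    have h := hLx ⟨n, hn'⟩
    rw [← h]
    refine Finset.sum_congr rfl fun i _ => ?_
    rw [coeff_smul, smul_eq_mul]
  rw [← QB5_qexp, hG]
  exact UpperHalfPlane.qExpansion_zero 1

theorem MN1_sturm (N p w : ℕ) [NeZero N] [Fact p.Prime] (hw : 1 ≤ w) {f : PowerSeries (ZMod p)}
    (hf : f ∈ MN1 N p w) (h0 : ∀ n < (mu1 N + 1) * w, coeff n f = 0) : f = 0 := by
  classical
  by_contra hne
  have hex : ∃ n, coeff n f ≠ 0 := by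
    by_contra hcon
    push Not at hcon
    exact hne (PowerSeries.ext fun n => by rw [hcon n, map_zero])
  obtain ⟨n₀, hn₀, hmin⟩ : ∃ n₀, coeff n₀ f ≠ 0 ∧ ∀ m < n₀, coeff m f = 0 :=
    ⟨Nat.find hex, Nat.find_spec hex, fun m hm => by
      have := Nat.find_min hex hm
      push Not at this
      exact this⟩
  have hord : f.order = (n₀ : ℕ) := PowerSeries.order_eq_nat.mpr ⟨hn₀, hmin⟩
  have hn₀' : (mu1 N + 1) * w ≤ n₀ := by
    by_contra hcon
    exact hn₀ (h0 n₀ (not_le.mp hcon))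
  have hmu := mu1_pos N
  set A := 2 * mu1 N with hA
  have hmem : ∀ s ∈ QA7_S A w,
      f ^ (12 * s.1) * redZ p (dl ^ s.2 * e4 ^ (3 * ((A - s.1) * w - s.2)) * e6 ^ 0) ∈
        MN1set N p (12 * (A * w)) := by
    intro s hs
    rw [← mem_MN1]
    have hs' := Finset.mem_sigma.mp hs
    have h1 := Finset.mem_range.mp hs'.1
    have h2 := Finset.mem_range.mp hs'.2
    have h3 : redZ p (dl ^ s.2 * e4 ^ (3 * ((A - s.1) * w - s.2)) * e6 ^ 0) ∈
        MN1 N p (12 * ((A - s.1) * w)) := by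
      apply MP_le_MN1
      apply Submodule.subset_span
      refine ⟨3 * ((A - s.1) * w - s.2), 0, s.2, ?_, rfl⟩
      omega
    have h4 := MN1_mul (MN1_pow hf (12 * s.1)) h3
    have h5 : 12 * s.1 * w + 12 * ((A - s.1) * w) = 12 * (A * w) := by
      have : s.1 * w + (A - s.1) * w = A * w := by
        rw [← add_mul]
        congr 1
        omega
      linarith
    rwa [h5] at h4
  set S := QA7_S A w with hS
  let en : Fin S.card → S := fun i => S.equivFin.symm i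
  have hen : Function.Injective en := S.equivFin.symm.injective
  have hF : ∀ i : Fin S.card, ∃ (F : ModularForm (Gm1 N) ((12 * (A * w) : ℕ) : ℤ))
      (g : PowerSeries ℚ), PI p g ∧ qExpansion 1 (F : ℍ → ℂ) = ktoC g ∧
      f ^ (12 * (en i).1.1) * redZ p (dl ^ (en i).1.2 *
        e4 ^ (3 * ((A - (en i).1.1) * w - (en i).1.2)) * e6 ^ 0) = redQ p g :=
    fun i => hmem (en i).1 (en i).2
  choose F g hg hFg hred using hF
  have hcard : 12 * (A * w) * mu1 N / 12 + 1 < S.card := by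
    have h1 := QA7_card A w
    rw [← hS] at h1
    have h2 : 12 * (A * w) * mu1 N / 12 = A * w * mu1 N := by
      rw [mul_assoc, Nat.mul_div_cancel_left _ (by norm_num)]
    rw [h2]
    have h3 : w * (A * (A + 1)) = 2 * (A * w * mu1 N) + w * A := by
      rw [hA]
      ring
    rw [h3] at h1
    have h4 : 1 ≤ w * A := Nat.mul_pos hw (by omega)
    omega
  obtain ⟨x, hx0, hx⟩ := dependentG1 N (12 * (A * w)) S.card hcard F
  apply hx0
  have hordi : ∀ i, (redQ p (g i)).order = ((12 * (en i).1.1 * n₀ + (en i).1.2 : ℕ) : ℕ∞) := by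
    intro i
    rw [← hred i]
    exact QA7_order p f n₀ _ _ _ hord
  refine indep p S.card g hg (fun i => 12 * (en i).1.1 * n₀ + (en i).1.2) ?_ ?_ ?_ x ?_
  · intro i j hij
    apply hen
    simp only at hij
    have hb : ∀ k : Fin S.card, (en k).1.2 < 12 * n₀ := by
      intro k
      have hs' := Finset.mem_sigma.mp (en k).2
      have h2 := Finset.mem_range.mp hs'.2
      have h3 : (A - (en k).1.1) * w ≤ A * w := Nat.mul_le_mul_right _ (Nat.sub_le _ _)
      have h4 : A * w = 2 * (mu1 N * w) := by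
        rw [hA]
        ring
      have h5 : (mu1 N + 1) * w = mu1 N * w + w := by ring
      omega
    have hn₀pos : 0 < 12 * n₀ := lt_of_le_of_lt (Nat.zero_le _) (hb i)
    have h1 : (en i).1.1 = (en j).1.1 := by
      have e1 : ∀ k : Fin S.card, (12 * (en k).1.1 * n₀ + (en k).1.2) / (12 * n₀) =
          (en k).1.1 := by
        intro k
        have e2 : 12 * (en k).1.1 * n₀ + (en k).1.2 = (en k).1.2 + 12 * n₀ * (en k).1.1 := by ring
        rw [e2, Nat.add_mul_div_left _ _ hn₀pos, Nat.div_eq_of_lt (hb k), zero_add]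
      rw [← e1 i, ← e1 j, hij]
    have h2 : (en i).1.2 = (en j).1.2 := by
      rw [h1] at hij
      exact Nat.add_left_cancel hij
    apply Subtype.ext
    exact Sigma.ext h1 (heq_of_eq h2)
  · intro i n hn
    exact (PowerSeries.order_eq_nat.mp (hordi i)).2 n hn
  · intro i
    exact (PowerSeries.order_eq_nat.mp (hordi i)).1
  · rw [← hx]
    exact Finset.sum_congr rfl fun i _ => by rw [hFg i]

theorem MN1_zero_const (N p : ℕ) [NeZero N] [Fact p.Prime] {f : PowerSeries (ZMod p)}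
    (hf : f ∈ MN1 N p 0) (h0 : coeff 0 f = 0) : f = 0 := by
  obtain ⟨F, g, hg, hF, rfl⟩ := mem_MN1.1 hf
  obtain ⟨a, ha⟩ : ∃ a, a = coeff 0 (qExpansion 1 (F : ℍ → ℂ)) := ⟨_, rfl⟩
  obtain ⟨C, hC⟩ : ∃ C : ModularForm (Gm1 N) ((0 : ℕ) : ℤ), (C : ℍ → ℂ) = a • (1 : ℍ → ℂ) := by
    refine ⟨(ModularForm.const a : ModularForm (Gm1 N) 0), ?_⟩
    ext z
    show a = a * 1
    rw [mul_one]
  have hC1 : qExpansion 1 (C : ℍ → ℂ) = a • (1 : PowerSeries ℂ) := by
    have h1 : (1 : ℍ → ℂ) = ((ModularForm.const 1 : ModularForm (Gm1 N) 0) : ℍ → ℂ) := by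
      ext z
      rfl
    have h2 : AnalyticAt ℂ (UpperHalfPlane.cuspFunction 1 (1 : ℍ → ℂ)) 0 := by
      rw [h1]
      exact ModularFormClass.analyticAt_cuspFunction_zero
        (ModularForm.const 1 : ModularForm (Gm1 N) 0) one_pos (one_mem_strictPeriodsG1 N)
    rw [hC, UpperHalfPlane.qExpansion_smul h2, UpperHalfPlane.qExpansion_one]
  have h1 : F - C = 0 := by
    refine sturmG1 N 0 (F - C) fun n hn => ?_
    have hn0 : n = 0 := by omega
    subst hn0
    have h2 : qExpansion 1 ((F - C : ModularForm (Gm1 N) ((0 : ℕ) : ℤ)) : ℍ → ℂ) =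
        qExpansion 1 (F : ℍ → ℂ) - qExpansion 1 (C : ℍ → ℂ) :=
      UpperHalfPlane.qExpansion_sub
        (ModularFormClass.analyticAt_cuspFunction_zero F one_pos (one_mem_strictPeriodsG1 N))
        (ModularFormClass.analyticAt_cuspFunction_zero C one_pos (one_mem_strictPeriodsG1 N))
    rw [h2, hC1, map_sub, ← ha]
    simp
  have h2 : F = C := sub_eq_zero.1 h1
  rw [h2, hC1] at hF
  ext n
  rcases Nat.eq_zero_or_pos n with hn | hn
  · subst hn
    rw [h0, map_zero]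
  · have h3 := congrArg (coeff n) hF
    have h4 : coeff n (ktoC g) = ((coeff n g : ℚ) : ℂ) := by
      simp [ktoC]
    rw [h4] at h3
    have h5 : coeff n (a • (1 : PowerSeries ℂ)) = 0 := by
      rw [coeff_smul, coeff_one, if_neg hn.ne', smul_zero]
    rw [h5] at h3
    have h6 : coeff n g = 0 := by exact_mod_cast h3.symm
    rw [redQ, coeff_mk, h6, map_zero]
    simp

theorem mfam_MN1 (N p : ℕ) [NeZero N] [Fact p.Prime] :
    MFam p (12 * (mu1 N + 1)) 0 (fun w => MN1 N p w) := by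
  refine ⟨fun w => MP_le_MN1 N p w, fun w w' f g hf hg => MN1_mul hf hg, fun w f hf h => ?_⟩
  have e : 12 * (mu1 N + 1) * w / 12 + 0 = (mu1 N + 1) * w := by
    rw [Nat.add_zero, Nat.mul_assoc, Nat.mul_div_cancel_left _ (by norm_num)]
  rw [e] at h
  rcases Nat.eq_zero_or_pos w with hw | hw
  · subst hw
    exact MN1_zero_const N p hf (h 0 (Nat.zero_le _))
  · exact MN1_sturm N p w hw hf fun n hn => h n hn.le

theorem KMFN1 (N : ℕ) [NeZero N] (f : PowerSeries ℂ) (hf : CG f) (w : ℕ)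
    (h : ∀ A B C D : ℤ, A * D - B * C = 1 → (N : ℤ) ∣ C → (N : ℤ) ∣ D - 1 → ∀ z : ℂ, 0 < z.im →
      ev f ((A * z + B) / (C * z + D)) = (C * z + D) ^ w * ev f z) :
    ∃ F : ModularForm (Gm1 N) (w : ℤ), qExpansion 1 F = f := by
  obtain ⟨hcv, C₀, A₀, hgr⟩ := MG_ev hf
  set F₀ : ℍ → ℂ := fun τ : ℍ => ev f (τ : ℂ) with hF₀
  have hinv : ∀ γ ∈ CongruenceSubgroup.Gamma1 N, F₀ ∣[(w : ℤ)] γ = F₀ := by
    intro γ hγ
    ext τ
    rw [ModularForm.slash_action_eq'_iff]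
    have hdet : γ 0 0 * γ 1 1 - γ 0 1 * γ 1 0 = 1 := by
      have := γ.det_coe
      rwa [Matrix.det_fin_two] at this
    have hC : (N : ℤ) ∣ γ 1 0 := by
      rw [CongruenceSubgroup.Gamma1_mem] at hγ
      exact (ZMod.intCast_zmod_eq_zero_iff_dvd _ _).1 hγ.2.2
    have hD : (N : ℤ) ∣ γ 1 1 - 1 := by
      rw [CongruenceSubgroup.Gamma1_mem] at hγ
      refine (ZMod.intCast_zmod_eq_zero_iff_dvd _ _).1 ?_
      rw [Int.cast_sub, hγ.2.1, Int.cast_one, sub_self]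
    have h1 := h _ _ _ _ hdet hC hD τ τ.im_pos
    have h2 : ((γ • τ : ℍ) : ℂ) = ((γ 0 0 : ℂ) * τ + γ 0 1) / (γ 1 0 * τ + γ 1 1) := by
      rw [UpperHalfPlane.specialLinearGroup_apply]
      simp
    simp only [hF₀]
    rw [h2, h1, zpow_natCast]
  have hhol : MDiff F₀ := by
    rw [UpperHalfPlane.mdifferentiable_iff]
    refine (KMF_diff f hcv).congr fun z hz => ?_
    simp [hF₀, ofComplex_apply_of_im_pos hz]
  have hbdd : ∀ g : SL(2, ℤ), IsBoundedAtImInfty (F₀ ∣[(w : ℤ)] g) := fun g =>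
    MG_bdd (Γ := CongruenceSubgroup.Gamma1 N) (w : ℤ) F₀ hhol hinv C₀ A₀
      (fun z => hgr z z.im_pos) g
  let F : ModularForm (Gm1 N) (w : ℤ) :=
    { toFun := F₀
      slash_action_eq' := by
        rintro A ⟨A, hA, rfl⟩
        exact hinv A hA
      holo' := hhol
      bdd_at_cusps' := by
        intro c hc
        rw [Subgroup.IsArithmetic.isCusp_iff_isCusp_SL2Z] at hc
        rw [OnePoint.isBoundedAt_iff_forall_SL2Z hc]
        intro γ _
        exact hbdd γ }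
  refine ⟨F, ?_⟩
  have h1 : (1 : ℝ) ∈ (Gm1 N).strictPeriods := by
    simp
  ext m
  refine (ModularFormClass.qExpansion_coeff_unique (F := ModularForm (Gm1 N) (w : ℤ)) (k := (w : ℤ))
    one_pos h1 (f := F) (c := fun m => PowerSeries.coeff m f)
    (fun τ => KMF_hasSum f hcv τ) m).symm


end H53N
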