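import Pool.Agent.Lib.H53N.Q
import Pool.Agent.Lib.H36H.KF

/-!
# H53N: the transformation law and the reduction modulo `p` for the diagonal `Γ₁(N)`

Copies of parts of the module K of H36H, with `Γ₁(N)` for `Γ₀(N)`.
-/

namespace H36H

open H53M H94M H53N Function PowerSeries

variable {ι Λ : Type*} [Fintype ι] [DecidableEq ι]

/-- The transformation law under the diagonal action of `Γ₁(N)` in parallel weight `k`. -/
def DTransI1 (N k : ℕ) (G : (ι → ℂ) → ℂ) : Prop :=
  ∀ A B C D : ℤ, A * D - B * C = 1 → (N : ℤ) ∣ C → (N : ℤ) ∣ D - 1 → ∀ z : ι → ℂ,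
    (∀ i, 0 < (z i).im) →
    G (fun i => (A * z i + B) / (C * z i + D)) = (∏ i, (C * z i + D)) ^ k * G z

variable {N k : ℕ}

/-- Transformation law, exponents supported in the list `l`. -/
theorem KT_list1 (hk : 1 ≤ k) (A : KArr ι Λ) (hT : DTransI1 N k A.G) {α β C D : ℤ}
    (hdet : α * D - β * C = 1) (hC : (N : ℤ) ∣ C) (hD : (N : ℤ) ∣ D - 1) (l : List ι) (hl : l.Nodup) :
    ∀ a : ι → ℕ, (∀ i, i ∉ l → a i = 0) → ∀ z : ι → ℂ, (∀ i, 0 < (z i).im) →
      A.GA a (fun i => (α * z i + β) / (C * z i + D)) =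
        (∏ i, ((C : ℂ) * z i + D) ^ (k + 2 * a i)) *
          lowL k (sz C D z) l (fun a' => A.GA a' z) a := by
  induction l with
  | nil =>
    intro a ha z hz
    have ha0 : a = 0 := funext fun i => ha i (by simp)
    subst ha0
    rw [lowL_nil, KArr.GA_zero, KArr.GA_zero, hT α β C D hdet hC hD z hz, ← Finset.prod_pow]
    simp
  | cons j l ih =>
    intro a ha z hz
    rw [List.nodup_cons] at hl
    have hih := ih hl.2
    obtain ⟨P, hP⟩ : ∃ P : ℂ, P = ∏ i ∈ Finset.univ.erase j, ((C : ℂ) * z i + D) ^ (k + 2 * a i) :=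
      ⟨_, rfl⟩
    obtain ⟨Y, hY⟩ : ∃ Y : ι → ℂ, Y = fun i => ((α : ℂ) * z i + β) / (C * z i + D) := ⟨_, rfl⟩
    have hYim : ∀ i, 0 < (Y i).im := fun i => by
      rw [hY]
      exact mob_im_pos hdet (hz i)
    have h := K2 k hk hdet
      (fun b w => P * lowL k (sz C D z) l (fun a' => A.GA a' (update z j w)) (update a j b))
      (fun b w => A.GA (update a j b) (update Y j w))
      (fun b w hw => by
        have h1 := lowL_hasDerivAt k (sz C D z) l (fun a' w => A.GA a' (update z j w))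
          (fun a' => 2 * Real.pi * Complex.I * A.GA (update a' j (a' j + 1)) (update z j w)) w
          (fun a' => A.GA_deriv a' z j w (fun i _ => hz i) hw) (update a j b)
        have h2 := h1.const_mul P
        refine h2.congr_deriv ?_
        rw [lowL_mul, lowL_shift k (sz C D z) l j hl.1 (fun a' => A.GA a' (update z j w)),
          update_self, update_idem]
        ring)
      (fun b w hw => by
        have h1 := A.GA_deriv (update a j b) Y j w (fun i _ => hYim i) hw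
        rw [update_self, update_idem] at h1
        exact h1)
      (fun w hw => by
        have h1 := hih (update a j 0) (fun i hi => by
          by_cases hij : i = j
          · subst hij
            rw [update_self]
          · rw [update_of_ne hij]
            exact ha i (by simp [hij, hi])) (update z j w) (upd_im hz j hw)
        rw [mob_update, ← hY, prod_den_update, ← hP] at h1
        rw [h1, lowL_congr k (s := sz C D (update z j w)) (s' := sz C D z) l
          (fun i hi => sz_update C D z j w (fun h => hl.1 (h ▸ hi)))]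
        simp only [mul_zero, add_zero]
        ring)
      (a j) (z j) (hz j)
    simp only [update_eq_self] at h
    have hYj : update Y j (((α : ℂ) * z j + β) / (C * z j + D)) = Y := by
      rw [hY]
      exact update_eq_self j (fun i => ((α : ℂ) * z i + β) / (C * z i + D))
    rw [hYj] at h
    rw [← hY, h, K4_low1_mul, lowL_cons]
    have h3 : ∏ i, ((C : ℂ) * z i + D) ^ (k + 2 * a i) = (C * z j + D) ^ (k + 2 * a j) * P := by
      rw [hP, Finset.mul_prod_erase _ (fun i => ((C : ℂ) * z i + D) ^ (k + 2 * a i))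
        (Finset.mem_univ j)]
    rw [h3]
    exact (mul_assoc _ _ _).symm

/-- Transformation law on the diagonal. -/
theorem KT1 (hk : 1 ≤ k) (A : KArr ι Λ) (hT : DTransI1 N k A.G) {α β C D : ℤ}
    (hdet : α * D - β * C = 1) (hC : (N : ℤ) ∣ C) (hD : (N : ℤ) ∣ D - 1) (a : ι → ℕ) (z : ℂ) (hz : 0 < z.im) :
    A.GA a (fun _ => (α * z + β) / (C * z + D)) =
      (C * z + D) ^ (Fintype.card ι * k + 2 * ∑ i, a i) *
        lowA k (C / (2 * Real.pi * Complex.I * (C * z + D))) (fun a' => A.GA a' fun _ => z) a := by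
  have h := KT_list1 hk A hT hdet hC hD Finset.univ.toList (Finset.nodup_toList _) a
    (fun i hi => absurd (by simp) hi) (fun _ => z) (fun _ => hz)
  rw [Finset.prod_pow_eq_pow_sum] at h
  have e : ∑ i : ι, (k + 2 * a i) = Fintype.card ι * k + 2 * ∑ i, a i := by
    rw [Finset.sum_add_distrib, Finset.sum_const, Finset.card_univ, smul_eq_mul, Finset.mul_sum]
  rw [e] at h
  exact h

theorem KArr.M_trans1 (hk : 1 ≤ k) (A : KArr ι Λ) (hT : DTransI1 N k A.G) {α β C D : ℤ}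
    (hdet : α * D - β * C = 1) (hC : (N : ℤ) ∣ C) (hD : (N : ℤ) ∣ D - 1) (a : ι → ℕ) (z : ℂ) (hz : 0 < z.im) :
    ev (A.M k a) ((α * z + β) / (C * z + D)) =
      (C * z + D) ^ (Fintype.card ι * k + 2 * ∑ i, a i) * ev (A.M k a) z := by
  have hz' := mob_im_pos hdet hz
  obtain ⟨e, he⟩ : ∃ e, e = ev (ktoC e2q) z := ⟨_, rfl⟩
  obtain ⟨w, hw⟩ : ∃ w : ℂ, w = C * z + D := ⟨_, rfl⟩
  obtain ⟨s, hs⟩ : ∃ s : ℂ, s = C / (2 * Real.pi * Complex.I * (C * z + D)) := ⟨_, rfl⟩
  unfold KArr.M lowA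
  rw [ev_lowL k (Cv_neg KE2_Cv) _ (fun a => A.T_Cv a) hz',
    ev_lowL k (Cv_neg KE2_Cv) _ (fun a => A.T_Cv a) hz, ev_neg KE2_Cv hz',
    ev_neg KE2_Cv hz, KE2_trans hdet z hz]
  have h1 : (fun a' => ev (A.T a') ((α * z + β) / (C * z + D))) = fun a' =>
      w ^ (Fintype.card ι * k + 2 * ∑ i, a' i) * lowA k s (fun a' => A.GA a' fun _ => z) a' := by
    funext a'
    rw [A.T_ev a' _ hz', KT1 hk A hT hdet hC hD a' z hz, hs, hw]
  have h2 : (fun a' => ev (A.T a') z) = fun a' => A.GA a' fun _ => z := by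
    funext a'
    exact A.T_ev a' z hz
  rw [h1, h2, ← he, ← hs, ← hw]
  have h3 : -(w ^ 2 * (e + s)) = w ^ 2 * (-(e + s)) := by ring
  rw [h3, ← lowL_homog]
  congr 1
  change lowA k (-(e + s)) (lowA k s fun a' => A.GA a' fun _ => z) a = _
  rw [lowA_lowA k hk]
  have h4 : -(e + s) + s = -e := by ring
  rw [h4]
  rfl

theorem KArr.Mq_MN1 [NeZero N] (hk : 1 ≤ k) (A : KArr ι Λ) (hT : DTransI1 N k A.G) (p : ℕ)
    [Fact p.Prime] (hp : 5 ≤ p) (a : ι → ℕ) :
    redQ p (A.Mq k a) ∈ MN1 N p (Fintype.card ι * k + 2 * ∑ i, a i) := by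
  have hC : CG (ktoC (A.Mq k a)) := by
    rw [A.Mq_toC]
    exact CG_sum _ _ fun σ _ => A.M_CG k _
  obtain ⟨F, hF⟩ := KMFN1 N (ktoC (A.Mq k a)) hC (Fintype.card ι * k + 2 * ∑ i, a i) (by
    intro α β C D hdet hNC hND z hz
    have hz' := mob_im_pos hdet hz
    rw [A.Mq_toC, ev_sum _ _ (fun σ _ => A.M_Cv k _) hz', ev_sum _ _ (fun σ _ => A.M_Cv k _) hz,
      Finset.mul_sum]
    refine Finset.sum_congr rfl fun σ _ => ?_
    rw [A.M_trans1 hk hT hdet hNC hND _ z hz, sum_comp_perm])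
  exact red_mem_MN1 F _ (A.Mq_PI k p hp a) hF

theorem KArr.Tq_MN1 [NeZero N] (hk : 3 ≤ k) (A : KArr ι Λ) (hT : DTransI1 N k A.G) (p : ℕ)
    [Fact p.Prime] (hp : 5 < p) (j : ι) :
    redQ p (A.Tq (av p j)) ∈ MN1 N p
      (Fintype.card ι * k + 2 * Fintype.card ι - 4 + (p - 1) * (2 * Fintype.card ι + k - 3)) := by
  have hd : 1 ≤ Fintype.card ι := Fintype.card_pos_iff.2 ⟨j⟩
  obtain ⟨d, hdd⟩ : ∃ d, d = Fintype.card ι := ⟨_, rfl⟩
  rw [A.Tq_inv (by omega : 1 ≤ k)]
  unfold lowA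
  rw [kredQ_lowL k (K6_e2q p (by omega)) _ (A.Mq_PI k p (by omega))]
  have hperm : (Finset.univ : Finset ι).toList.Perm (j :: (Finset.univ.erase j).toList) := by
    have h := Finset.toList_insert (Finset.notMem_erase j (Finset.univ : Finset ι))
    rwa [Finset.insert_erase (Finset.mem_univ j)] at h
  rw [lowL_perm k _ hperm, lowL_cons, lowV_eq, av_self]
  refine Submodule.sum_mem _ fun i hi => ?_
  rw [Finset.mem_range] at hi
  rcases Nat.lt_or_ge i (k - 2) with hik | hik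
  swap
  · rw [kf_cast (K7_kc k hk p hp i hik)]
    simp
  rw [kf_low_p k p _ _ _ _ (fun x hx => by
    have hxj : x ≠ j := by
      have := Finset.mem_toList.1 hx
      exact Finset.ne_of_mem_erase this
    rw [update_of_ne hxj]
    unfold av
    rw [update_of_ne hxj])]
  have hM := A.Mq_MN1 (by omega : 1 ≤ k) hT p (by omega) (update (av p j) j (p - 2 - i))
  have h3 := MN1_mul (MN1_pow (MP_le_MN1 N p _ (K7_e2q p hp)) i) hM
  have h4 := MN1_mul h3 (MN1_pow (MP_le_MN1 N p _ (KQ_one p (by omega))) (k - 3 - i))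
  rw [one_pow, mul_one] at h4
  have hs1 : ∑ x, update (av p j) j (p - 2 - i) x + i + 2 = Fintype.card ι * p := by
    have h5 := sum_update_sub (av p j) j i (by rw [av_self]; omega)
    rw [av_self] at h5
    rw [h5]
    exact av_sum p (by omega) j
  have hw : i * (p + 1) + (Fintype.card ι * k + 2 * ∑ x, update (av p j) j (p - 2 - i) x) +
      (k - 3 - i) * (p - 1) =
      Fintype.card ι * k + 2 * Fintype.card ι - 4 + (p - 1) * (2 * Fintype.card ι + k - 3) := by
    obtain ⟨S, hS⟩ : ∃ S, S = ∑ x, update (av p j) j (p - 2 - i) x := ⟨_, rfl⟩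
    rw [← hS] at hs1 ⊢
    rw [← hdd] at hs1 hd ⊢
    obtain ⟨l, hl⟩ : ∃ l, k = l + i + 3 := ⟨k - 3 - i, by omega⟩
    obtain ⟨q, rfl⟩ : ∃ q, p = q + 1 := ⟨p - 1, by omega⟩
    obtain ⟨e, rfl⟩ : ∃ e, d = e + 1 := ⟨d - 1, by omega⟩
    subst hl
    have e1 : l + i + 3 - 3 - i = l := by omega
    have e2 : (e + 1) * (l + i + 3) + 2 * (e + 1) - 4 = e * (l + i + 3) + l + i + 2 * e + 1 := by
      have : (e + 1) * (l + i + 3) = e * (l + i + 3) + (l + i + 3) := by ring
      omega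
    have e3 : 2 * (e + 1) + (l + i + 3) - 3 = 2 * e + 2 + l + i := by omega
    rw [e1, e2, e3, Nat.add_sub_cancel]
    have e4 : 2 * S + 2 * i + 4 = 2 * ((e + 1) * (q + 1)) := by omega
    nlinarith [e4]
  rw [hw] at h4
  have h5 : ((kc k (p - 2) i : ℕ) : PowerSeries (ZMod p)) * redQ p e2q ^ i *
        redQ p (A.Mq k (update (av p j) j (p - 2 - i))) =
      ((kc k (p - 2) i : ℕ) : ZMod p) •
        (redQ p e2q ^ i * redQ p (A.Mq k (update (av p j) j (p - 2 - i)))) := by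
    rw [PowerSeries.smul_eq_C_mul, map_natCast]
    ring
  rw [h5]
  exact Submodule.smul_mem _ _ h4

/-- **Theorem K.** -/
theorem KArr.gp_MN1 [NeZero N] (hk : 3 ≤ k) (A : KArr ι Λ) (hT : DTransI1 N k A.G) (p : ℕ)
    [Fact p.Prime] (hp : 5 < p) (hd : Fintype.card ι < p) :
    redZ p (A.gp p) ∈ MN1 N p
      (Fintype.card ι * k + 2 * Fintype.card ι - 4 + (p - 1) * (2 * Fintype.card ι + k - 3)) := by
  have hpp : p.Prime := Fact.out
  have h1 := congrArg (redQ p) (A.sum_Tq p (by omega))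
  rw [kredQ_sum _ _ (fun j _ => A.Tq_PI p _), kredQ_smul (pi_int _) (PI_toQ _), kredQ_toQ] at h1
  have h2 := Submodule.sum_mem _ fun j (_ : j ∈ (Finset.univ : Finset ι)) =>
    A.Tq_MN1 hk hT p hp j
  rw [h1] at h2
  have h4 : (((((Fintype.card ι).factorial : ℤ) : ℚ)) : ZMod p) ≠ 0 := by
    rw [Rat.cast_intCast, Int.cast_natCast, Ne, ZMod.natCast_eq_zero_iff, hpp.dvd_factorial]
    omega
  have h5 := Submodule.smul_mem _ (((((Fintype.card ι).factorial : ℤ) : ℚ)) : ZMod p)⁻¹ h2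
  rwa [smul_smul, inv_mul_cancel₀ h4, one_smul] at h5

/-- **Theorem K, rational form.** -/
theorem KArr.hs_MN1 [NeZero N] (hk : 3 ≤ k) (A : KArr ι Λ) (hT : DTransI1 N k A.G) (p : ℕ)
    [Fact p.Prime] (hp : 5 < p) (hc : Fintype.card ι < p)
    (hd : ∀ ξ, (p : ℤ) ∣ A.nm ξ → (p : ℤ) ∣ ((A.c ξ * A.q2 ξ : ℚ) / A.nm ξ).num) :
    redQ p A.hs ∈ MN1 N p
      (Fintype.card ι * k + 2 * Fintype.card ι - 4 + (p - 1) * (2 * Fintype.card ι + k - 3)) := by
  rw [A.hs_red p (by omega) hd]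
  exact A.gp_MN1 hk hT p hp hc


end H36H
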