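import Pool.Agent.Lib.H53N.K
import Pool.Agent.Lib.H36H.XFin

/-!
# H53N: module X for the diagonal `Γ₁(N)`, all parities of the weight

Copies of XT, XE, XN, XFin of H36H, with `Γ₁(N)` for `Γ₀(N)`; the weight `v = d k + 2 d - 4` of `h` need not be
even, the relation is one for `h²`.
-/

namespace H36H

open H53M H94M H53N H53M.X Function Filter Topology

variable {ι Λ : Type*} [Fintype ι] [DecidableEq ι]

/-- `elim` with doubled exponents. -/
theorem elim2 (S : Finset (ℕ × ℕ × ℕ)) (b : ℕ × ℕ × ℕ → ℂ) (e₀ c₁ κ : ℂ) (hc₁ : c₁ ≠ 0)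
    (hκ : κ ≠ 0) (P : Polynomial ℂ) (r : ℕ) (x y : ℕ → ℂ) (hx0 : ∀ N, x N ≠ 0)
    (hx : Tendsto x atTop (𝓝 0)) (hy : {z : ℂ | MapClusterPt z atTop y}.Infinite)
    (h : ∀ N, ∑ t ∈ S, b t * (e₀ + c₁ * x N) ^ (6 * t.1) *
      ((P.eval (x N) + κ * x N ^ r * y N) ^ 2) ^ (6 * t.2.1) = 0) (i j : ℕ) :
    ∑ t ∈ S.filter (fun t => t.1 = i ∧ t.2.1 = j), b t = 0 := by
  classical
  obtain ⟨f, hf⟩ : ∃ f : ℕ × ℕ × ℕ → ℕ × ℕ × ℕ, f = fun t => (t.1, 2 * t.2.1, t.2.2) := ⟨_, rfl⟩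
  have hinj : Function.Injective f := by
    rintro ⟨a1, a2, a3⟩ ⟨b1, b2, b3⟩ hab
    rw [hf] at hab
    simp only [Prod.mk.injEq] at hab ⊢
    omega
  have key := elim (S.image f) (fun t => b (t.1, t.2.1 / 2, t.2.2)) e₀ c₁ κ hc₁ hκ P r x y hx0 hx hy
    (fun N => by
      rw [Finset.sum_image fun a _ b _ hab => hinj hab, ← h N]
      refine Finset.sum_congr rfl fun t _ => ?_
      have e1 : b ((f t).1, (f t).2.1 / 2, (f t).2.2) = b t := by
        rw [hf]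
        simp
      have e2 : (f t).1 = t.1 := by rw [hf]
      have e3 : 6 * (f t).2.1 = 2 * (6 * t.2.1) := by
        rw [hf]
        ring
      rw [e1, e2, e3, pow_mul _ 2 (6 * t.2.1)]) i (2 * j)
  have e4 : (S.image f).filter (fun t => t.1 = i ∧ t.2.1 = 2 * j) =
      (S.filter (fun t => t.1 = i ∧ t.2.1 = j)).image f := by
    ext t
    simp only [Finset.mem_filter, Finset.mem_image]
    constructor
    · rintro ⟨⟨s, hs, rfl⟩, h1, h2⟩
      refine ⟨s, ⟨hs, ?_, ?_⟩, rfl⟩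
      · rw [hf] at h1
        exact h1
      · rw [hf] at h2
        simp only at h2
        omega
    · rintro ⟨s, ⟨hs, h1, h2⟩, rfl⟩
      refine ⟨⟨s, hs, rfl⟩, ?_, ?_⟩
      · rw [hf]
        exact h1
      · rw [hf]
        simp only
        omega
  rw [e4, Finset.sum_image fun a _ b _ hab => hinj hab] at key
  rw [← key]
  refine Finset.sum_congr rfl fun t _ => ?_
  rw [hf]
  simp

theorem KArr.xtrans1 (A : KArr ι Λ) {N k : ℕ} (hN : 0 < N) (hk : 1 ≤ k) (hT : DTransI1 N k A.G)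
    (i : ι) {t w : ℂ} (ht : 0 < t.im) (hw : 0 < w.im) :
    X.F (A.xc N 1 i 0) (A.xu N i) (A.xv N i) 0 (-1 / t) (-1 / w) =
      t ^ ((k + 2) * (Fintype.card ι - 1)) * w ^ k *
        X.F (A.xc N (-1) i (kp k * t⁻¹)) (A.xu N i) (A.xv N i) 0 t w := by
  have hN0 : (N : ℂ) ≠ 0 := by exact_mod_cast hN.ne'
  have hNr : (0 : ℝ) < N := by exact_mod_cast hN
  have ht0 : t ≠ 0 := fun h => by simp [h] at ht
  have hw0 : w ≠ 0 := fun h => by simp [h] at hw
  have hpi : (2 * Real.pi * Complex.I : ℂ) ≠ 0 := Complex.two_pi_I_ne_zero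
  obtain ⟨z, hz⟩ : ∃ z : ι → ℂ, z = update (fun _ => (t - 1) / N) i ((w - 1) / N) := ⟨_, rfl⟩
  have hzi : z i = (w - 1) / N := by rw [hz, update_self]
  have hzj : ∀ j, j ≠ i → z j = (t - 1) / N := fun j hj => by rw [hz, update_of_ne hj]
  have him : ∀ x : ℂ, 0 < x.im → 0 < ((x - 1) / N).im := by
    intro x hx
    rw [Complex.div_natCast_im]
    have : (x - 1).im = x.im := by simp
    rw [this]
    exact div_pos hx hNr
  have hzpos : ∀ j, 0 < (z j).im := by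
    intro j
    by_cases hj : j = i
    · rw [hj, hzi]
      exact him w hw
    · rw [hzj j hj]
      exact him t ht
  obtain ⟨l, hl⟩ : ∃ l : List ι, l = (Finset.univ.erase i).toList := ⟨_, rfl⟩
  have hln : l.Nodup := by rw [hl]; exact Finset.nodup_toList _
  have hmem : ∀ j, j ∈ l ↔ j ≠ i := fun j => by rw [hl]; simp
  have hls : l.toFinset = Finset.univ.erase i := by rw [hl]; simp
  have ha0 : ∀ j, j ∉ l → xtA i j = 0 := by
    intro j hj
    rw [hmem, not_not] at hj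
    rw [hj, xtA, update_self]
  have ha1 : ∀ j ∈ l, xtA i j = 1 := by
    intro j hj
    rw [hmem] at hj
    rw [xtA, update_of_ne hj]
  have h1 := KT_list1 hk A hT (α := 1) (β := 0) (C := N) (D := 1) (by ring) (dvd_refl _)
    (by rw [sub_self]; exact dvd_zero _) l hln
    (xtA i) ha0 z hzpos
  obtain ⟨h2, h3⟩ := lowL_one A k (sz (N : ℤ) 1 z) z hzpos l hln (xtA i) ha1
  rw [h3, hls] at h1
  -- the denominators
  have hdt : ∀ j, j ≠ i → (((N : ℤ) : ℂ) * z j + ((1 : ℤ) : ℂ)) = t := by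
    intro j hj
    rw [hzj j hj]
    push_cast
    field_simp
    ring
  have hdi : (((N : ℤ) : ℂ) * z i + ((1 : ℤ) : ℂ)) = w := by
    rw [hzi]
    push_cast
    field_simp
    ring
  have hprod : ∏ j, (((N : ℤ) : ℂ) * z j + ((1 : ℤ) : ℂ)) ^ (k + 2 * xtA i j) =
      t ^ ((k + 2) * (Fintype.card ι - 1)) * w ^ k := by
    rw [← Finset.mul_prod_erase _ _ (Finset.mem_univ i), hdi]
    have e1 : xtA i i = 0 := by rw [xtA, update_self]
    have e2 : ∀ j ∈ Finset.univ.erase i,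
        (((N : ℤ) : ℂ) * z j + ((1 : ℤ) : ℂ)) ^ (k + 2 * xtA i j) = t ^ (k + 2) := by
      intro j hj
      rw [hdt j (Finset.ne_of_mem_erase hj), xtA, update_of_ne (Finset.ne_of_mem_erase hj)]
    rw [Finset.prod_congr rfl e2, Finset.prod_const, Finset.card_erase_of_mem (Finset.mem_univ i),
      Finset.card_univ, ← pow_mul, e1, mul_zero, add_zero, mul_comm]
  rw [hprod] at h1
  obtain ⟨c0, hc0⟩ : ∃ c0 : ℂ, c0 = ((N : ℂ) ^ (Fintype.card ι - 1))⁻¹ := ⟨_, rfl⟩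
  have hprodN : ∀ f : ι → ℂ, ∏ j ∈ Finset.univ.erase i, (f j / (N : ℂ)) =
      c0 * ∏ j ∈ Finset.univ.erase i, f j := by
    intro f
    rw [Finset.prod_div_distrib, Finset.prod_const, Finset.card_erase_of_mem (Finset.mem_univ i),
      Finset.card_univ, hc0, div_eq_mul_inv, mul_comm]
  -- left side
  have hL : X.F (A.xc N 1 i 0) (A.xu N i) (A.xv N i) 0 (-1 / t) (-1 / w) =
      c0 * A.GA (xtA i) (fun j => (((1 : ℤ) : ℂ) * z j + ((0 : ℤ) : ℂ)) /
        (((N : ℤ) : ℂ) * z j + ((1 : ℤ) : ℂ))) := by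
    unfold X.F KArr.GA
    rw [← tsum_mul_left]
    refine tsum_congr fun ξ => ?_
    unfold KArr.term KArr.xc
    have e1 : (fun j => (((1 : ℤ) : ℂ) * z j + ((0 : ℤ) : ℂ)) /
        (((N : ℤ) : ℂ) * z j + ((1 : ℤ) : ℂ))) =
        update (fun _ => (1 - 1 / t) / N) i ((1 - 1 / w) / N) := by
      funext j
      by_cases hj : j = i
      · rw [hj, hdi, update_self, hzi]
        push_cast
        field_simp
        ring
      · rw [hdt j hj, update_of_ne hj, hzj j hj]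
        push_cast
        field_simp
        ring
    have e2 : ∏ j, (A.nu ξ j : ℂ) ^ xtA i j = ∏ j ∈ Finset.univ.erase i, (A.nu ξ j : ℂ) := by
      rw [← Finset.mul_prod_erase _ _ (Finset.mem_univ i)]
      have e3 : xtA i i = 0 := by rw [xtA, update_self]
      rw [e3, pow_zero, one_mul]
      refine Finset.prod_congr rfl fun j hj => ?_
      rw [xtA, update_of_ne (Finset.ne_of_mem_erase hj), pow_one]
    have e4 : X.ex ((((1 : ℤ) : ℂ)) * (A.tr ξ : ℂ) / (N : ℂ)) *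
        X.ex ((A.xu N i ξ : ℂ) * (-1 / t) + (A.xv N i ξ : ℂ) * (-1 / w)) =
        Complex.exp (2 * Real.pi * Complex.I * (((A.tr ξ : ℂ) - A.nu ξ i) * ((1 - 1 / t) / N) +
          A.nu ξ i * ((1 - 1 / w) / N))) := by
      rw [← X.ex_add]
      unfold X.ex KArr.xu KArr.xv
      congr 2
      push_cast
      field_simp
      ring
    rw [e1, xt_sum, ← e4, e2, pow_zero, mul_one]
    simp only [add_zero]
    rw [hprodN]
    ring
  -- right side
  have hR : X.F (A.xc N (-1) i (kp k * t⁻¹)) (A.xu N i) (A.xv N i) 0 t w =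
      c0 * ∑' ξ, lterm A k (sz (N : ℤ) 1 z) (Finset.univ.erase i) (xtA i) z ξ := by
    unfold X.F
    rw [← tsum_mul_left]
    refine tsum_congr fun ξ => ?_
    unfold lterm KArr.xc
    have e1 : ∏ j ∈ Finset.univ.erase i, ((A.nu ξ j : ℂ) / (N : ℂ) + kp k * t⁻¹) =
        c0 * ∏ j ∈ Finset.univ.erase i, ((A.nu ξ j : ℂ) + k * sz (N : ℤ) 1 z j) := by
      rw [← hprodN]
      refine Finset.prod_congr rfl fun j hj => ?_
      unfold sz kp
      rw [hdt j (Finset.ne_of_mem_erase hj)]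
      push_cast
      field_simp
    have e2 : ∏ j ∈ Finset.univ \ Finset.univ.erase i, (A.nu ξ j : ℂ) ^ xtA i j = 1 := by
      refine Finset.prod_eq_one fun j hj => ?_
      have hji : j = i := by simpa using hj
      rw [hji, xtA, update_self, pow_zero]
    have e4 : X.ex ((((-1 : ℤ) : ℂ)) * (A.tr ξ : ℂ) / (N : ℂ)) *
        X.ex ((A.xu N i ξ : ℂ) * t + (A.xv N i ξ : ℂ) * w) =
        Complex.exp (2 * Real.pi * Complex.I * ∑ j, (A.nu ξ j : ℂ) * z j) := by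
      rw [← X.ex_add, hz, xt_sum]
      unfold X.ex KArr.xu KArr.xv
      congr 2
      push_cast
      field_simp
      ring
    rw [← e4, e2, e1, pow_zero]
    ring
  rw [hL, h1, hR]
  ring

theorem KArr.h_trans1 (A : KArr ι Λ) {N k v : ℕ} (hN : 0 < N) (hk : 2 ≤ k)
    (hd : 2 ≤ Fintype.card ι) (hw : v + 4 = Fintype.card ι * k + 2 * Fintype.card ι)
    (hT : DTransI1 N k A.G) (hf : A.XFam k) {t : ℂ} (ht : 0 < t.im) :
    ev (ktoC A.hs) ((1 + -1 / t) / N) = t ^ v *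
      ((A.xP N k t).eval t⁻¹ +
        kapI N (Fintype.card ι) k * t⁻¹ ^ (k - 2) * A.xY N k t t⁻¹) := by
  have ht0 : t ≠ 0 := X.X3_ne ht
  have hK1 : k - 1 + 1 = k := by omega
  have hstep : ∀ i : ι, X.F (A.xc 1 0 i 0) (A.xu 1 i) (A.xv 1 i) 1 ((1 + -1 / t) / N)
      ((1 + -1 / t) / N) = (N : ℂ) ^ (Fintype.card ι - 2) * (2 * Real.pi * Complex.I *
        t ^ ((k + 2) * (Fintype.card ι - 1)) *
        (∑ j ∈ Finset.range (k - 1), X.co (k - 1) j * t ^ (k - 1 - 1 - j) *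
          X.F (A.xc N (-1) i (kp k * t⁻¹)) (A.xu N i) (A.xv N i) (j + 1) t t -
          X.co (k - 1) (k - 1 - 1) *
            X.L (A.xc N (-1) i (kp k * t⁻¹)) (A.xu N i) (A.xv N i) (k - 1) t)) := by
    intro i
    rw [A.xscale hN hd i, transB3 (A.xfam hN hd hf (-1) i (kp k * t⁻¹)) (A.xfam hN hd hf 1 i 0)
      (by omega) ht (t ^ ((k + 2) * (Fintype.card ι - 1))) (fun w hw => by
        rw [A.xtrans1 hN (by omega) hT i ht hw, hK1])]
  rw [A.hs_ev hk hd hf (XN4_im2 hN (X.X13_im ht)), A.xP_eval hN hd hf ht]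
  unfold KArr.xY kapI
  rw [Finset.sum_congr rfl fun i _ => hstep i, Finset.mul_sum, mul_add, Finset.mul_sum,
    Finset.mul_sum, ← Finset.sum_add_distrib]
  refine Finset.sum_congr rfl fun i _ => ?_
  rw [mul_sub, mul_sub, sub_eq_add_neg, Finset.mul_sum, Finset.mul_sum, Finset.mul_sum]
  have hpow : (k + 2) * (Fintype.card ι - 1) + (k - 2) = v := by
    obtain ⟨d, hd'⟩ : ∃ d, Fintype.card ι = d + 2 := ⟨Fintype.card ι - 2, by omega⟩
    obtain ⟨m, rfl⟩ : ∃ m, k = m + 2 := ⟨k - 2, by omega⟩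
    rw [hd'] at hw ⊢
    have e1 : d + 2 - 1 = d + 1 := by omega
    have e2 : m + 2 - 2 = m := by omega
    rw [e1, e2]
    nlinarith [hw]
  congr 1
  · refine Finset.sum_congr rfl fun j hj => ?_
    have hj' : j ≤ k - 2 := by
      have := Finset.mem_range.mp hj
      omega
    have e2 : t ^ v = t ^ ((k + 2) * (Fintype.card ι - 1)) * t ^ (k - 1 - 1 - j) * t ^ j := by
      rw [← pow_add, ← pow_add, ← hpow]
      congr 1
      omega
    have e3 : t ^ j * t⁻¹ ^ j = 1 := by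
      rw [← mul_pow, mul_inv_cancel₀ ht0, one_pow]
    rw [e2]
    linear_combination (-((N : ℂ) ^ (Fintype.card ι - 2) * (2 * Real.pi * Complex.I *
      X.co (k - 1) j * X.F (A.xc N (-1) i (kp k * t⁻¹)) (A.xu N i) (A.xv N i) (j + 1) t t) *
      (t ^ ((k + 2) * (Fintype.card ι - 1)) * t ^ (k - 1 - 1 - j)))) * e3
  · have e2 : t ^ v = t ^ ((k + 2) * (Fintype.card ι - 1)) * t ^ (k - 2) := by
      rw [← pow_add, hpow]
    have e3 : t ^ (k - 2) * t⁻¹ ^ (k - 2) = 1 := by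
      rw [← mul_pow, mul_inv_cancel₀ ht0, one_pow]
    have e4 : k - 1 - 1 = k - 2 := by omega
    rw [e2, e4]
    linear_combination ((N : ℂ) ^ (Fintype.card ι - 2) * (2 * Real.pi * Complex.I *
      X.co (k - 1) (k - 2) * X.L (A.xc N (-1) i (kp k * t⁻¹)) (A.xu N i) (A.xv N i) (k - 1) t) *
      t ^ ((k + 2) * (Fintype.card ι - 1))) * e3

theorem KArr.not_rel_of_clusters1 {N k v : ℕ} (hN : 0 < N) (hk : 2 ≤ k) (A : KArr ι Λ)
    (hd : 2 ≤ Fintype.card ι) (hw : v + 4 = Fintype.card ι * k + 2 * Fintype.card ι)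
    (hT : DTransI1 N k A.G) (hf : A.XFam k)
    (hcl : ∀ᶠ y : ℝ in atTop, {z : ℂ | MapClusterPt z atTop (fun M : ℕ =>
      A.xY N k (1 + N * (Complex.I * y) + N * (M : ℂ))
        (1 + N * (Complex.I * y) + N * (M : ℂ))⁻¹)}.Infinite) :
    ¬ Rel v (A.hs ^ 2) := by
  rintro ⟨W, S, g, hS, ⟨t₀, ht₀, hg₀⟩, h0⟩
  refine hg₀ (triang W v S g hS (fun y => ev (ktoC (toQ dl)) (Complex.I * (y : ℂ)))
    (fun y => ev (ktoC (toQ e4)) (Complex.I * (y : ℂ))) dl_tendsto dl_ne e4_tendsto ?_ t₀ ht₀)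
  filter_upwards [hcl, eventually_gt_atTop (0 : ℝ)] with y hy hy0
  intro i j
  set τ : ℂ := Complex.I * (y : ℂ) with hτdef
  have hτ : 0 < τ.im := by
    rw [hτdef]
    simpa using hy0
  have hN' := XN5_Nne hN
  set t : ℂ := 1 + N * τ with htdef
  have ht : 0 < t.im := XNFin_im hN hy0
  have htM : ∀ M : ℕ, 0 < (t + N * (M : ℂ)).im := by
    intro M
    have e : t + N * (M : ℂ) = t + ((N * M : ℕ) : ℂ) := by push_cast; ring
    rw [e, Complex.add_im, Complex.natCast_im, add_zero]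
    exact ht
  have hne : ∀ M : ℕ, t + N * (M : ℂ) ≠ 0 := fun M => X3_ne (htM M)
  refine elim2 S (fun s => (g s : ℂ) * (ev (ktoC (toQ dl)) τ ^ s.2.2 *
      ev (ktoC (toQ e4)) τ ^ (3 * (W - s.1 - v * s.2.1 - s.2.2))))
    (ev (ktoC (toQ e2)) τ) (12 / (2 * Real.pi * Complex.I) * N) (kapI N (Fintype.card ι) k)
    (mul_ne_zero (div_ne_zero (by norm_num) two_pi_I_ne) hN') (kapI_ne hN _ hk)
    (A.xP N k t) (k - 2)
    (fun M => (t + N * (M : ℂ))⁻¹)
    (fun M => A.xY N k (t + N * (M : ℂ)) (t + N * (M : ℂ))⁻¹)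
    (fun M => inv_ne_zero (hne M)) (inv_tendsto_xt hN t) hy ?_ i j
  intro M
  have hz : 0 < (τ + (M : ℂ)).im := by
    rw [Complex.add_im, Complex.natCast_im, add_zero]
    exact hτ
  have e0 : t + N * (M : ℂ) = (N : ℂ) * (τ + (M : ℂ)) + 1 := by
    rw [htdef]
    ring
  have hz1 : (N : ℂ) * (τ + (M : ℂ)) + 1 ≠ 0 := XN4_ne hz N
  have e1 : (1 + -1 / (t + N * (M : ℂ))) / N =
      (τ + (M : ℂ)) / ((N : ℂ) * (τ + (M : ℂ)) + 1) := by
    rw [e0]
    field_simp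
    ring
  have hgam : 0 < ((τ + (M : ℂ)) / ((N : ℂ) * (τ + (M : ℂ)) + 1)).im := by
    rw [XN4_gam hz]
    exact X13_im (XN4_im hz N)
  have hcv : Cv (ktoC (A.hs ^ 2)) := by
    rw [map_pow]
    exact Cv_pow (A.hs_Cv hk hd hf) 2
  have hr := rel_eval hcv h0 hgam
  rw [map_pow, ev_pow (A.hs_Cv hk hd hf) 2 hgam] at hr
  have hh := A.h_trans1 hN hk hd hw hT hf (htM M)
  rw [e1, A.xP_shift hN t M] at hh
  rw [e0] at hh
  simp only [dl_gam hz, e4_gam hz, e2_gam hz, hh, XN4_period] at hr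
  simp only [e0]
  have hW : ((N : ℂ) * (τ + (M : ℂ)) + 1) ^ (12 * W) ≠ 0 := pow_ne_zero _ hz1
  apply mul_left_cancel₀ hW
  rw [mul_zero, ← hr, Finset.mul_sum]
  refine Finset.sum_congr rfl fun s hsS => ?_
  have hle := hS s hsS
  generalize (A.xP N k t).eval ((N : ℂ) * (τ + (M : ℂ)) + 1)⁻¹ + kapI N (Fintype.card ι) k *
    ((N : ℂ) * (τ + (M : ℂ)) + 1)⁻¹ ^ (k - 2) *
      A.xY N k ((N : ℂ) * (τ + (M : ℂ)) + 1) ((N : ℂ) * (τ + (M : ℂ)) + 1)⁻¹ = A1
  generalize (ev (ktoC (toQ e2)) τ + 12 / (2 * Real.pi * Complex.I) * N *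
    ((N : ℂ) * (τ + (M : ℂ)) + 1)⁻¹) = A2
  generalize ev (ktoC (toQ dl)) τ = A3
  generalize ev (ktoC (toQ e4)) τ = A4
  generalize (N : ℂ) * (τ + (M : ℂ)) + 1 = u
  rw [mul_pow, mul_pow, mul_pow, mul_pow, mul_pow, ← pow_mul, ← pow_mul, ← pow_mul, ← pow_mul,
    ← pow_mul]
  have e : 12 * W = 12 * s.2.2 + 4 * (3 * (W - s.1 - v * s.2.1 - s.2.2)) + 2 * (6 * s.1) +
      v * 2 * (6 * s.2.1) := by
    generalize hq : v * s.2.1 = q at *
    have : v * 2 * (6 * s.2.1) = 12 * q := by rw [← hq]; ring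
    rw [this]
    omega
  rw [e, pow_add, pow_add, pow_add]
  ring

open scoped Classical in
/-- **Theorem X.** `h` satisfies no isobaric relation with `E₂, E₄, Δ`, if the almost periodic
function has an irrational frequency. -/
theorem KArr.not_rel1 {N k v : ℕ} (hN : 0 < N) (hk : 2 ≤ k) (A : KArr ι Λ)
    (hd : 2 ≤ Fintype.card ι) (hw : v + 4 = Fintype.card ι * k + 2 * Fintype.card ι)
    (hT : DTransI1 N k A.G) (hf : A.XFam k)
    (hne : ∀ᶠ y : ℝ in atTop, ∃ φ : ℝ, Irrational φ ∧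
      (∑' p : ι × Λ, if ∃ m : ℤ, -(A.nu p.2 p.1) - φ = m then
        A.xb N k (1 + N * (Complex.I * (y : ℂ))) p else 0) ≠ 0) :
    ¬ Rel v (A.hs ^ 2) := by
  refine A.not_rel_of_clusters1 hN hk hd hw hT hf ?_
  filter_upwards [hne, eventually_gt_atTop (0 : ℝ)] with y ⟨φ, hφ, hy⟩ hy0
  have ht : 0 < (1 + (N : ℂ) * (Complex.I * (y : ℂ))).im := XNFin_im hN hy0
  refine cluster_inf (A.xb N k (1 + N * (Complex.I * (y : ℂ)))) (A.xb_summable hN hd hf ht)
    (fun p => -(A.nu p.2 p.1)) φ hφ hy _ ?_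
  refine (A.xY_diff hN hd hf ht).congr fun M => ?_
  rw [A.xY_zero hN hd hf ht M]


end H36H
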