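import Pool.Agent.Lib.H53N.ND
import Pool.Agent.Lib.H67T.NJ5

set_option autoImplicit false

/-!
H53N, CHUNK A0: N1 of two functions.
-/

open MvPolynomial Module Real MeasureTheory
open Pool.Agent.H89.Sect Pool.Agent.H89.Arr

namespace Pool.Agent.H53N

open Pool.Agent.H67T Pool.Agent.H53S Pool.Agent.H53K

attribute [local instance] MvPolynomial.gradedAlgebra

/-- CHUNK A0 (S).  PROOF.  `NJ5_finite` for `g` gives the finset `s` of the zeros of `g` of norm `≤ r`; it contains the zeros of `f`.  `NJ4_N1` (Lib/H67T/NJ4) for `f` and for `g` with this `s`; termwise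
`(if f a = 0 then 1 else 0) ≤ (if g a = 0 then 1 else 0)` and `log (r / ‖a‖) ≥ 0` for `‖a‖ ≤ r` (`a = 0`: `log 0 = 0`), `log r ≥ 0`. -/
theorem N1_le {f g : ℂ → ℂ} (hg : Differentiable ℂ g) (hg0 : ∃ z, g z ≠ 0) (h : ∀ z, f z = 0 → g z = 0)
    {r : ℝ} (hr : 1 ≤ r) : N1 f r ≤ N1 g r := by
  classical
  have hfin := NJ5_finite hg hg0 r
  set s : Finset ℂ := hfin.toFinset with hs
  have hsr : ∀ a ∈ s, ‖a‖ ≤ r := by
    intro a ha
    rw [hs, Set.Finite.mem_toFinset] at ha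
    exact ha.1
  have hsg : ∀ a, ‖a‖ ≤ r → g a = 0 → a ∈ s := by
    intro a ha hga
    rw [hs, Set.Finite.mem_toFinset]
    exact ⟨ha, hga⟩
  have hsf : ∀ a, ‖a‖ ≤ r → f a = 0 → a ∈ s := fun a ha hfa => hsg a ha (h a hfa)
  rw [NJ5_N1_eq hsf hsr, NJ5_N1_eq hsg hsr]
  refine add_le_add (Finset.sum_le_sum fun a ha => ?_) ?_
  · by_cases h1 : f a = 0
    · rw [if_pos h1, if_pos (h a h1)]
    · rw [if_neg h1]
      split_ifs
      · exact NJ5_log_nonneg hr (hsr a ha)
      · exact le_rfl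
  · by_cases h1 : f 0 = 0
    · rw [if_pos h1, if_pos (h 0 h1)]
    · rw [if_neg h1]
      split_ifs
      · exact log_nonneg hr
      · exact le_rfl

end Pool.Agent.H53N
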