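import Pool.Agent.Lib.H53N.ND
import Pool.Agent.Lib.H67T.NJ1
import Pool.Agent.Lib.H67T.NJ5

set_option autoImplicit false

/-!
H53N, CHUNK A1: averages of entire functions are bounded below.
-/

open MvPolynomial Module Real MeasureTheory
open Pool.Agent.H89.Sect Pool.Agent.H89.Arr

namespace Pool.Agent.H53N

open Pool.Agent.H67T Pool.Agent.H53S Pool.Agent.H53K

attribute [local instance] MvPolynomial.gradedAlgebra

/-- CHUNK A1 (S).  PROOF.  `jensen` (Lib/H67T/NJ1) with the finset `s` of the zeros of norm `≤ r` (`NJ5_finite`): all terms except the constant `K` are `≥ 0`.  `C = |K|`. -/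
theorem avg_ge {G : ℂ → ℂ} (hG : Differentiable ℂ G) (hG0 : ∃ z, G z ≠ 0) :
    ∃ C : ℝ, 0 ≤ C ∧ ∀ r : ℝ, 1 ≤ r → -C ≤ circleAverage (fun z => log ‖G z‖) 0 r := by
  obtain ⟨K, hK⟩ := jensen hG hG0
  refine ⟨|K|, abs_nonneg K, fun r hr => ?_⟩
  have hfin := NJ5_finite hG hG0 r
  have hmem : ∀ a, a ∈ hfin.toFinset ↔ ‖a‖ ≤ r ∧ G a = 0 := fun a => by
    rw [Set.Finite.mem_toFinset]
    exact Iff.rfl
  have h := hK r hr hfin.toFinset (fun a ha h0 => (hmem a).2 ⟨ha, h0⟩)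
    (fun a ha => ((hmem a).1 ha).1)
  rw [h]
  have h1 : 0 ≤ ∑ a ∈ hfin.toFinset, (analyticOrderNatAt G a : ℝ) * log (r / ‖a‖) :=
    Finset.sum_nonneg fun a ha =>
      mul_nonneg (Nat.cast_nonneg _) (NJ5_log_nonneg hr ((hmem a).1 ha).1)
  have h2 : 0 ≤ (analyticOrderNatAt G 0 : ℝ) * log r :=
    mul_nonneg (Nat.cast_nonneg _) (log_nonneg hr)
  linarith [neg_abs_le K]

end Pool.Agent.H53N
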