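import Pool.Agent.Lib.H53N.ND

set_option autoImplicit false

/-!
H53N, CHUNK A2: the average of a vector with a common divisor.
-/

open MvPolynomial Module Real MeasureTheory
open Pool.Agent.H89.Sect Pool.Agent.H89.Arr

namespace Pool.Agent.H53N

open Pool.Agent.H67T Pool.Agent.H53S Pool.Agent.H53K

attribute [local instance] MvPolynomial.gradedAlgebra

/-- Congruence of averages off the zeros of an entire function. -/
theorem A2_congr {r : ℝ} (hr : r ≠ 0) {f g : ℂ → ℝ} {b : ℝ} (hg : NS2_Avg r g b) {F : ℂ → ℂ}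
    (hF : Differentiable ℂ F) (hF0 : ∃ z, F z ≠ 0) (h : ∀ z, F z ≠ 0 → f z = g z) :
    NS2_Avg r f b := by
  obtain ⟨z₀, hz₀⟩ := hF0
  have hcod : F ⁻¹' {0}ᶜ ∈ Filter.codiscrete ℂ :=
    AnalyticOnNhd.preimage_zero_mem_codiscrete (fun z _ => hF.analyticAt z) hz₀
  have hcod' : F ⁻¹' {0}ᶜ ∈ Filter.codiscreteWithin (Metric.sphere (0 : ℂ) |r|) :=
    Filter.codiscreteWithin_mono (Set.subset_univ _) hcod
  have hcongr : g =ᶠ[Filter.codiscreteWithin (Metric.sphere (0 : ℂ) |r|)] f := by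
    filter_upwards [hcod'] with z hz
    exact (h z hz).symm
  exact ⟨hg.1.congr_codiscreteWithin hcongr,
    by rw [← circleAverage_congr_codiscreteWithin hcongr hr, hg.2]⟩

/-- CHUNK A2 (S/M).  PROOF.  `log ‖h z‖ = log ‖g z‖ + log ‖w z‖` where `g z ≠ 0` (`norm_smul`, `log_mul`, `w z ≠ 0`), i.e. off a codiscrete set.  The right-hand side is `NS2_Avg r _ (avg (log ‖g‖) + chi w r)` by `NS2_add`
(`NS2_int_log`, `NS2_int_log_y`).  Pass to the left-hand side with `circleIntegrable_congr_codiscreteWithin`, `circleAverage_congr_codiscreteWithin` as in the proof of `NS2_mono` (Lib/H67T/NS2). -/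
theorem avg_red {m : ℕ} {h : ℂ → Fin m → ℂ} {g : ℂ → ℂ} {w : ℂ → Fin m → ℂ} (hR : Red h g w) {r : ℝ} (hr : 1 ≤ r) :
    NS2_Avg r (fun z => log ‖h z‖) (circleAverage (fun z => log ‖g z‖) 0 r + chi w r) := by
  have hr0 : r ≠ 0 := by linarith
  refine A2_congr hr0 (NS2_add (f := fun z => log ‖g z‖) (g := fun z => log ‖w z‖)
    ⟨NS2_int_log hR.diff r, rfl⟩ ⟨NS2_int_log_y hR.hol r, rfl⟩) hR.diff hR.ne fun z hz => ?_
  rw [hR.eq z, norm_smul, log_mul (norm_ne_zero_iff.mpr hz) (norm_ne_zero_iff.mpr (hR.hol.ne_zero z))]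

/-- CHUNK A2, second part (S).  The average of `log ‖f z‖ + log ‖q z‖`.  Same proof. -/
theorem avg_mul {f q : ℂ → ℂ} (hf : Differentiable ℂ f) (hf0 : ∃ z, f z ≠ 0) (hq : Differentiable ℂ q) (hq0 : ∃ z, q z ≠ 0)
    {r : ℝ} (hr : 1 ≤ r) :
    circleAverage (fun z => log ‖f z * q z‖) 0 r =
      circleAverage (fun z => log ‖f z‖) 0 r + circleAverage (fun z => log ‖q z‖) 0 r := by
  have hr0 : r ≠ 0 := by linarith
  have hex : ∃ z, (f z * q z) ≠ 0 := by
    by_contra hcon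
    push Not at hcon
    have hne : ∀ {f : ℂ → ℂ}, Differentiable ℂ f → (∃ z, f z ≠ 0) →
        ∀ᶠ z in nhdsWithin (0 : ℂ) {0}ᶜ, f z ≠ 0 := by
      rintro f hf ⟨z₀, hz₀⟩
      have h1 := AnalyticOnNhd.preimage_zero_mem_codiscrete (fun z _ => hf.analyticAt z) hz₀
      have h2 := mem_codiscrete.mp h1 0
      rw [Filter.disjoint_principal_right, compl_compl] at h2
      exact h2
    obtain ⟨z, hz1, hz2⟩ := ((hne hf hf0).and (hne hq hq0)).exists
    exact mul_ne_zero hz1 hz2 (hcon z)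
  refine (A2_congr hr0 (NS2_add (f := fun z => log ‖f z‖) (g := fun z => log ‖q z‖)
    ⟨NS2_int_log hf r, rfl⟩ ⟨NS2_int_log hq r, rfl⟩) (F := fun z => f z * q z) (hf.mul hq) hex
    fun z hz => ?_).2
  have h1 : f z ≠ 0 := left_ne_zero_of_mul hz
  have h2 : q z ≠ 0 := right_ne_zero_of_mul hz
  rw [norm_mul, log_mul (norm_ne_zero_iff.mpr h1) (norm_ne_zero_iff.mpr h2)]

end Pool.Agent.H53N
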