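import Pool.Agent.Lib.H53N.ND

set_option autoImplicit false

/-!
H53N, CHUNK A3: a common factor divides the common divisor.
-/

open MvPolynomial Module Real MeasureTheory
open Pool.Agent.H89.Sect Pool.Agent.H89.Arr

namespace Pool.Agent.H53N

open Pool.Agent.H67T Pool.Agent.H53S Pool.Agent.H53K

attribute [local instance] MvPolynomial.gradedAlgebra

/-- CHUNK A3 (S/M).  PROOF.  Fix `z`; some `w z l ≠ 0`, so the order of `w · l` at `z` is `0` and `ord (h · l) = ord g` (`analyticOrderAt_mul`); also `ord (h · l) = ord f + ord (h' · l) ≥ ord f`.  `exists_div`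
(Lib/H53K/W2a) gives `q`; it is not identically `0` because `g` is not. -/
theorem red_dvd {m : ℕ} {h : ℂ → Fin m → ℂ} {g : ℂ → ℂ} {w : ℂ → Fin m → ℂ} (hR : Red h g w) {f : ℂ → ℂ}
    (hf : Differentiable ℂ f) (hf0 : ∃ z, f z ≠ 0) {h' : ℂ → Fin m → ℂ} (hh' : ∀ l, Differentiable ℂ fun z => h' z l)
    (h : ∀ z, h z = f z • h' z) : ∃ q : ℂ → ℂ, Differentiable ℂ q ∧ (∃ z, q z ≠ 0) ∧ ∀ z, g z = f z * q z := by
  have hord : ∀ z, analyticOrderAt f z ≤ analyticOrderAt g z := by
    intro z
    have hfa : AnalyticAt ℂ f z := hf.analyticAt z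
    have hga : AnalyticAt ℂ g z := hR.diff.analyticAt z
    obtain ⟨l, hl⟩ : ∃ l, w z l ≠ 0 := by
      by_contra hc
      push Not at hc
      exact hR.hol.ne_zero z (funext hc)
    have hwa : AnalyticAt ℂ (fun z => w z l) z := (hR.hol.diff l).analyticAt z
    have hha : AnalyticAt ℂ (fun z => h' z l) z := (hh' l).analyticAt z
    have hw0 : analyticOrderAt (fun z => w z l) z = 0 := hwa.analyticOrderAt_eq_zero.2 hl
    have e : (g * fun z => w z l) = (f * fun z => h' z l) := by
      funext t
      have h1 := congrFun (hR.eq t) l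
      have h2 := congrFun (h t) l
      simp only [Pi.smul_apply, smul_eq_mul] at h1 h2
      show g t * w t l = f t * h' t l
      rw [← h1, ← h2]
    have h3 : analyticOrderAt g z = analyticOrderAt f z + analyticOrderAt (fun z => h' z l) z := by
      rw [← analyticOrderAt_mul hfa hha, ← e, analyticOrderAt_mul hga hwa, hw0, add_zero]
    rw [h3]
    exact le_self_add
  obtain ⟨q, hq, hq2⟩ := exists_div hR.diff hf hf0 hord
  refine ⟨q, hq, ?_, hq2⟩
  obtain ⟨z, hz⟩ := hR.ne
  refine ⟨z, fun h0 => hz ?_⟩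
  rw [hq2 z, h0, mul_zero]

/-- CHUNK A3, second part (S).  The order of the common divisor of a pair is at most the order of each member, and it is `0` at
a point where one member is not `0`.  PROOF.  `(h · l) = g * (w · l)`. -/
theorem red_ord {m : ℕ} {h : ℂ → Fin m → ℂ} {g : ℂ → ℂ} {w : ℂ → Fin m → ℂ} (hR : Red h g w) (l : Fin m) (z : ℂ) :
    analyticOrderAt g z ≤ analyticOrderAt (fun z => h z l) z ∧ (h z l ≠ 0 → g z ≠ 0) := by
  have e : (fun z => h z l) = (g * fun z => w z l) := by
    funext t
    have h1 := congrFun (hR.eq t) l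
    simp only [Pi.smul_apply, smul_eq_mul] at h1
    exact h1
  constructor
  · have hga : AnalyticAt ℂ g z := hR.diff.analyticAt z
    have hwa : AnalyticAt ℂ (fun z => w z l) z := (hR.hol.diff l).analyticAt z
    rw [e, analyticOrderAt_mul hga hwa]
    exact le_self_add
  · intro hne h0
    apply hne
    have h1 := congrFun (hR.eq z) l
    simp only [Pi.smul_apply, smul_eq_mul] at h1
    rw [h1, h0, zero_mul]

end Pool.Agent.H53N
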