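import Pool.Agent.Lib.H53N.A1
import Pool.Agent.Lib.H53N.A2
import Pool.Agent.Lib.H53N.A3

set_option autoImplicit false

/-!
H53N, CHUNK A4: the reduced pair of two members of a family.
-/

open MvPolynomial Module Real MeasureTheory
open Pool.Agent.H89.Sect Pool.Agent.H89.Arr

namespace Pool.Agent.H53N

open Pool.Agent.H67T Pool.Agent.H53S Pool.Agent.H53K

attribute [local instance] MvPolynomial.gradedAlgebra

/-- CHUNK A4 (M).  PROOF.  `h z := pr c d y z = f z • h' z`, `h' z = ![lin a (v z), lin b (v z)]`.  `red_dvd`: `G = f * q`.  With `A = 1 + ∑ ‖a j‖ + ∑ ‖b j‖` (`NS2_lin_le`) `‖h z‖ ≤ ‖f z‖ * (A * ‖v z‖)`; where `G z ≠ 0`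
(so `h z ≠ 0`, `f z ≠ 0`): `log ‖h z‖ ≤ log ‖f z‖ + (log A + log ‖v z‖)`.  `NS2_mono` (with `F = G`), `avg_red hR`, `avg_mul` for `G = f * q`, `avg_ge` for `q`:
`avg log ‖G‖ + chi w r ≤ avg log ‖f‖ + log A + chi v r` and `avg log ‖G‖ ≥ avg log ‖f‖ - C`. -/
theorem pair_le {m n : ℕ} {y : ℂ → Fin n → ℂ} {c d : Fin n → ℂ} {v : ℂ → Fin m → ℂ} (hv : IsHol v) {f : ℂ → ℂ}
    (hf : Differentiable ℂ f) (hf0 : ∃ z, f z ≠ 0) {a b : Fin m → ℂ} (ha : ∀ z, lin c (y z) = f z * lin a (v z))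
    (hb : ∀ z, lin d (y z) = f z * lin b (v z)) {G : ℂ → ℂ} {w : ℂ → Fin 2 → ℂ} (hR : Red (pr c d y) G w) :
    ∃ C : ℝ, 0 ≤ C ∧ ∀ r : ℝ, 1 ≤ r → chi w r ≤ chi v r + C := by
  have hfac : ∀ z, pr c d y z = f z • (![lin a (v z), lin b (v z)] : Fin 2 → ℂ) := by
    intro z
    funext l
    fin_cases l
    · exact ha z
    · exact hb z
  have hh' : ∀ l : Fin 2, Differentiable ℂ fun z => (![lin a (v z), lin b (v z)] : Fin 2 → ℂ) l := by
    intro l
    fin_cases l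
    · exact NS2_lin_diff a hv.diff
    · exact NS2_lin_diff b hv.diff
  obtain ⟨q, hq, hq0, hGq⟩ := red_dvd hR hf hf0
    (h' := fun z => (![lin a (v z), lin b (v z)] : Fin 2 → ℂ)) hh' hfac
  obtain ⟨C, hC0, hC⟩ := avg_ge hq hq0
  have hsa : 0 ≤ ∑ j, ‖a j‖ := Finset.sum_nonneg fun j _ => norm_nonneg _
  have hsb : 0 ≤ ∑ j, ‖b j‖ := Finset.sum_nonneg fun j _ => norm_nonneg _
  set A : ℝ := 1 + ∑ j, ‖a j‖ + ∑ j, ‖b j‖ with hA
  have hA1 : 1 ≤ A := by linarith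
  have hnorm : ∀ z, ‖pr c d y z‖ ≤ ‖f z‖ * (A * ‖v z‖) := by
    intro z
    rw [hfac z, norm_smul]
    refine mul_le_mul_of_nonneg_left ?_ (norm_nonneg _)
    refine (pi_norm_le_iff_of_nonneg (mul_nonneg (by linarith) (norm_nonneg _))).mpr ?_
    intro l
    fin_cases l
    · exact (NS2_lin_le a (v z)).trans (mul_le_mul_of_nonneg_right (by linarith) (norm_nonneg _))
    · exact (NS2_lin_le b (v z)).trans (mul_le_mul_of_nonneg_right (by linarith) (norm_nonneg _))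
  refine ⟨log A + C, add_nonneg (log_nonneg hA1) hC0, fun r hr => ?_⟩
  have hr0 : r ≠ 0 := by linarith
  have h1 := NS2_mono hr0 (avg_red hR hr)
    (NS2_add (f := fun z => log ‖f z‖) (g := fun z => log A + log ‖v z‖) ⟨NS2_int_log hf r, rfl⟩
      (NS2_add (NS2_const r (log A)) (g := fun z => log ‖v z‖) (b := chi v r)
        ⟨NS2_int_log_y hv r, rfl⟩)) hR.diff hR.ne (fun z hz => by
      have hfz : f z ≠ 0 := fun h0 => hz (by rw [hGq z, h0, zero_mul])
      have hpz : pr c d y z ≠ 0 := by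
        rw [hR.eq z]
        exact smul_ne_zero hz (hR.hol.ne_zero z)
      have e1 : log ‖pr c d y z‖ ≤ log (‖f z‖ * (A * ‖v z‖)) :=
        log_le_log (norm_pos_iff.mpr hpz) (hnorm z)
      rw [log_mul (norm_ne_zero_iff.mpr hfz)
        (mul_ne_zero (by linarith) (norm_ne_zero_iff.mpr (hv.ne_zero z))),
        log_mul (by linarith) (norm_ne_zero_iff.mpr (hv.ne_zero z))] at e1
      exact e1)
  have h2 := avg_mul hf hf0 hq hq0 hr
  have h3 : circleAverage (fun z => log ‖G z‖) 0 r = circleAverage (fun z => log ‖f z * q z‖) 0 r := by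
    have : (fun z => log ‖G z‖) = fun z => log ‖f z * q z‖ := by
      funext z
      rw [hGq z]
    rw [this]
  have h4 := hC r hr
  linarith

end Pool.Agent.H53N
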