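import Pool.Agent.Lib.H53N.A4
import Pool.Agent.Lib.H53N.A0

set_option autoImplicit false

/-!
H53N, CHUNK A5: the second main theorem along one curve of hyperplanes, with loss.
-/

open MvPolynomial Module Real MeasureTheory
open Pool.Agent.H89.Sect Pool.Agent.H89.Arr

namespace Pool.Agent.H53N

open Pool.Agent.H67T Pool.Agent.H53S Pool.Agent.H53K

attribute [local instance] MvPolynomial.gradedAlgebra

private theorem A5_lins {m : ℕ} (c : Fin m → ℂ) (t : ℂ) (v : Fin m → ℂ) : lin c (t • v) = t * lin c v := by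
  simp only [Pool.Agent.H67T.lin, Pi.smul_apply, smul_eq_mul, Finset.mul_sum]
  exact Finset.sum_congr rfl fun j _ => by ring

private theorem A5_posLog {x w δ K : ℝ} (hδ : 0 ≤ δ) (hK : 0 ≤ K) (h1 : -K ≤ x) (h2 : x ≤ w + δ) :
    log⁺ x ≤ log⁺ w + (δ + K) := by
  have h3 : |x| ≤ |w| + (δ + K) := by
    rw [abs_le]
    have h4 := le_abs_self w
    have h5 := abs_nonneg w
    constructor <;> linarith
  have h4 : log⁺ |x| ≤ log⁺ (|w| + (δ + K)) := posLog_le_posLog (abs_nonneg x) h3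
  have h5 := NL1_posLog (x := |w|) (δ := δ + K) (abs_nonneg w) (by linarith)
  rw [posLog_abs] at h4 h5
  linarith

/-- The characteristic of the reduced curve is not larger, up to a constant. -/
private theorem A5_chi {n m : ℕ} {cc : Fin m → Fin (n + 1) → ℂ} {y : ℂ → Fin (n + 1) → ℂ} (hy : IsHol y)
    {g : ℂ → ℂ} {v : ℂ → Fin m → ℂ} (hR : Red (fun z l => lin (cc l) (y z)) g v) :
    ∃ C : ℝ, 0 ≤ C ∧ ∀ r : ℝ, 1 ≤ r → chi v r ≤ chi y r + C := by
  obtain ⟨C, hC0, hC⟩ := avg_ge hR.diff hR.ne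
  have hA1 : (1 : ℝ) ≤ 1 + ∑ l, ∑ j, ‖cc l j‖ := by
    have : 0 ≤ ∑ l, ∑ j, ‖cc l j‖ :=
      Finset.sum_nonneg fun i _ => Finset.sum_nonneg fun j _ => norm_nonneg _
    linarith
  obtain ⟨A, hA⟩ : ∃ A : ℝ, A = 1 + ∑ l, ∑ j, ‖cc l j‖ := ⟨_, rfl⟩
  rw [← hA] at hA1
  refine ⟨log A + C, add_nonneg (log_nonneg hA1) hC0, fun r hr => ?_⟩
  have h1 := avg_red hR hr
  have h2 := NS2_add (NS2_const r (log A)) (⟨NS2_int_log_y hy r, rfl⟩ : NS2_Avg r (fun z => log ‖y z‖) (chi y r))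
  have h3 := NS2_mono (by linarith : r ≠ 0) h1 h2 hR.diff hR.ne (by
    intro z hz
    have h4 : (fun l => lin (cc l) (y z)) ≠ 0 := by
      rw [hR.eq z]
      exact smul_ne_zero hz (hR.hol.ne_zero z)
    have h5 := C0_norm cc (y z)
    rw [← hA] at h5
    rw [← Real.log_mul (by linarith) (norm_ne_zero_iff.2 (hy.ne_zero z))]
    exact Real.log_le_log (norm_pos_iff.2 h4) h5)
  have h4 := hC r hr
  linarith

/-- CHUNK A5 (M).  PROOF.  `h z l = lin (cc l) (y z)`, `h z₁ ≠ 0` (`h2`, or `h3` if `m = 0`: see the proof of `two_hyper`, Lib/H53K/D1, for this and the next lines).  `exists_reduced` (Lib/H53K/W2): `h z = g₀ z • w₀ z`; with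
`c = g₀ z₁ ≠ 0`, `v = c • w₀`, `g = g₀ / c`: `h z = g z • v z`, `v z₁ = h z₁`, so `eval (v z₁) Pb = eval (y z₁) (aeval ..) ≠ 0` and `HasQ pb q v` (`hC.hasQ`).  `lin (p i) (y z) = lin (pb i) (h z) = g z * lin (pb i) (v z)`.
`curve_smt` (Lib/H67T/NS2): `(k - 2 q) chi v r ≤ ∑ N1 (lin (pb i) v) + C err v r R`; `N1 (lin (pb i) v) ≤ N1 (lin (p i) y)` (`N1_le`).  `chi v r ≤ chi y r + C`: `avg log ‖h‖ = avg log ‖g‖ + chi v` (`avg_red`),
`‖h z‖ ≤ A ‖y z‖` (`C0_norm`), `avg_ge` for `g` (and `NS2_mono`); hence `err v r R ≤ C * err y r R` (`posLog` of `x + C` is `≤ posLog x + C` for `C ≥ 0`, `1 ≤ err`).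
Loss: for each `i` choose `j i ≠ i` (`2 ≤ k`); `pair_le` (`c = p i`, `d = p (j i)`, `f = g`, `a = pb i`, `b = pb (j i)`) and `hL` give `chi y r - chi v r ≤ D i (j i) r + C`; the sum over `i` is
`k (chi y r - chi v r) ≤ ∑ i, ∑ j ∈ univ.erase i, D i j r + k C`.  Finally `(k - 2 q) chi y = (k - 2 q) chi v + k (chi y - chi v) - 2 q (chi y - chi v)` and `chi y - chi v ≥ - C`. -/
theorem curve_loss {n k q m : ℕ} {p : Fin k → Fin (n + 1) → ℂ} {I : Ideal (MvPolynomial (Fin (n + 1)) ℂ)}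
    {cc : Fin m → Fin (n + 1) → ℂ} {pb : Fin k → Fin m → ℂ} {Pb : MvPolynomial (Fin m) ℂ} (hC : CurveOut q p I cc pb Pb)
    (hk : 2 ≤ k) (hqk : 2 * q ≤ k) {y : ℂ → Fin (n + 1) → ℂ} (hy : IsHol y) {z₁ : ℂ}
    (h1 : eval (y z₁) (aeval (fun l => lf (cc l)) Pb) ≠ 0) (h2 : ∀ l, lin (cc l) (y z₁) ≠ 0)
    (h3 : ∀ i, lin (p i) (y z₁) ≠ 0) {D : Fin k → Fin k → ℝ → ℝ} (hL : Loss p y D) :
    ∃ C : ℝ, 0 ≤ C ∧ ∀ r R : ℝ, 1 ≤ r → r < R →
      ((k : ℝ) - 2 * q) * chi y r ≤ ∑ i, N1 (fun z => lin (p i) (y z)) r +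
        ∑ i, ∑ j ∈ Finset.univ.erase i, D i j r + C * err y r R := by
  classical
  obtain ⟨h, hh⟩ : ∃ h : ℂ → Fin m → ℂ, h = fun z l => lin (cc l) (y z) := ⟨_, rfl⟩
  have hlin : ∀ l z, lin (pb l) (h z) = lin (p l) (y z) := by
    intro l z
    have h1 := hC.eq l
    rw [h1, ← C0_lin_lin, hh]
  have hA : eval (h z₁) Pb ≠ 0 := by
    have h2 : eval (y z₁) (aeval (fun l => lf (cc l)) Pb) = eval (h z₁) Pb := by
      rw [hh, MvPolynomial.aeval_def, MvPolynomial.hom_eval₂]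
      unfold MvPolynomial.eval
      simp only [coe_eval₂Hom]
      have h3 : ((eval₂Hom (RingHom.id ℂ) (y z₁)).comp (algebraMap ℂ (MvPolynomial (Fin (n + 1)) ℂ))) =
          RingHom.id ℂ := by
        ext z
        simp
      have h4 : (fun l => eval₂Hom (RingHom.id ℂ) (y z₁) (lf (cc l))) = fun l => lin (cc l) (y z₁) := by
        funext l
        exact c1_eval_lf _ _
      rw [h3, ← h4]
      rfl
    rw [h2] at h1
    exact h1
  have hhd : ∀ l, Differentiable ℂ fun z => h z l := by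
    intro l
    have h1 : (fun z => h z l) = fun z => eval (y z) (lf (cc l)) := by
      funext z
      rw [c1_eval_lf, hh]
    rw [h1]
    exact differentiable_eval hy.diff _
  have hk0 : 0 < k := by omega
  have hh0 : h z₁ ≠ 0 := by
    intro h0
    apply h3 ⟨0, hk0⟩
    rw [← hlin, h0]
    simp [Pool.Agent.H67T.lin]
  obtain ⟨g₀, w₀, hg₀, hg₀0, hw₀, hgw⟩ := exists_reduced hhd ⟨z₁, hh0⟩
  have hc : g₀ z₁ ≠ 0 := by
    intro h0
    apply hh0
    rw [hgw, h0, zero_smul]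
  obtain ⟨g, hgdef⟩ : ∃ g : ℂ → ℂ, g = fun z => g₀ z / g₀ z₁ := ⟨_, rfl⟩
  obtain ⟨v, hvdef⟩ : ∃ v : ℂ → Fin m → ℂ, v = fun z => g₀ z₁ • w₀ z := ⟨_, rfl⟩
  have hg : Differentiable ℂ g := by
    rw [hgdef]
    exact hg₀.div_const _
  have hg0 : ∃ z, g z ≠ 0 := ⟨z₁, by rw [hgdef]; exact div_ne_zero hc hc⟩
  have hv : IsHol v := by
    rw [hvdef]
    exact ⟨fun j => (hw₀.diff j).const_mul (g₀ z₁), fun z => smul_ne_zero hc (hw₀.ne_zero z)⟩
  have hgv : ∀ z, h z = g z • v z := by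
    intro z
    rw [hgdef, hvdef, hgw z]
    simp only [smul_smul]
    rw [div_mul_cancel₀ _ hc]
  have hvz : v z₁ = h z₁ := by
    rw [hvdef, hgw z₁]
  have hQ : HasQ pb q v := hC.hasQ v hv ⟨z₁, by rw [hvz]; exact hA⟩
  have hlg : ∀ l z, lin (p l) (y z) = g z * lin (pb l) (v z) := by
    intro l z
    rw [← hlin, hgv, A5_lins]
  have hR : Red (fun z l => lin (cc l) (y z)) g v := ⟨hg, hg0, hv, fun z => by rw [← hgv z, hh]⟩
  have hpb : ∀ i, ∃ z, lin (pb i) (v z) ≠ 0 := fun i => ⟨z₁, by rw [hvz, hlin]; exact h3 i⟩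
  obtain ⟨C1, hC1, hsmt⟩ := curve_smt hv hpb
    (fun j => ⟨z₁, by rw [hvz, hh]; exact h2 j⟩) hQ
  obtain ⟨C2, hC2, hchi⟩ := A5_chi hy hR
  -- the losses
  have hnt : Nontrivial (Fin k) := Fin.nontrivial_iff_two_le.2 hk
  choose J hJ using fun i : Fin k => exists_ne i
  have hloss : ∀ i : Fin k, ∃ C : ℝ, 0 ≤ C ∧ ∀ r : ℝ, 1 ≤ r → chi y r - chi v r ≤ D i (J i) r + C := by
    intro i
    obtain ⟨G, w, hG, hw⟩ := hL.2 i (J i) (hJ i).symm
    obtain ⟨C, hC0, hCr⟩ := pair_le hv hg hg0 (hlg i) (hlg (J i)) hG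
    refine ⟨C, hC0, fun r hr => ?_⟩
    have e1 := hw r hr
    have e2 := hCr r hr
    linarith
  choose C3 hC3 hC3' using hloss
  have hchi1 : ∀ r : ℝ, 1 ≤ r → -|chi v 1| ≤ chi v r := fun r hr =>
    (neg_abs_le _).trans (chi_mono hv one_pos hr)
  refine ⟨C1 * (1 + (C2 + |chi v 1|)) + ∑ i, C3 i + 2 * q * C2, ?_, fun r R hr hrR => ?_⟩
  · have e1 : 0 ≤ ∑ i, C3 i := Finset.sum_nonneg fun i _ => hC3 i
    have e2 := abs_nonneg (chi v 1)
    positivity
  have hN : ∑ i, N1 (fun z => lin (pb i) (v z)) r ≤ ∑ i, N1 (fun z => lin (p i) (y z)) r := by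
    refine Finset.sum_le_sum fun i _ => ?_
    refine N1_le (NS2_lin_diff (p i) hy.diff) ⟨z₁, h3 i⟩ (fun z hz => ?_) hr
    show lin (p i) (y z) = 0
    rw [hlg, show lin (pb i) (v z) = 0 from hz, mul_zero]
  have herr1 := NS2_err_ge y r R
  have herr : err v r R ≤ (1 + (C2 + |chi v 1|)) * err y r R := by
    have e1 : log⁺ (chi v R) ≤ log⁺ (chi y R) + (C2 + |chi v 1|) :=
      A5_posLog hC2 (abs_nonneg _) (hchi1 R (by linarith)) (hchi R (by linarith))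
    have e2 : err v r R ≤ err y r R + (C2 + |chi v 1|) := by
      unfold err
      linarith
    have e3 : (C2 + |chi v 1|) ≤ (C2 + |chi v 1|) * err y r R :=
      le_mul_of_one_le_right (add_nonneg hC2 (abs_nonneg _)) herr1
    rw [add_mul, one_mul]
    linarith
  have hD : (k : ℝ) * (chi y r - chi v r) ≤ ∑ i, ∑ j ∈ Finset.univ.erase i, D i j r + ∑ i, C3 i := by
    rw [← Finset.sum_add_distrib]
    have e1 : (k : ℝ) * (chi y r - chi v r) = ∑ i : Fin k, (chi y r - chi v r) := by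
      rw [Finset.sum_const, Finset.card_univ, Fintype.card_fin, nsmul_eq_mul]
    rw [e1]
    refine Finset.sum_le_sum fun i _ => ?_
    refine (hC3' i r hr).trans ?_
    have e2 : D i (J i) r ≤ ∑ j ∈ Finset.univ.erase i, D i j r :=
      Finset.single_le_sum (f := fun j => D i j r) (fun j _ => hL.1 i j r hr)
        (Finset.mem_erase.2 ⟨hJ i, Finset.mem_univ _⟩)
    linarith
  have hs := hsmt r R hr hrR
  have hch := hchi r hr
  have hq0 : (0 : ℝ) ≤ q := Nat.cast_nonneg q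
  have e4 : 2 * (q : ℝ) * (chi v r - chi y r) ≤ 2 * q * C2 :=
    mul_le_mul_of_nonneg_left (by linarith) (by linarith)
  have e5 : C1 * err v r R ≤ C1 * ((1 + (C2 + |chi v 1|)) * err y r R) :=
    mul_le_mul_of_nonneg_left herr hC1
  have hS0 : 0 ≤ ∑ i, C3 i := Finset.sum_nonneg fun i _ => hC3 i
  have e6 : ∑ i, C3 i + 2 * q * C2 ≤ (∑ i, C3 i + 2 * q * C2) * err y r R :=
    le_mul_of_one_le_right (add_nonneg hS0 (by positivity)) herr1
  have e7 : ((k : ℝ) - 2 * q) * chi y r = ((k : ℝ) - 2 * q) * chi v r + k * (chi y r - chi v r) +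
      2 * q * (chi v r - chi y r) := by ring
  have e8 : (C1 * (1 + (C2 + |chi v 1|)) + ∑ i, C3 i + 2 * q * C2) * err y r R =
      C1 * ((1 + (C2 + |chi v 1|)) * err y r R) + (∑ i, C3 i + 2 * q * C2) * err y r R := by ring
  rw [e7, e8]
  linarith

end Pool.Agent.H53N
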