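import Pool.Agent.Lib.H53N.A4

set_option autoImplicit false

/-!
H53N, CHUNK A6: position: the sum of the losses.
-/

open MvPolynomial Module Real MeasureTheory
open Pool.Agent.H89.Sect Pool.Agent.H89.Arr

namespace Pool.Agent.H53N

open Pool.Agent.H67T Pool.Agent.H53S Pool.Agent.H53K

attribute [local instance] MvPolynomial.gradedAlgebra

private theorem A6_pr_left {n : ℕ} (a b : Fin n → ℂ) (y : ℂ → Fin n → ℂ) (z : ℂ) :
    ‖lin a (y z)‖ ≤ ‖pr a b y z‖ := norm_le_pi_norm (pr a b y z) 0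

private theorem A6_pr_right {n : ℕ} (a b : Fin n → ℂ) (y : ℂ → Fin n → ℂ) (z : ℂ) :
    ‖lin b (y z)‖ ≤ ‖pr a b y z‖ := norm_le_pi_norm (pr a b y z) 1

/-- At most `N` of the linear forms are small at a point of the curve. -/
private theorem A6_card {n N : ℕ} {ι : Type} [Fintype ι] {p : ι → Fin n → ℂ} {y : ℂ → Fin n → ℂ} (hy : IsHol y)
    (hpos : CurvePos N p y) : ∃ c : ℝ, 0 < c ∧ c < 1 ∧ ∀ (z : ℂ) (s : Finset ι),
      (∀ j ∈ s, ‖lin (p j) (y z)‖ < c * ‖y z‖) → s.card ≤ N := by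
  obtain ⟨c, hc, h⟩ := hpos
  have hN1 : (0 : ℝ) < N + 1 := by positivity
  refine ⟨min 1 (c / (N + 1)) / 2, by positivity, ?_, fun z s hs => ?_⟩
  · have := min_le_left (1 : ℝ) (c / (N + 1))
    linarith
  by_contra hcon
  push Not at hcon
  obtain ⟨t, hts, htc⟩ := Finset.exists_subset_card_eq (show N + 1 ≤ s.card by omega)
  have hyz : 0 < ‖y z‖ := norm_pos_iff.2 (hy.ne_zero z)
  let e := (Finset.equivFinOfCardEq htc).symm
  have h1 := h (fun a => (e a : ι)) (fun a b hab => e.injective (Subtype.ext hab)) z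
  have h2 : ∑ a, ‖lin (p ((e a : t) : ι)) (y z)‖ ≤ ∑ a : Fin (N + 1), (c / (N + 1) / 2) * ‖y z‖ := by
    refine Finset.sum_le_sum fun a _ => ?_
    refine (hs _ (hts (e a).2)).le.trans ?_
    have h3 := min_le_right (1 : ℝ) (c / (N + 1))
    exact mul_le_mul_of_nonneg_right (by linarith) hyz.le
  rw [Finset.sum_const, Finset.card_univ, Fintype.card_fin, nsmul_eq_mul] at h2
  have h4 : ((N + 1 : ℕ) : ℝ) * (c / (N + 1) / 2 * ‖y z‖) = c / 2 * ‖y z‖ := by
    push_cast
    field_simp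
  rw [h4] at h2
  have h5 := h1.trans h2
  nlinarith [mul_pos hc hyz]

/-- The pointwise inequality. -/
private theorem A6_point {n N : ℕ} (hN : 1 ≤ N) {ι : Type} [Fintype ι] [DecidableEq ι] {p : ι → Fin n → ℂ}
    {y : ℂ → Fin n → ℂ} (hy : IsHol y) (hpos : CurvePos N p y) (i : ι) :
    ∃ C : ℝ, 0 ≤ C ∧ ∀ z, lin (p i) (y z) ≠ 0 →
      ∑ j ∈ Finset.univ.erase i, (log ‖y z‖ - log ‖pr (p i) (p j) y z‖) ≤
        ((N : ℝ) - 1) * (log ‖y z‖ - log ‖lin (p i) (y z)‖) + C := by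
  classical
  obtain ⟨c, hc, hc1, hcard⟩ := A6_card hy hpos
  obtain ⟨B, hB⟩ : ∃ B : ℝ, B = 1 + ∑ j, ‖p i j‖ := ⟨_, rfl⟩
  have hB1 : 1 ≤ B := by
    rw [hB]
    have : 0 ≤ ∑ j, ‖p i j‖ := Finset.sum_nonneg fun j _ => norm_nonneg _
    linarith
  have ha : 0 ≤ - log c := by
    have := Real.log_nonpos hc.le hc1.le
    linarith
  have hb : 0 ≤ log B := log_nonneg hB1
  have hN' : (1 : ℝ) ≤ N := by exact_mod_cast hN
  refine ⟨(Fintype.card ι : ℝ) * (- log c) + ((N : ℝ) - 1) * log B, ?_, fun z hz => ?_⟩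
  · have h1 : 0 ≤ (Fintype.card ι : ℝ) * (- log c) := mul_nonneg (Nat.cast_nonneg _) ha
    have h2 : 0 ≤ ((N : ℝ) - 1) * log B := mul_nonneg (by linarith) hb
    linarith
  have hyz : 0 < ‖y z‖ := norm_pos_iff.2 (hy.ne_zero z)
  have hli : 0 < ‖lin (p i) (y z)‖ := norm_pos_iff.2 hz
  have hPi : ∀ j, log ‖lin (p i) (y z)‖ ≤ log ‖pr (p i) (p j) y z‖ := fun j =>
    Real.log_le_log hli (A6_pr_left _ _ _ _)
  -- a form which is not small
  have hbig : ∀ j, ¬ ‖lin (p j) (y z)‖ < c * ‖y z‖ → log ‖y z‖ - log ‖pr (p i) (p j) y z‖ ≤ - log c := by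
    intro j hj
    push Not at hj
    have h1 := Real.log_le_log (mul_pos hc hyz) (hj.trans (A6_pr_right (p i) (p j) y z))
    rw [Real.log_mul hc.ne' hyz.ne'] at h1
    linarith
  have hcard1 : ((Finset.univ.erase i).card : ℝ) ≤ Fintype.card ι := by
    have h1 : (Finset.univ.erase i).card ≤ (Finset.univ : Finset ι).card :=
      Finset.card_le_card (Finset.erase_subset _ _)
    rw [Finset.card_univ] at h1
    exact_mod_cast h1
  have hlow : -log B ≤ log ‖y z‖ - log ‖lin (p i) (y z)‖ := by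
    have h1 : ‖lin (p i) (y z)‖ ≤ B * ‖y z‖ := by
      refine (NS2_lin_le (p i) (y z)).trans (mul_le_mul_of_nonneg_right ?_ hyz.le)
      rw [hB]
      linarith
    have h2 := Real.log_le_log hli h1
    rw [Real.log_mul (by linarith) hyz.ne'] at h2
    linarith
  by_cases hi : ‖lin (p i) (y z)‖ < c * ‖y z‖
  · -- `i` is small
    have hX : 0 ≤ log ‖y z‖ - log ‖lin (p i) (y z)‖ := by
      have h1 := Real.log_le_log hli hi.le
      rw [Real.log_mul hc.ne' hyz.ne'] at h1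
      linarith
    have h1 : ∀ j ∈ Finset.univ.erase i, log ‖y z‖ - log ‖pr (p i) (p j) y z‖ ≤
        (if ‖lin (p j) (y z)‖ < c * ‖y z‖ then log ‖y z‖ - log ‖lin (p i) (y z)‖ else 0) + (- log c) := by
      intro j _
      split_ifs with hj
      · have := hPi j
        linarith
      · have := hbig j hj
        linarith
    refine (Finset.sum_le_sum h1).trans ?_
    rw [Finset.sum_add_distrib, Finset.sum_const, nsmul_eq_mul, ← Finset.sum_filter, Finset.sum_const,
      nsmul_eq_mul]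
    have h2 : (((Finset.univ.erase i).filter fun j => ‖lin (p j) (y z)‖ < c * ‖y z‖).card : ℝ) ≤ N - 1 := by
      have h3 : (insert i ((Finset.univ.erase i).filter fun j => ‖lin (p j) (y z)‖ < c * ‖y z‖)).card ≤ N := by
        refine hcard z _ fun j hj => ?_
        rcases Finset.mem_insert.1 hj with rfl | hj
        · exact hi
        · exact (Finset.mem_filter.1 hj).2
      rw [Finset.card_insert_of_notMem (fun h => (Finset.mem_erase.1 (Finset.mem_filter.1 h).1).1 rfl)] at h3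
      have h4 : (((Finset.univ.erase i).filter fun j => ‖lin (p j) (y z)‖ < c * ‖y z‖).card : ℝ) + 1 ≤ N := by
        exact_mod_cast h3
      linarith
    have h5 := mul_le_mul_of_nonneg_right h2 hX
    have h6 := mul_le_mul_of_nonneg_right hcard1 ha
    have h7 : 0 ≤ ((N : ℝ) - 1) * log B := mul_nonneg (by linarith) hb
    linarith
  · -- `i` is not small
    have h1 : ∀ j ∈ Finset.univ.erase i, log ‖y z‖ - log ‖pr (p i) (p j) y z‖ ≤ - log c := by
      intro j _
      push Not at hi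
      have h1 := Real.log_le_log (mul_pos hc hyz) (hi.trans (A6_pr_left (p i) (p j) y z))
      rw [Real.log_mul hc.ne' hyz.ne'] at h1
      linarith
    refine (Finset.sum_le_sum h1).trans ?_
    rw [Finset.sum_const, nsmul_eq_mul]
    have h6 := mul_le_mul_of_nonneg_right hcard1 ha
    have h7 := mul_le_mul_of_nonneg_left hlow (show (0 : ℝ) ≤ (N : ℝ) - 1 by linarith)
    linarith

private theorem A6_prod {ι : Type} (s : Finset ι) {g : ι → ℂ → ℂ} (hg : ∀ j ∈ s, Differentiable ℂ (g j)) (z : ℂ) :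
    analyticOrderAt (fun z => ∏ j ∈ s, g j z) z = ∑ j ∈ s, analyticOrderAt (g j) z := by
  classical
  induction s using Finset.induction_on with
  | empty =>
    simp only [Finset.prod_empty, Finset.sum_empty]
    rw [analyticOrderAt_eq_zero]
    right
    exact one_ne_zero
  | insert a s ha ih =>
    rw [Finset.sum_insert ha, ← ih fun j hj => hg j (Finset.mem_insert_of_mem hj)]
    have h1 : (fun z => ∏ j ∈ insert a s, g j z) = g a * fun z => ∏ j ∈ s, g j z := by
      funext z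
      rw [Finset.prod_insert ha, Pi.mul_apply]
    rw [h1]
    refine analyticOrderAt_mul ((hg a (Finset.mem_insert_self _ _)).analyticAt z) ?_
    exact (Differentiable.fun_finsetProd fun j hj => hg j (Finset.mem_insert_of_mem hj)).analyticAt z

/-- The averages of the divisors. -/
private theorem A6_div {n N : ℕ} (hN : 1 ≤ N) {ι : Type} [Fintype ι] [DecidableEq ι] {p : ι → Fin n → ℂ}
    {y : ℂ → Fin n → ℂ} (hy : IsHol y) (hp : ∀ i, ∃ z, lin (p i) (y z) ≠ 0) (hpos : CurvePos N p y)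
    {G : ι → ι → ℂ → ℂ} {w : ι → ι → ℂ → Fin 2 → ℂ} (hR : ∀ i j, i ≠ j → Red (pr (p i) (p j) y) (G i j) (w i j)) (i : ι) :
    ∃ C : ℝ, 0 ≤ C ∧ ∀ r : ℝ, 1 ≤ r →
      ∑ j ∈ Finset.univ.erase i, circleAverage (fun z => log ‖G i j z‖) 0 r ≤
        ((N : ℝ) - 1) * circleAverage (fun z => log ‖lin (p i) (y z)‖) 0 r + C := by
  classical
  obtain ⟨c, hc, hc1, hcard⟩ := A6_card hy hpos
  have hRi : ∀ j ∈ Finset.univ.erase i, Red (pr (p i) (p j) y) (G i j) (w i j) := fun j hj =>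
    hR i j (Finset.ne_of_mem_erase hj).symm
  have hf : Differentiable ℂ fun z => lin (p i) (y z) := NS2_lin_diff (p i) hy.diff
  have hGd : Differentiable ℂ fun z => ∏ j ∈ Finset.univ.erase i, G i j z :=
    Differentiable.fun_finsetProd fun j hj => (hRi j hj).diff
  obtain ⟨F, hF⟩ : ∃ F : ℂ → ℂ, F = fun z => lin (p i) (y z) := ⟨_, rfl⟩
  have hFd : Differentiable ℂ F := by rw [hF]; exact hf
  -- the common divisor does not vanish identically
  have hle : ∀ z, analyticOrderAt (fun z => ∏ j ∈ Finset.univ.erase i, G i j z) z ≤ analyticOrderAt (F ^ (N - 1)) z := by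
    intro z
    rw [A6_prod _ fun j hj => (hRi j hj).diff, analyticOrderAt_pow (hFd.analyticAt z)]
    by_cases hz : lin (p i) (y z) = 0
    · have h1 : ∀ j ∈ Finset.univ.erase i, analyticOrderAt (G i j) z ≤
          if lin (p j) (y z) = 0 then analyticOrderAt F z else 0 := by
        intro j hj
        split_ifs with h
        · rw [hF]
          exact (red_ord (hRi j hj) 0 z).1
        · have h2 : G i j z ≠ 0 := (red_ord (hRi j hj) 1 z).2 h
          rw [((hRi j hj).diff.analyticAt z).analyticOrderAt_eq_zero.2 h2]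
      refine (Finset.sum_le_sum h1).trans ?_
      rw [← Finset.sum_filter, Finset.sum_const]
      have hyz : 0 < ‖y z‖ := norm_pos_iff.2 (hy.ne_zero z)
      have h3 : (insert i ((Finset.univ.erase i).filter fun j => lin (p j) (y z) = 0)).card ≤ N := by
        refine hcard z _ fun j hj => ?_
        have h4 : lin (p j) (y z) = 0 := by
          rcases Finset.mem_insert.1 hj with rfl | hj
          · exact hz
          · exact (Finset.mem_filter.1 hj).2
        rw [h4, norm_zero]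
        positivity
      rw [Finset.card_insert_of_notMem (fun h => (Finset.mem_erase.1 (Finset.mem_filter.1 h).1).1 rfl)] at h3
      exact nsmul_le_nsmul_left zero_le (by omega)
    · have h1 : ∑ j ∈ Finset.univ.erase i, analyticOrderAt (G i j) z = 0 := by
        refine Finset.sum_eq_zero fun j hj => ?_
        have h2 : G i j z ≠ 0 := (red_ord (hRi j hj) 0 z).2 hz
        exact ((hRi j hj).diff.analyticAt z).analyticOrderAt_eq_zero.2 h2
      rw [h1]
      exact zero_le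
  -- a point where nothing vanishes
  have hne : ∀ {f : ℂ → ℂ}, Differentiable ℂ f → (∃ z, f z ≠ 0) →
      ∀ᶠ z in nhdsWithin (0 : ℂ) {0}ᶜ, f z ≠ 0 := by
    rintro f hf ⟨z₀, hz₀⟩
    have h1 := AnalyticOnNhd.preimage_zero_mem_codiscrete (fun z _ => hf.analyticAt z) hz₀
    have h2 := mem_codiscrete.mp h1 0
    rw [Filter.disjoint_principal_right, compl_compl] at h2
    exact h2
  have hG0 : ∃ z, (∏ j ∈ Finset.univ.erase i, G i j z) ≠ 0 := by
    have h1 : ∀ᶠ z in nhdsWithin (0 : ℂ) {0}ᶜ, ∀ j ∈ Finset.univ.erase i, G i j z ≠ 0 :=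
      (Filter.eventually_all_finset _).2 fun j hj => hne (hRi j hj).diff (hRi j hj).ne
    obtain ⟨z, hz⟩ := h1.exists
    exact ⟨z, Finset.prod_ne_zero_iff.2 hz⟩
  obtain ⟨q, hq, hqe⟩ := exists_div (hFd.pow (N - 1)) hGd hG0 hle
  obtain ⟨z₂, hz₂⟩ := hp i
  have hF2 : (F ^ (N - 1)) z₂ ≠ 0 := by
    rw [Pi.pow_apply, hF]
    exact pow_ne_zero _ hz₂
  have hq0 : ∃ z, q z ≠ 0 := by
    refine ⟨z₂, fun h0 => hF2 ?_⟩
    rw [hqe z₂, h0, mul_zero]
  obtain ⟨C, hC0, hC⟩ := avg_ge hq hq0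
  refine ⟨C, hC0, fun r hr => ?_⟩
  have hcast : ((N - 1 : ℕ) : ℝ) = (N : ℝ) - 1 := by
    rw [Nat.cast_sub hN, Nat.cast_one]
  have e1 := NS2_sum (r := r) (Finset.univ.erase i) (f := fun j z => log ‖G i j z‖)
    (a := fun j => circleAverage (fun z => log ‖G i j z‖) 0 r) (fun j hj => ⟨NS2_int_log (hRi j hj).diff r, rfl⟩)
  have e2 : NS2_Avg r (fun z => log ‖q z‖) (circleAverage (fun z => log ‖q z‖) 0 r) := ⟨NS2_int_log hq r, rfl⟩
  have e3 : NS2_Avg r (fun z => log ‖lin (p i) (y z)‖) (circleAverage (fun z => log ‖lin (p i) (y z)‖) 0 r) :=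
    ⟨NS2_int_log hf r, rfl⟩
  have e4 := NS2_mono (by linarith : r ≠ 0) (NS2_add e1 e2) (NS2_mul ((N : ℝ) - 1) e3) (hFd.pow (N - 1)) ⟨z₂, hF2⟩ (by
    intro z hz
    have h1 := hqe z
    have h2 := hz
    rw [h1] at h2
    have h3 := left_ne_zero_of_mul h2
    have h4 := right_ne_zero_of_mul h2
    have h5 : log ‖(F ^ (N - 1)) z‖ = ((N : ℝ) - 1) * log ‖lin (p i) (y z)‖ := by
      rw [Pi.pow_apply, norm_pow, Real.log_pow, hcast, hF]
    have h6 : log ‖(F ^ (N - 1)) z‖ = ∑ j ∈ Finset.univ.erase i, log ‖G i j z‖ + log ‖q z‖ := by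
      rw [h1, norm_mul, Real.log_mul (norm_ne_zero_iff.2 h3) (norm_ne_zero_iff.2 h4), norm_prod,
        Real.log_prod]
      intro j hj
      exact norm_ne_zero_iff.2 (Finset.prod_ne_zero_iff.1 h3 j hj)
    rw [← h5, h6])
  have e5 := hC r hr
  linarith

/-- CHUNK A6 (M/L).  PROOF.  Let `B ≥ 1` with `‖lin (p j) (y z)‖ ≤ B ‖y z‖` for all `j` (`NS2_lin_le`), `c > 0` from `hpos`, `c' = min 1 (c / (N + 1)) / 2`.  For every `z` at most `N` of the `j` have `‖lin (p j) (y z)‖ < c' ‖y z‖`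
(otherwise `N + 1` of them contradict `hpos`).  Let `k = card ι`, `A = log (1 / c') + log B ≥ 0`.
(1) Pointwise, where all `lin (p j) (y z) ≠ 0`: `∑ j ∈ univ.erase i, (log ‖y z‖ - log ‖pr (p i) (p j) y z‖) ≤ (N - 1) * (log ‖y z‖ - log ‖lin (p i) (y z)‖) + (k + N) * A` (`‖pr ..‖ = max`): if
`‖lin (p i) (y z)‖ ≥ c' ‖y z‖` every term is `≤ log (1 / c')`; otherwise `i` is one of the small ones, at most `N - 1` other `j` are small and for them the term is `≤ log ‖y z‖ - log ‖lin (p i) (y z)‖`, and for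
the other `j` it is `≤ log (1 / c')`.
(2) Divisors: `∏ j ∈ univ.erase i, G i j` divides `(lin (p i) y) ^ (N - 1)`: at `z` with `lin (p i) (y z) = 0` at most `N - 1` of the `j ≠ i` have `lin (p j) (y z) = 0` and only those have `G i j z = 0`
(`red_ord`), each with `ord G i j ≤ ord lin (p i) y`; so `(lin (p i) y) ^ (N - 1) = (∏ G i j) * q` (`exists_div`), and by `avg_mul` (products) and `avg_ge`:
`∑ j, avg log ‖G i j‖ ≤ (N - 1) avg log ‖lin (p i) y‖ + C`.
(3) `chi (w i j) r = avg log ‖pr (p i) (p j) y‖ - avg log ‖G i j‖` (`avg_red`), so `∑ j (chi y r - chi (w i j) r) = avg (∑ j (log ‖y‖ - log ‖pr ..‖)) + ∑ j avg log ‖G i j‖ ≤ (N - 1) chi y r + C` (`NS2_mono`, `NS2_sum`,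
`NS2_mul`; the terms `avg log ‖lin (p i) y‖` cancel). -/
theorem pair_sum {n N : ℕ} (hN : 1 ≤ N) {ι : Type} [Fintype ι] [DecidableEq ι] {p : ι → Fin n → ℂ}
    {y : ℂ → Fin n → ℂ} (hy : IsHol y) (hp : ∀ i, ∃ z, lin (p i) (y z) ≠ 0) (hpos : CurvePos N p y)
    {G : ι → ι → ℂ → ℂ} {w : ι → ι → ℂ → Fin 2 → ℂ} (hR : ∀ i j, i ≠ j → Red (pr (p i) (p j) y) (G i j) (w i j)) (i : ι) :
    ∃ C : ℝ, 0 ≤ C ∧ ∀ r : ℝ, 1 ≤ r →
      ∑ j ∈ Finset.univ.erase i, (chi y r - chi (w i j) r) ≤ ((N : ℝ) - 1) * chi y r + C := by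
  classical
  obtain ⟨C1, hC1, h1⟩ := A6_point hN hy hpos i
  obtain ⟨C2, hC2, h2⟩ := A6_div hN hy hp hpos hR i
  refine ⟨C1 + C2, add_nonneg hC1 hC2, fun r hr => ?_⟩
  have hf : Differentiable ℂ fun z => lin (p i) (y z) := NS2_lin_diff (p i) hy.diff
  have hy1 : NS2_Avg r (fun z => log ‖y z‖) (chi y r) := ⟨NS2_int_log_y hy r, rfl⟩
  have hf1 : NS2_Avg r (fun z => log ‖lin (p i) (y z)‖) (circleAverage (fun z => log ‖lin (p i) (y z)‖) 0 r) :=
    ⟨NS2_int_log hf r, rfl⟩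
  have hs := NS2_sum (r := r) (Finset.univ.erase i)
    (f := fun j z => log ‖y z‖ + (-1) * log ‖pr (p i) (p j) y z‖)
    (a := fun j => chi y r + (-1) * (circleAverage (fun z => log ‖G i j z‖) 0 r + chi (w i j) r))
    (fun j hj => NS2_add hy1 (NS2_mul (-1) (avg_red (hR i j (Finset.ne_of_mem_erase hj).symm) hr)))
  have hm := NS2_mono (by linarith : r ≠ 0) hs
    (NS2_add (NS2_mul ((N : ℝ) - 1) (NS2_add hy1 (NS2_mul (-1) hf1))) (NS2_const r C1)) hf (hp i) (by
      intro z hz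
      have h3 := h1 z hz
      have h4 : ∑ j ∈ Finset.univ.erase i, (log ‖y z‖ + (-1) * log ‖pr (p i) (p j) y z‖) =
          ∑ j ∈ Finset.univ.erase i, (log ‖y z‖ - log ‖pr (p i) (p j) y z‖) :=
        Finset.sum_congr rfl fun j _ => by ring
      rw [h4]
      linarith)
  have h5 : ∑ j ∈ Finset.univ.erase i, (chi y r +
      (-1) * (circleAverage (fun z => log ‖G i j z‖) 0 r + chi (w i j) r)) =
      ∑ j ∈ Finset.univ.erase i, (chi y r - chi (w i j) r) -
        ∑ j ∈ Finset.univ.erase i, circleAverage (fun z => log ‖G i j z‖) 0 r := by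
    rw [← Finset.sum_sub_distrib]
    exact Finset.sum_congr rfl fun j _ => by ring
  rw [h5] at hm
  have h6 := h2 r hr
  linarith

end Pool.Agent.H53N
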