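import Pool.Agent.Lib.H53N.A5
import Pool.Agent.Lib.H53S.S1

set_option autoImplicit false

/-!
H53N, CHUNK A7: covering the hyperplanes by curves, with loss.
-/

open MvPolynomial Module Real MeasureTheory
open Pool.Agent.H89.Sect Pool.Agent.H89.Arr

namespace Pool.Agent.H53N

open Pool.Agent.H67T Pool.Agent.H53S Pool.Agent.H53K

attribute [local instance] MvPolynomial.gradedAlgebra

private theorem A7_sums {ι : Type} [DecidableEq ι] {k : ℕ} (κ : Fin k → ι) (hκ : Function.Injective κ)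
    (U : Finset ι) (hVU : Finset.univ.image κ ⊆ U) (D : ι → ι → ℝ) (hD : ∀ i j, 0 ≤ D i j) :
    ∑ a, ∑ b ∈ Finset.univ.erase a, D (κ a) (κ b) +
      ∑ i ∈ U \ Finset.univ.image κ, ∑ j ∈ (U \ Finset.univ.image κ).erase i, D i j ≤
      ∑ i ∈ U, ∑ j ∈ U.erase i, D i j := by
  have h1 : ∑ a, ∑ b ∈ Finset.univ.erase a, D (κ a) (κ b) =
      ∑ i ∈ Finset.univ.image κ, ∑ j ∈ (Finset.univ.image κ).erase i, D i j := by
    rw [Finset.sum_image fun a _ b _ h => hκ h]
    refine Finset.sum_congr rfl fun a _ => ?_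
    rw [← Finset.image_erase hκ, Finset.sum_image fun a _ b _ h => hκ h]
  rw [h1, ← Finset.sum_sdiff hVU, add_comm]
  refine add_le_add (Finset.sum_le_sum fun i _ => ?_) (Finset.sum_le_sum fun i _ => ?_)
  · exact Finset.sum_le_sum_of_subset_of_nonneg (Finset.erase_subset_erase i Finset.sdiff_subset)
      fun j _ _ => hD i j
  · exact Finset.sum_le_sum_of_subset_of_nonneg (Finset.erase_subset_erase i hVU)
      fun j _ _ => hD i j

/-- CHUNK A7 (M, copy).  Copy of `cover_smtR` (Lib/H53S/S1.lean) with `exists_curveK n R₀ hn` (Lib/H53K/C2; `R₀ ≥ 2`) instead of `exists_curve_hasQR`, and `curve_loss` instead of `curve_smt`.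
`P = P₁ * P₂`, `P₁ = aeval (fun l => lf (cc l)) Pb * (∏ l, lf (cc l)) * ∏ l, lf (p (κ l))` (not in `I`: see `two_hyper`, Lib/H53K/D1).  In the induction step with `V = univ.image κ`: `curve_loss` for
`fun l => p (κ l)` and `fun a b => D (κ a) (κ b)` (`Loss` restricts along the injective `κ`);
`∑ a, ∑ b ∈ univ.erase a, D (κ a) (κ b) r = ∑ i ∈ V, ∑ j ∈ V.erase i, D i j r`, and this plus the same sum for `U \ V` is `≤ ∑ i ∈ U, ∑ j ∈ U.erase i, D i j r` since `D ≥ 0`. -/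
theorem cover_loss (n R₀ : ℕ) (hn : 1 ≤ n) (hR₀ : 2 ≤ R₀) : ∃ K₁ : ℕ, ∀ (ι : Type) [Fintype ι] [DecidableEq ι]
    (p : ι → Fin (n + 1) → ℂ) (I : Ideal (MvPolynomial (Fin (n + 1)) ℂ)), DataR p I →
    ∀ U : Finset ι, ∃ P : MvPolynomial (Fin (n + 1)) ℂ, P ∉ I ∧
      ∀ y : ℂ → Fin (n + 1) → ℂ, IsHol y → (∃ z, eval (y z) P ≠ 0) →
        ∀ D : ι → ι → ℝ → ℝ, Loss p y D →
        ∃ C : ℝ, 0 ≤ C ∧ ∀ r R : ℝ, 1 ≤ r → r < R →
          (1 - 2 / (R₀ : ℝ)) * ((U.card : ℝ) - K₁) * chi y r ≤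
            ∑ i ∈ U, N1 (fun z => lin (p i) (y z)) r + ∑ i ∈ U, ∑ j ∈ U.erase i, D i j r +
              C * err y r R := by
  obtain ⟨K₀, hK₀⟩ := exists_curveK n R₀ hn
  refine ⟨max K₀ 2, fun ι _ _ p I hD U => ?_⟩
  have hR₀' : (2 : ℝ) ≤ R₀ := by exact_mod_cast hR₀
  have hR₀pos : (0 : ℝ) < R₀ := by linarith
  set θ : ℝ := 1 - 2 / (R₀ : ℝ) with hθ
  have hθ0 : 0 ≤ θ := by
    rw [hθ, sub_nonneg, div_le_one hR₀pos]
    exact hR₀'
  set K : ℕ := max K₀ 2 with hK
  have hprime := hD.prime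
  induction U using Finset.strongInduction with
  | H U ih =>
  by_cases hU : U.card < K
  · refine ⟨1, fun h1 => hprime.ne_top ((Ideal.eq_top_iff_one I).mpr h1), fun y hy _ D hL => ?_⟩
    have hUr : (U.card : ℝ) ≤ K := by exact_mod_cast hU.le
    refine ⟨θ * ((K : ℝ) - U.card) * |chi y 1|,
      mul_nonneg (mul_nonneg hθ0 (by linarith)) (abs_nonneg _), fun r R hr hrR => ?_⟩
    have hchi : -|chi y 1| ≤ chi y r := (neg_abs_le _).trans (chi_mono hy one_pos hr)
    have h1 : 0 ≤ ∑ i ∈ U, N1 (fun z => lin (p i) (y z)) r :=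
      Finset.sum_nonneg fun i _ => N1_nonneg _ hr
    have h1' : 0 ≤ ∑ i ∈ U, ∑ j ∈ U.erase i, D i j r :=
      Finset.sum_nonneg fun i _ => Finset.sum_nonneg fun j _ => hL.1 i j r hr
    have h2 : 0 ≤ θ * ((K : ℝ) - U.card) * (chi y r + |chi y 1|) :=
      mul_nonneg (mul_nonneg hθ0 (by linarith)) (by linarith)
    have h3 : θ * ((K : ℝ) - U.card) * |chi y 1| ≤
        θ * ((K : ℝ) - U.card) * |chi y 1| * err y r R :=
      le_mul_of_one_le_right (mul_nonneg (mul_nonneg hθ0 (by linarith)) (abs_nonneg _))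
        (NS2_err_ge y r R)
    nlinarith [h1, h1', h2, h3]
  · push Not at hU
    have hU1 : K₀ ≤ U.card := (le_max_left _ _).trans hU
    obtain ⟨k, d, κ, hκ, hκU, hd, hdk, hk2, m, cc, pb, Pb, hC⟩ := hK₀ ι p I hD U hU1
    have hp0 : ∀ l, p (κ l) ≠ 0 := by
      intro l h0
      obtain ⟨l', hl'⟩ : ∃ l', l' ≠ l := by
        have : Nontrivial (Fin k) := Fin.nontrivial_iff_two_le.2 hk2
        exact exists_ne l
      exact hD.distinct (κ l) (κ l') (fun h => hl' (hκ h).symm) 0 (by rw [h0, zero_smul])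
    have h2dk : 2 * d ≤ k := (Nat.mul_le_mul_right d hR₀).trans hdk
    obtain ⟨V, hV⟩ : ∃ V : Finset ι, V = Finset.univ.image κ := ⟨_, rfl⟩
    have hVU : V ⊆ U := by
      intro i hi
      rw [hV] at hi
      obtain ⟨l, -, rfl⟩ := Finset.mem_image.mp hi
      exact hκU l
    have hVcard : V.card = k := by
      rw [hV, Finset.card_image_of_injective _ hκ, Finset.card_univ, Fintype.card_fin]
    have hss : U \ V ⊂ U := by
      refine Finset.sdiff_ssubset hVU ?_
      rw [← Finset.card_pos, hVcard]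
      omega
    obtain ⟨P₂, hP₂, hmain₂⟩ := ih (U \ V) hss
    refine ⟨aeval (fun l => lf (cc l)) Pb * (∏ l, lf (cc l)) * (∏ l, lf (p (κ l))) * P₂, ?_, ?_⟩
    · intro hmem
      rcases hprime.mem_or_mem hmem with h1 | h1
      · rcases hprime.mem_or_mem h1 with h1 | h1
        · rcases hprime.mem_or_mem h1 with h2 | h2
          · exact hC.not_mem h2
          · obtain ⟨l, -, hl⟩ := (Ideal.IsPrime.prod_mem_iff (p := I)).1 h2
            exact hD.nondegenerate _ (hC.ne l) hl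
        · obtain ⟨l, -, hl⟩ := (Ideal.IsPrime.prod_mem_iff (p := I)).1 h1
          exact hD.nondegenerate _ (hp0 l) hl
      · exact hP₂ h1
    · rintro y hy ⟨z, hz⟩ D hL
      simp only [map_mul, map_prod, eval_lf, mul_ne_zero_iff, Finset.prod_ne_zero_iff,
        Finset.mem_univ, true_implies] at hz
      obtain ⟨⟨⟨hz1, hz2⟩, hz3⟩, hz4⟩ := hz
      have hL' : Loss (fun l => p (κ l)) y fun a b => D (κ a) (κ b) :=
        ⟨fun a b r hr => hL.1 _ _ r hr, fun a b hab => hL.2 (κ a) (κ b) fun h => hab (hκ h)⟩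
      obtain ⟨C₁, hC₁, hC₁'⟩ := curve_loss hC hk2 h2dk hy hz1 hz2 hz3 hL'
      obtain ⟨C₂, hC₂, hC₂'⟩ := hmain₂ y hy ⟨z, hz4⟩ D hL
      set δ : ℝ := 2 / (R₀ : ℝ) * k - 2 * d with hδ
      have hδ0 : 0 ≤ δ := by
        have h1 : (R₀ : ℝ) * d ≤ k := by exact_mod_cast hdk
        have h2 : 2 / (R₀ : ℝ) * ((R₀ : ℝ) * d) ≤ 2 / (R₀ : ℝ) * k :=
          mul_le_mul_of_nonneg_left h1 (by positivity)
        have h3 : 2 / (R₀ : ℝ) * ((R₀ : ℝ) * d) = 2 * d := by
          field_simp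
        rw [hδ]
        linarith
      refine ⟨C₁ + C₂ + δ * |chi y 1|, by positivity, fun r R hr hrR => ?_⟩
      have hchi : -|chi y 1| ≤ chi y r := (neg_abs_le _).trans (chi_mono hy one_pos hr)
      have h1 := hC₁' r R hr hrR
      have h2 := hC₂' r R hr hrR
      have h3 : ∑ i ∈ U, N1 (fun z => lin (p i) (y z)) r =
          ∑ l, N1 (fun z => lin (p (κ l)) (y z)) r +
            ∑ i ∈ U \ V, N1 (fun z => lin (p i) (y z)) r := by
        rw [← Finset.sum_sdiff hVU, add_comm, hV, Finset.sum_image fun a _ b _ h => hκ h]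
      have h9 := A7_sums κ hκ U (by rw [← hV]; exact hVU) (fun i j => D i j r)
        fun i j => hL.1 i j r hr
      rw [← hV] at h9
      have h4 : ((U \ V).card : ℝ) = U.card - k := by
        rw [Finset.card_sdiff_of_subset hVU, hVcard, Nat.cast_sub]
        rw [← hVcard]
        exact Finset.card_le_card hVU
      have h5 : δ * |chi y 1| ≤ δ * |chi y 1| * err y r R :=
        le_mul_of_one_le_right (mul_nonneg hδ0 (abs_nonneg _)) (NS2_err_ge y r R)
      have h6 : 0 ≤ δ * (chi y r + |chi y 1|) := mul_nonneg hδ0 (by linarith)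
      have h7 : θ * k = k - 2 * d - δ := by
        rw [hθ, hδ]
        ring
      rw [h3]
      rw [h4] at h2
      have h8 : θ * ((U.card : ℝ) - K) * chi y r =
          θ * ((U.card : ℝ) - k - K) * chi y r + (k - 2 * d - δ) * chi y r := by
        rw [← h7]
        ring
      rw [h8]
      nlinarith [h1, h2, h5, h6, h9]

end Pool.Agent.H53N
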