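import Pool.Agent.Lib.H53N.ND

set_option autoImplicit false

/-!
H53N, CHUNK A8: averaging over the subsets with `L` elements.
-/

open MvPolynomial Module Real MeasureTheory
open Pool.Agent.H89.Sect Pool.Agent.H89.Arr

namespace Pool.Agent.H53N

open Pool.Agent.H67T Pool.Agent.H53S Pool.Agent.H53K

attribute [local instance] MvPolynomial.gradedAlgebra

open Finset in
private theorem a8_cnt {ι : Type} [Fintype ι] [DecidableEq ι] (S : Finset ι) (L : ℕ) (hS : S.card ≤ L) :
    (((univ : Finset ι).powersetCard L).filter (fun U => S ⊆ U)).card =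
      (Fintype.card ι - S.card).choose (L - S.card) := by
  rw [← card_compl S, ← card_powersetCard]
  refine card_bij' (fun U _ => U \ S) (fun W _ => W ∪ S) ?_ ?_ ?_ ?_
  · intro U hU
    rw [mem_filter, mem_powersetCard_univ] at hU
    rw [mem_powersetCard]
    refine ⟨fun x hx => ?_, ?_⟩
    · rw [mem_compl]
      exact (mem_sdiff.1 hx).2
    · rw [card_sdiff_of_subset hU.2, hU.1]
  · intro W hW
    rw [mem_powersetCard] at hW
    rw [mem_filter, mem_powersetCard_univ]
    refine ⟨?_, subset_union_right⟩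
    rw [card_union_of_disjoint, hW.2]
    · omega
    · rw [disjoint_left]
      intro x hx
      exact mem_compl.1 (hW.1 hx)
  · intro U hU
    rw [mem_filter] at hU
    exact sdiff_union_of_subset hU.2
  · intro W hW
    rw [mem_powersetCard] at hW
    have hd : Disjoint W S := by
      rw [disjoint_left]
      intro x hx
      exact mem_compl.1 (hW.1 hx)
    exact union_sdiff_cancel_right hd

open Finset in
/-- CHUNK A8 (M).  Pure combinatorics.  PROOF.  Sum `h U` over `U ∈ Finset.powersetCard L univ`.  Number of `U`: `k.choose L`; number of `U ∋ i`: `(k - 1).choose (L - 1)`; number of `U ∋ i, j` (`i ≠ j`): `(k - 2).choose (L - 2)`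
(`k = card ι`; e.g. `Finset.card_powersetCard` for `univ.erase i` and the bijection `U ↦ U.erase i`; or double counting).  So
`k.choose L * X ≤ (k-1).choose (L-1) * ∑ a + (k-2).choose (L-2) * ∑∑ D`, and `L * k.choose L = k * (k-1).choose (L-1)`, `(L-1) * (k-1).choose (L-1) = (k-1) * (k-2).choose (L-2)` (`Nat.add_one_mul_choose_eq`
or similar).  Multiply by `L`, divide by `(k-1).choose (L-1) > 0`. -/
theorem average {ι : Type} [Fintype ι] [DecidableEq ι] {L : ℕ} (hL : 2 ≤ L) (hLk : L ≤ Fintype.card ι) (a : ι → ℝ)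
    (D : ι → ι → ℝ) (X : ℝ)
    (h : ∀ U : Finset ι, U.card = L → X ≤ ∑ i ∈ U, a i + ∑ i ∈ U, ∑ j ∈ U.erase i, D i j) :
    (Fintype.card ι : ℝ) * X ≤ L * ∑ i, a i +
      (L * (L - 1) / ((Fintype.card ι : ℝ) - 1)) * ∑ i, ∑ j ∈ Finset.univ.erase i, D i j := by
  have hsum : ∑ U ∈ (univ : Finset ι).powersetCard L, X ≤
      ∑ U ∈ (univ : Finset ι).powersetCard L, (∑ i ∈ U, a i + ∑ i ∈ U, ∑ j ∈ U.erase i, D i j) :=
    sum_le_sum fun U hU => h U (mem_powersetCard_univ.1 hU)
  rw [sum_const, card_powersetCard, card_univ, nsmul_eq_mul, sum_add_distrib] at hsum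
  have e1 : ∑ U ∈ (univ : Finset ι).powersetCard L, ∑ i ∈ U, a i =
      ((Fintype.card ι - 1).choose (L - 1) : ℝ) * ∑ i, a i := by
    have : ∀ U ∈ (univ : Finset ι).powersetCard L, ∑ i ∈ U, a i = ∑ i, if {i} ⊆ U then a i else 0 := by
      intro U _
      rw [← sum_filter]
      refine sum_congr ?_ fun _ _ => rfl
      ext i
      simp
    rw [sum_congr rfl this, sum_comm, mul_sum]
    refine sum_congr rfl fun i _ => ?_
    rw [← sum_filter, sum_const, nsmul_eq_mul, a8_cnt {i} L (by simp; omega), card_singleton]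
  have e2 : ∑ U ∈ (univ : Finset ι).powersetCard L, ∑ i ∈ U, ∑ j ∈ U.erase i, D i j =
      ((Fintype.card ι - 2).choose (L - 2) : ℝ) * ∑ i, ∑ j ∈ univ.erase i, D i j := by
    have : ∀ U ∈ (univ : Finset ι).powersetCard L, ∑ i ∈ U, ∑ j ∈ U.erase i, D i j =
        ∑ i, ∑ j ∈ univ.erase i, if {i, j} ⊆ U then D i j else 0 := by
      intro U _
      have h1 : ∀ i : ι, ∑ j ∈ univ.erase i, (if {i, j} ⊆ U then D i j else 0) =
          if i ∈ U then ∑ j ∈ U.erase i, D i j else 0 := by
        intro i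
        split_ifs with hi
        · rw [← sum_filter]
          refine sum_congr ?_ fun _ _ => rfl
          ext j
          simp only [mem_filter, mem_erase, mem_univ, and_true, insert_subset_iff,
            singleton_subset_iff, ne_eq]
          tauto
        · refine sum_eq_zero fun j _ => if_neg fun hc => hi ?_
          exact hc (mem_insert_self _ _)
      rw [sum_congr rfl fun i _ => h1 i, ← sum_filter]
      refine sum_congr ?_ fun _ _ => rfl
      ext i
      simp
    rw [sum_congr rfl this, sum_comm, mul_sum]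
    refine sum_congr rfl fun i _ => ?_
    rw [sum_comm, mul_sum]
    refine sum_congr rfl fun j hj => ?_
    have hij : i ≠ j := fun hc => (mem_erase.1 hj).1 hc.symm
    rw [← sum_filter, sum_const, nsmul_eq_mul,
      a8_cnt {i, j} L (by rw [card_pair hij]; exact hL), card_pair hij]
  rw [e1, e2] at hsum
  obtain ⟨l, rfl⟩ : ∃ l, L = l + 2 := ⟨L - 2, by omega⟩
  obtain ⟨k, hk⟩ : ∃ k, Fintype.card ι = k + 2 := ⟨Fintype.card ι - 2, by omega⟩
  rw [hk] at hsum hLk ⊢
  have f1 : (k + 2) * (k + 1).choose (l + 1) = (k + 2).choose (l + 2) * (l + 2) :=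
    Nat.add_one_mul_choose_eq (k + 1) (l + 1)
  have f2 : (k + 1) * k.choose l = (k + 1).choose (l + 1) * (l + 1) :=
    Nat.add_one_mul_choose_eq k l
  have g0 : (0 : ℝ) < (k + 1).choose (l + 1) := by
    exact_mod_cast Nat.choose_pos (by omega)
  have f1' : ((k : ℝ) + 2) * (k + 1).choose (l + 1) = (k + 2).choose (l + 2) * ((l : ℝ) + 2) := by
    exact_mod_cast f1
  have f2' : ((k : ℝ) + 1) * k.choose l = (k + 1).choose (l + 1) * ((l : ℝ) + 1) := by
    exact_mod_cast f2
  have s1 : k + 2 - 1 = k + 1 := rfl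
  have s2 : k + 2 - 2 = k := rfl
  have s3 : l + 2 - 1 = l + 1 := rfl
  have s4 : l + 2 - 2 = l := rfl
  rw [s1, s2, s3, s4] at hsum
  set A := ∑ i, a i
  set B := ∑ i, ∑ j ∈ univ.erase i, D i j
  push_cast
  have hk1 : (0 : ℝ) < (k : ℝ) + 2 - 1 := by
    have : (0 : ℝ) ≤ k := Nat.cast_nonneg k
    linarith
  have hl2 : (0 : ℝ) ≤ (l : ℝ) + 2 := by positivity
  refine le_of_mul_le_mul_left ?_ g0
  have h3 := mul_le_mul_of_nonneg_left hsum hl2
  have h4 : ((k + 1).choose (l + 1) : ℝ) * (((l : ℝ) + 2) * ((l : ℝ) + 2 - 1) / ((k : ℝ) + 2 - 1) * B) =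
      ((l : ℝ) + 2) * ((k.choose l : ℝ) * B) := by
    rw [div_mul_eq_mul_div, mul_div_assoc', div_eq_iff hk1.ne']
    linear_combination (-(((l : ℝ) + 2) * B)) * f2'
  rw [mul_add, h4]
  calc ((k + 1).choose (l + 1) : ℝ) * (((k : ℝ) + 2) * X)
      = ((l : ℝ) + 2) * (((k + 2).choose (l + 2) : ℝ) * X) := by linear_combination X * f1'
    _ ≤ _ := h3
    _ = _ := by ring

end Pool.Agent.H53N
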