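import Pool.Agent.Lib.H53N.ND

set_option autoImplicit false

/-!
H53N, CHUNK B0: numbers.
-/

open MvPolynomial Module Real MeasureTheory
open Pool.Agent.H89.Sect Pool.Agent.H89.Arr

namespace Pool.Agent.H53N

open Pool.Agent.H67T Pool.Agent.H53S Pool.Agent.H53K

attribute [local instance] MvPolynomial.gradedAlgebra

/-- CHUNK B0 (S/M).  Pure real arithmetic.  PROOF.  Let `θ = (1 - t) (1 - K₁ / L)`, `t = 2 / R₀ ≤ ε / 4`, `K₁ / L ≤ ε / 4`, so `θ ≥ 1 - ε / 2`.  Divide `hav` by `L`: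
`k θ χ - k / L * E ≤ S + (L - 1) / (k - 1) * W`, `W ≤ k ((N - 1) χ + C₁)`.  With `χ' = χ + M ≥ 0`: `W ≤ k ((N - 1) χ' + C₁)`.  `k / (k - 1) ≤ 2` (`k ≥ 2`), so
`(L - 1) / (k - 1) * k * (N - 1) * χ' ≤ 2 L N χ' ≤ (ε / 4) k χ'` and `(L - 1) / (k - 1) * k * C₁ ≤ 2 L C₁`.  Therefore
`k θ (χ' - M) ≤ S + (ε / 4) k χ' + 2 L C₁ + k / L * E`, `θ ≤ 1`: `k (θ - ε / 4) χ' ≤ S + k M + 2 L C₁ + k E`, `(1 - ε) k χ' ≤ k (θ - ε / 4) χ'`, and `(1 - ε) k χ ≤ (1 - ε) k χ'` (`M ≥ 0`, `ε ≤ 1`). -/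
theorem num1 {k L K₁ N t ε χ S W E C₁ M : ℝ} (hL : 2 ≤ L) (hk : 2 ≤ k) (hN : 1 ≤ N) (ht0 : 0 ≤ t) (ht : t ≤ ε / 4) (hK0 : 0 ≤ K₁)
    (hK : K₁ ≤ ε / 4 * L) (hε : 0 < ε) (hε1 : ε ≤ 1) (hNk : 8 * L * N ≤ ε * k) (hM : 0 ≤ M) (hχ : -M ≤ χ) (hE : 0 ≤ E)
    (hC : 0 ≤ C₁) (hW0 : 0 ≤ W) (hW : W ≤ k * ((N - 1) * χ + C₁))
    (hav : k * ((1 - t) * (L - K₁) * χ - E) ≤ L * S + L * (L - 1) / (k - 1) * W) :
    (1 - ε) * k * χ ≤ S + (k * M + 2 * L * C₁ + k * E) := by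
  have hL0 : 0 < L := by linarith
  have hk0 : 0 < k := by linarith
  have hk1 : 0 < k - 1 := by linarith
  obtain ⟨u, hu⟩ : ∃ u : ℝ, u = K₁ / L := ⟨_, rfl⟩
  have hKu : K₁ = u * L := by rw [hu]; field_simp
  have hu0 : 0 ≤ u := by rw [hu]; positivity
  have hu1 : u ≤ ε / 4 := by
    rw [hu, div_le_iff₀ hL0]
    exact hK
  obtain ⟨q, hq⟩ : ∃ q : ℝ, q = (L - 1) / (k - 1) := ⟨_, rfl⟩
  have hq0 : 0 ≤ q := by
    rw [hq]
    exact div_nonneg (by linarith) hk1.le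
  have hqk : q * k ≤ 2 * L := by
    rw [hq, div_mul_eq_mul_div, div_le_iff₀ hk1]
    nlinarith
  have hav' : k * ((1 - t) * (1 - u) * χ) ≤ S + q * W + k * E := by
    have h1 : L * (k * ((1 - t) * (1 - u) * χ)) ≤ L * (S + q * W + k * E) := by
      have h2 : L * (L - 1) / (k - 1) * W = L * (q * W) := by
        rw [hq]
        ring
      rw [h2] at hav
      have h3 : k * E ≤ L * (k * E) := by
        have : 0 ≤ k * E := by positivity
        nlinarith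
      have h4 : k * ((1 - t) * (L - K₁) * χ - E) = L * (k * ((1 - t) * (1 - u) * χ)) - k * E := by
        rw [hKu]
        ring
      rw [h4] at hav
      linarith
    exact le_of_mul_le_mul_left h1 hL0
  obtain ⟨χ', hχ'⟩ : ∃ χ' : ℝ, χ' = χ + M := ⟨_, rfl⟩
  have hχ0 : 0 ≤ χ' := by rw [hχ']; linarith
  have hqW : q * W ≤ ε / 4 * (k * χ') + 2 * L * C₁ := by
    have h1 : q * W ≤ q * (k * ((N - 1) * χ' + C₁)) := by
      apply mul_le_mul_of_nonneg_left _ hq0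
      refine hW.trans (mul_le_mul_of_nonneg_left ?_ hk0.le)
      have : (N - 1) * χ ≤ (N - 1) * χ' := mul_le_mul_of_nonneg_left (by rw [hχ']; linarith) (by linarith)
      linarith
    have h2 : q * (k * ((N - 1) * χ' + C₁)) = (q * k) * ((N - 1) * χ' + C₁) := by ring
    have h3 : (q * k) * ((N - 1) * χ' + C₁) ≤ (2 * L) * ((N - 1) * χ' + C₁) := by
      apply mul_le_mul_of_nonneg_right hqk
      have : 0 ≤ (N - 1) * χ' := mul_nonneg (by linarith) hχ0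
      linarith
    have h4 : (2 * L) * ((N - 1) * χ') ≤ ε / 4 * (k * χ') := by
      have h5 : 2 * L * (N - 1) ≤ ε / 4 * k := by linarith
      calc (2 * L) * ((N - 1) * χ') = (2 * L * (N - 1)) * χ' := by ring
        _ ≤ (ε / 4 * k) * χ' := mul_le_mul_of_nonneg_right h5 hχ0
        _ = ε / 4 * (k * χ') := by ring
    calc q * W ≤ (2 * L) * ((N - 1) * χ' + C₁) := by rw [h2] at h1; exact h1.trans h3
      _ = (2 * L) * ((N - 1) * χ') + 2 * L * C₁ := by ring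
      _ ≤ ε / 4 * (k * χ') + 2 * L * C₁ := by linarith
  obtain ⟨θ, hθ⟩ : ∃ θ : ℝ, θ = (1 - t) * (1 - u) := ⟨_, rfl⟩
  have hθ1 : θ ≤ 1 := by
    rw [hθ]
    nlinarith
  have hθ2 : 1 - ε / 2 ≤ θ := by
    rw [hθ]
    have : 0 ≤ t * u := mul_nonneg ht0 hu0
    nlinarith
  rw [← hθ] at hav'
  have h1 : k * (θ * χ) = k * θ * χ' - k * θ * M := by
    rw [hχ']
    ring
  have h2 : k * θ * M ≤ k * M := by
    have : 0 ≤ k * M := by positivity
    nlinarith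
  have h3 : (1 - 3 * ε / 4) * (k * χ') ≤ (θ - ε / 4) * (k * χ') :=
    mul_le_mul_of_nonneg_right (by linarith) (by positivity)
  have h4 : (1 - ε) * (k * χ) ≤ (1 - 3 * ε / 4) * (k * χ') := by
    have h5 : (1 - ε) * (k * χ) ≤ (1 - ε) * (k * χ') :=
      mul_le_mul_of_nonneg_left (mul_le_mul_of_nonneg_left (by rw [hχ']; linarith) hk0.le) (by linarith)
    have h6 : (1 - ε) * (k * χ') ≤ (1 - 3 * ε / 4) * (k * χ') :=
      mul_le_mul_of_nonneg_right (by linarith) (by positivity)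
    exact h5.trans h6
  have h7 : (θ - ε / 4) * (k * χ') = k * θ * χ' - ε / 4 * (k * χ') := by ring
  have h8 : (1 - ε) * k * χ = (1 - ε) * (k * χ) := by ring
  rw [h8]
  linarith

end Pool.Agent.H53N
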