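import Pool.Agent.Lib.H53N.A6
import Pool.Agent.Lib.H53N.A7
import Pool.Agent.Lib.H53N.A8
import Pool.Agent.Lib.H53N.B0

set_option autoImplicit false

/-!
H53N, CHUNK B1: the second main theorem with error term, number of hyperplanes linear in `N`.
-/

open MvPolynomial Module Real MeasureTheory
open Pool.Agent.H89.Sect Pool.Agent.H89.Arr

namespace Pool.Agent.H53N

open Pool.Agent.H67T Pool.Agent.H53S Pool.Agent.H53K

attribute [local instance] MvPolynomial.gradedAlgebra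

private theorem b1_diff {n : ℕ} {y : ℂ → Fin n → ℂ} (hy : IsHol y) (c : Fin n → ℂ) :
    Differentiable ℂ fun z => lin c (y z) := by
  unfold Pool.Agent.H67T.lin
  exact Differentiable.fun_sum fun j _ => (differentiable_const _).mul (hy.diff j)

/-- CHUNK B1 (M).  PROOF.  `R₀ ≥ 2` with `2 / R₀ ≤ ε / 4`; `K₁` of `cover_loss n R₀`; `L ≥ 2` with `K₁ ≤ (ε / 4) L`; `K ≥ L`, `K ≥ 8 L / ε`, `K ≥ 2`.  If `card ι < 2` take `P = 1` (`K * N ≤ card ι` is impossible).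
Otherwise all `p i ≠ 0` (`distinct`), `P = (∏ U ∈ powersetCard L univ, P U) * ∏ i, lf (p i) ∉ I` (prime, `nondegenerate`), `P U` from `cover_loss`.  For `y`, `P(y z₁) ≠ 0`: all `P U (y z₁) ≠ 0`, `lin (p i) (y z₁) ≠ 0`.
For `i ≠ j` `exists_reduced` (Lib/H53K/W2) for `pr (p i) (p j) y` gives `G i j, w i j` with `Red`; `D i j r = max 0 (chi y r - chi (w i j) r)`: `Loss p y D`.  `cover_loss` for all `U` of card `L`, `C₀` = the sum of the
constants: `average` with `a i = N1 (lin (p i) y) r`, `X = (1 - 2 / R₀) * (L - K₁) * chi y r - C₀ * err y r R`.  `chi (w i j) r ≤ chi y r + C` (`pair_le` with `v = y`, `f = 1`), so `D i j r ≤ chi y r - chi (w i j) r + C` and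
`pair_sum` gives `W = ∑ i, ∑ j ∈ univ.erase i, D i j r ≤ k ((N - 1) chi y r + C₁)`.  `chi y r ≥ - M`, `M = |chi y 1|` (`chi_mono`).  `num1` with `E = C₀ * err`; `1 ≤ err` (`NS2_err_ge`) absorbs the constants. -/
theorem smtL_err (n : ℕ) (hn : 1 ≤ n) (ε : ℝ) (hε : 0 < ε) (hε1 : ε ≤ 1) : ∃ K : ℕ, 2 ≤ K ∧ ∀ (ι : Type) [Fintype ι]
    (p : ι → Fin (n + 1) → ℂ) (I : Ideal (MvPolynomial (Fin (n + 1)) ℂ)), DataR p I →
    ∃ P : MvPolynomial (Fin (n + 1)) ℂ, P ∉ I ∧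
      ∀ y : ℂ → Fin (n + 1) → ℂ, IsHol y → (∃ z, eval (y z) P ≠ 0) →
        ∀ N : ℕ, 1 ≤ N → K * N ≤ Fintype.card ι → CurvePos N p y →
        ∃ C : ℝ, 0 ≤ C ∧ ∀ r R : ℝ, 1 ≤ r → r < R →
          (1 - ε) * Fintype.card ι * chi y r ≤
            ∑ i, N1 (fun z => lin (p i) (y z)) r + C * err y r R := by
  classical
  obtain ⟨R₀, hR₀2, hR₀8⟩ : ∃ R₀ : ℕ, 2 ≤ R₀ ∧ 8 / ε ≤ (R₀ : ℝ) :=
    ⟨max 2 ⌈8 / ε⌉₊, le_max_left _ _, (Nat.le_ceil _).trans (by exact_mod_cast le_max_right _ _)⟩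
  have hR₀2' : (2 : ℝ) ≤ R₀ := by exact_mod_cast hR₀2
  have hR₀pos : (0 : ℝ) < R₀ := by linarith
  have ht : 2 / (R₀ : ℝ) ≤ ε / 4 := by
    rw [div_le_iff₀ hR₀pos]
    have h1 := (div_le_iff₀ hε).mp hR₀8
    linarith
  obtain ⟨K₁, hK₁⟩ := cover_loss n R₀ hn hR₀2
  obtain ⟨L, hL2, hLK⟩ : ∃ L : ℕ, 2 ≤ L ∧ 4 * (K₁ : ℝ) / ε ≤ (L : ℝ) :=
    ⟨max 2 ⌈4 * (K₁ : ℝ) / ε⌉₊, le_max_left _ _,
      (Nat.le_ceil _).trans (by exact_mod_cast le_max_right _ _)⟩
  have hKL : (K₁ : ℝ) ≤ ε / 4 * L := by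
    rw [div_le_iff₀ hε] at hLK
    linarith
  obtain ⟨K, hKL', hK8⟩ : ∃ K : ℕ, L ≤ K ∧ 8 * (L : ℝ) / ε ≤ (K : ℝ) :=
    ⟨max L ⌈8 * (L : ℝ) / ε⌉₊, le_max_left _ _,
      (Nat.le_ceil _).trans (by exact_mod_cast le_max_right _ _)⟩
  have hK2 : 2 ≤ K := hL2.trans hKL'
  refine ⟨K, hK2, fun ι _ p I hD => ?_⟩
  have hprime := hD.prime
  by_cases hk2 : Fintype.card ι < 2
  · refine ⟨1, fun h1 => hprime.ne_top ((Ideal.eq_top_iff_one I).mpr h1),
      fun y hy _ N hN hKN => ?_⟩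
    exfalso
    have : 2 ≤ K * N := by nlinarith
    omega
  push Not at hk2
  have hnt : Nontrivial ι := Fintype.one_lt_card_iff_nontrivial.mp (by omega)
  have hp0 : ∀ i, p i ≠ 0 := by
    intro i h0
    obtain ⟨j, hj⟩ := exists_ne i
    exact hD.distinct i j hj.symm 0 (by rw [h0, zero_smul])
  choose P hP hmain using fun U : Finset ι => hK₁ ι p I hD U
  refine ⟨(∏ U ∈ Finset.powersetCard L Finset.univ, P U) * ∏ i, lf (p i), ?_, ?_⟩
  · intro h1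
    rcases hprime.mem_or_mem h1 with h1 | h1
    · obtain ⟨U, -, hU⟩ := hprime.prod_mem_iff.mp h1
      exact hP U hU
    · obtain ⟨i, -, hi⟩ := hprime.prod_mem_iff.mp h1
      exact hD.nondegenerate _ (hp0 i) hi
  rintro y hy ⟨z₁, hz₁⟩ N hN hKN hpos
  simp only [map_mul, map_prod, eval_lf, mul_ne_zero_iff, Finset.prod_ne_zero_iff,
    Finset.mem_univ, true_implies] at hz₁
  obtain ⟨hz2, hz3⟩ := hz₁
  have hlin : ∀ i, ∃ z, lin (p i) (y z) ≠ 0 := fun i => ⟨z₁, hz3 i⟩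
  -- the reduced pairs
  have hred : ∀ i j, ∃ (G : ℂ → ℂ) (w : ℂ → Fin 2 → ℂ), Red (pr (p i) (p j) y) G w := by
    intro i j
    obtain ⟨g, w, h1, h2, h3, h4⟩ := exists_reduced (h := pr (p i) (p j) y) (by
      intro l
      fin_cases l
      · exact b1_diff hy (p i)
      · exact b1_diff hy (p j)) ⟨z₁, fun h0 => hz3 i (congrFun h0 0)⟩
    exact ⟨g, w, ⟨h1, h2, h3, h4⟩⟩
  choose G w hGw using hred
  obtain ⟨D, hDdef⟩ : ∃ D : ι → ι → ℝ → ℝ, D = fun i j r => max 0 (chi y r - chi (w i j) r) :=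
    ⟨_, rfl⟩
  have hDi : ∀ i j r, D i j r = max 0 (chi y r - chi (w i j) r) := fun i j r => by rw [hDdef]
  have hLoss : Loss p y D :=
    ⟨fun i j r _ => by rw [hDi]; exact le_max_left _ _,
      fun i j _ => ⟨G i j, w i j, hGw i j, fun r _ => by rw [hDi]; exact le_max_right _ _⟩⟩
  choose CU hCU0 hCU using fun U : {U : Finset ι // U.card = L} =>
    hmain U.1 y hy ⟨z₁, hz2 U.1 (Finset.mem_powersetCard.mpr ⟨Finset.subset_univ _, U.2⟩)⟩ D hLoss
  obtain ⟨C₀, hC₀⟩ : ∃ C₀ : ℝ, C₀ = ∑ U : {U : Finset ι // U.card = L}, CU U := ⟨_, rfl⟩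
  have hC₀0 : 0 ≤ C₀ := by rw [hC₀]; exact Finset.sum_nonneg fun U _ => hCU0 U
  have hC₀U : ∀ U, CU U ≤ C₀ := fun U => by
    rw [hC₀]
    exact Finset.single_le_sum (f := CU) (fun V _ => hCU0 V) (Finset.mem_univ U)
  choose CP hCP0 hCP using fun i => pair_sum hN hy hlin hpos (fun i j _ => hGw i j) i
  choose CL hCL0 hCL using fun i j => pair_le hy (f := fun _ => (1 : ℂ)) (differentiable_const _)
    ⟨0, one_ne_zero⟩ (a := p i) (b := p j) (c := p i) (d := p j) (fun z => (one_mul _).symm)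
    (fun z => (one_mul _).symm) (hGw i j)
  obtain ⟨C₁, hC₁⟩ : ∃ C₁ : ℝ, C₁ = ∑ i, (CP i + ∑ j ∈ Finset.univ.erase i, CL i j) := ⟨_, rfl⟩
  have hC₁0 : 0 ≤ C₁ := by
    rw [hC₁]
    exact Finset.sum_nonneg fun i _ =>
      add_nonneg (hCP0 i) (Finset.sum_nonneg fun j _ => hCL0 i j)
  obtain ⟨k, hk⟩ : ∃ k : ℝ, k = (Fintype.card ι : ℝ) := ⟨_, rfl⟩
  have hk2r : 2 ≤ k := by rw [hk]; exact_mod_cast hk2
  have hNr : (1 : ℝ) ≤ N := by exact_mod_cast hN
  have hL2r : (2 : ℝ) ≤ L := by exact_mod_cast hL2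
  have hLk : L ≤ Fintype.card ι := by
    refine hKL'.trans (le_trans ?_ hKN)
    exact Nat.le_mul_of_pos_right _ hN
  have hNk : 8 * (L : ℝ) * N ≤ ε * k := by
    have h1 : (K : ℝ) * N ≤ k := by rw [hk]; exact_mod_cast hKN
    have h2 : 8 * (L : ℝ) ≤ K * ε := (div_le_iff₀ hε).mp hK8
    have h3 : 8 * (L : ℝ) * N ≤ K * ε * N := mul_le_mul_of_nonneg_right h2 (by linarith)
    have h4 : ε * (K * N) ≤ ε * k := mul_le_mul_of_nonneg_left h1 hε.le
    nlinarith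
  refine ⟨k * |chi y 1| + 2 * L * C₁ + k * C₀, by positivity, fun r R hr hrR => ?_⟩
  have herr : 1 ≤ err y r R := NS2_err_ge y r R
  have hchi : -|chi y 1| ≤ chi y r := (neg_abs_le _).trans (chi_mono hy one_pos hr)
  have hav := average hL2 hLk (fun i => N1 (fun z => lin (p i) (y z)) r) (fun i j => D i j r)
    ((1 - 2 / (R₀ : ℝ)) * ((L : ℝ) - K₁) * chi y r - C₀ * err y r R) (by
      intro U hU
      have h1 := hCU ⟨U, hU⟩ r R hr hrR
      have h2 := hC₀U ⟨U, hU⟩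
      have h3 : CU ⟨U, hU⟩ * err y r R ≤ C₀ * err y r R :=
        mul_le_mul_of_nonneg_right h2 (by linarith)
      simp only [hU] at h1
      linarith)
  have hW0 : 0 ≤ ∑ i, ∑ j ∈ Finset.univ.erase i, D i j r :=
    Finset.sum_nonneg fun i _ => Finset.sum_nonneg fun j _ => hLoss.1 i j r hr
  have hW : ∑ i, ∑ j ∈ Finset.univ.erase i, D i j r ≤ k * (((N : ℝ) - 1) * chi y r + C₁) := by
    have h1 : ∀ i, ∑ j ∈ Finset.univ.erase i, D i j r ≤
        ((N : ℝ) - 1) * chi y r + (CP i + ∑ j ∈ Finset.univ.erase i, CL i j) := by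
      intro i
      have h2 : ∑ j ∈ Finset.univ.erase i, D i j r ≤
          ∑ j ∈ Finset.univ.erase i, ((chi y r - chi (w i j) r) + CL i j) := by
        refine Finset.sum_le_sum fun j _ => ?_
        rw [hDi]
        have h3 := hCL i j r hr
        have h4 := hCL0 i j
        exact max_le (by linarith) (by linarith)
      rw [Finset.sum_add_distrib] at h2
      have h5 := hCP i r hr
      linarith
    have h2 := Finset.sum_le_sum fun i (_ : i ∈ (Finset.univ : Finset ι)) => h1 i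
    rw [Finset.sum_add_distrib, Finset.sum_const, Finset.card_univ, nsmul_eq_mul, ← hk, ← hC₁]
      at h2
    have h3 : C₁ ≤ k * C₁ := by nlinarith
    linarith
  have h := num1 (k := k) (L := L) (K₁ := K₁) (N := N) (t := 2 / (R₀ : ℝ)) (ε := ε) (χ := chi y r)
    (S := ∑ i, N1 (fun z => lin (p i) (y z)) r) (W := ∑ i, ∑ j ∈ Finset.univ.erase i, D i j r)
    (E := C₀ * err y r R) (C₁ := C₁) (M := |chi y 1|) hL2r hk2r hNr (by positivity) ht
    (Nat.cast_nonneg _) hKL hε hε1 hNk (abs_nonneg _) hchi (by positivity) hC₁0 hW0 hW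
    (by rw [hk]; exact hav)
  rw [← hk]
  have h6 : k * |chi y 1| + 2 * L * C₁ ≤ (k * |chi y 1| + 2 * L * C₁) * err y r R :=
    le_mul_of_one_le_right (by positivity) herr
  have h7 : (k * |chi y 1| + 2 * L * C₁ + k * C₀) * err y r R =
      (k * |chi y 1| + 2 * L * C₁) * err y r R + k * (C₀ * err y r R) := by ring
  rw [h7]
  linarith

end Pool.Agent.H53N
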