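import Pool.Agent.Lib.H53N.B1
import Pool.Agent.Lib.H67T.NB
import Pool.Agent.Lib.H67T.NSE
import Pool.Agent.Lib.H67T.NM2
import Pool.Agent.Lib.H53S.S2

set_option autoImplicit false

/-!
H53N, CHUNK B2: the second main theorem, exceptional set.
-/

open MvPolynomial Module Real MeasureTheory
open Pool.Agent.H89.Sect Pool.Agent.H89.Arr

namespace Pool.Agent.H53N

open Pool.Agent.H67T Pool.Agent.H53S Pool.Agent.H53K

attribute [local instance] MvPolynomial.gradedAlgebra

/-- The purely numerical part of the second main theorem (chunk B2). -/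
private theorem B2_num {k ε c T K β C L S er δ : ℝ}
    (hβ : β = ε / 2 * k) (hC : 0 ≤ C) (hT1 : 1 ≤ T) (hcT : T - 2 * K ≤ c) (hβ0 : 0 < β)
    (hδ : δ = β / (5 * C + 1)) (her : er ≤ 5 * (log T + L))
    (h : (1 - ε / 2) * k * c ≤ S + C * er) :
    (1 - ε) * k * c ≤ S + 5 * C * L + (2 * K * β + 5 * C * |log δ|) := by
  have hδpos : 0 < δ := by rw [hδ]; positivity
  have e1 : (1 - ε) * k * c = (1 - ε / 2) * k * c - β * c := by rw [hβ]; ring
  have e2 : β * (T - 2 * K) ≤ β * c := mul_le_mul_of_nonneg_left hcT hβ0.le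
  have e3 : C * er ≤ C * (5 * (log T + L)) := mul_le_mul_of_nonneg_left her hC
  have hTpos : 0 < T := by linarith
  have e4 : log T ≤ δ * T - log δ := by
    have h1 := Real.log_le_sub_one_of_pos (mul_pos hδpos hTpos)
    rw [Real.log_mul hδpos.ne' hTpos.ne'] at h1
    linarith
  have e5 : 5 * C * log T ≤ 5 * C * (δ * T - log δ) := mul_le_mul_of_nonneg_left e4 (by positivity)
  have e6 : 5 * C * δ ≤ β := by
    rw [hδ, ← mul_div_assoc, div_le_iff₀ (by positivity)]
    nlinarith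
  have e7 : 5 * C * δ * T ≤ β * T := mul_le_mul_of_nonneg_right e6 hTpos.le
  have e8 : -(5 * C * log δ) ≤ 5 * C * |log δ| := by
    have := mul_le_mul_of_nonneg_left (neg_abs_le (log δ)) (by positivity : 0 ≤ 5 * C)
    linarith
  rw [e1]
  nlinarith

/-- CHUNK B2 (M, copy).  PROOF.  `smtL_err n hn (ε / 2)`.  Then as in `smtR` (Lib/H53S/S2.lean): `M' = max 1 |chi y 1|`, `T r = max M' (chi y r)`, `borel` gives `E`; `err y r (r + 1 / T r) ≤ 5 (log (T r) + log r)` (`err_le`).  With `k = card ι ≥ 1`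
(`K * N ≤ card ι`, `K ≥ 2`), `β = ε / 2 * k > 0`, `T r - 2 M' ≤ chi y r`:
`(1 - ε) k chi y r = (1 - ε / 2) k chi y r - β chi y r ≤ ∑ N1 + 5 C (log (T r) + log r) - β (T r - 2 M')` and `5 C log T ≤ β T + 5 C |log δ|`, `δ = β / (5 C + 1)` (see `SM2_num`, private in S2: copy the argument:
`log T = log (δ T) - log δ ≤ δ T - 1 - log δ`).  Constants are `≤ |..| / log 2 * log r` for `r ≥ 2`. -/
theorem smtL (n : ℕ) (hn : 1 ≤ n) (ε : ℝ) (hε : 0 < ε) (hε1 : ε ≤ 1) : ∃ K : ℕ, 2 ≤ K ∧ ∀ (ι : Type) [Fintype ι]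
    (p : ι → Fin (n + 1) → ℂ) (I : Ideal (MvPolynomial (Fin (n + 1)) ℂ)), DataR p I →
    ∃ P : MvPolynomial (Fin (n + 1)) ℂ, P ∉ I ∧
      ∀ y : ℂ → Fin (n + 1) → ℂ, IsHol y → (∃ z, eval (y z) P ≠ 0) →
        ∀ N : ℕ, 1 ≤ N → K * N ≤ Fintype.card ι → CurvePos N p y →
        ∃ (C : ℝ) (E : Set ℝ), volume E < ⊤ ∧ ∀ r : ℝ, 2 ≤ r → r ∉ E →
          (1 - ε) * Fintype.card ι * chi y r ≤
            ∑ i, N1 (fun z => lin (p i) (y z)) r + C * log r := by
  obtain ⟨K₀, hK2, hmain0⟩ := smtL_err n hn (ε / 2) (by positivity) (by linarith)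
  refine ⟨K₀, hK2, fun ι _ p I hD => ?_⟩
  obtain ⟨P, hPI, hP⟩ := hmain0 ι p I hD
  refine ⟨P, hPI, fun y hy hPy N hN hcard hpos => ?_⟩
  obtain ⟨C, hC0, hC⟩ := hP y hy hPy N hN hcard hpos
  set k : ℝ := (Fintype.card ι : ℝ) with hkdef
  have hk1 : 1 ≤ k := by
    have h1 : 1 ≤ Fintype.card ι := le_trans (Nat.succ_le_of_lt (Nat.mul_pos (by omega) (by omega))) hcard
    rw [hkdef]; exact_mod_cast h1
  set K : ℝ := max 1 |chi y 1| with hK
  have hK1 : 1 ≤ K := le_max_left _ _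
  have hlow : ∀ r : ℝ, 1 ≤ r → -K ≤ chi y r := by
    intro r hr
    have h1 := chi_mono hy (r := 1) (R := r) one_pos hr
    have h2 := neg_abs_le (chi y 1)
    have h3 : |chi y 1| ≤ K := le_max_right _ _
    linarith
  set T : ℝ → ℝ := fun r => max K (chi y r) with hT
  have hTmono : MonotoneOn T (Set.Ici 1) := by
    intro a ha b hb hab
    exact max_le_max le_rfl (chi_mono hy (lt_of_lt_of_le one_pos ha) hab)
  have hT1 : ∀ r, 1 ≤ r → 1 ≤ T r := fun r _ => hK1.trans (le_max_left _ _)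
  obtain ⟨E, hEm, hEv, hE⟩ := borel hTmono hT1
  set β : ℝ := ε / 2 * k with hβ
  have hβ0 : 0 < β := by positivity
  set δ : ℝ := β / (5 * C + 1) with hδ
  have hlog2 : 0 < log 2 := Real.log_pos (by norm_num)
  refine ⟨5 * C + abs (2 * K * β + 5 * C * |log δ|) / log 2, E, lt_of_le_of_lt hEv (by simp), ?_⟩
  intro r hr hrE
  have hr1 : 1 ≤ r := by linarith
  have hTr := hT1 r hr1
  have hTpos : 0 < T r := by linarith
  have hR := hE r hr1 hrE
  have hR1 : 1 ≤ r + 1 / T r := by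
    have : 0 < 1 / T r := by positivity
    linarith
  have hrR : r < r + 1 / T r := by
    have : 0 < 1 / T r := by positivity
    linarith
  have habs : |chi y (r + 1 / T r)| ≤ 2 * T r := by
    rw [abs_le]
    constructor
    · have h1 := hlow _ hR1
      have h2 : K ≤ T r := le_max_left _ _
      linarith
    · exact le_trans (le_max_right _ _) hR
  have herr := err_le (y := y) hr hTr habs
  have hcT : T r - 2 * K ≤ chi y r := by
    have h1 := hlow r hr1
    have h2 : T r = max K (chi y r) := rfl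
    rcases le_total K (chi y r) with h3 | h3
    · rw [h2, max_eq_right h3]; linarith
    · rw [h2, max_eq_left h3]; linarith
  have hmain := hC r (r + 1 / T r) hr1 hrR
  have hnum := B2_num (k := k) (ε := ε) (c := chi y r) (T := T r) (K := K)
    (β := β) (C := C) (L := log r) (S := ∑ i, N1 (fun z => lin (p i) (y z)) r)
    (er := err y r (r + 1 / T r)) (δ := δ) hβ hC0 hTr hcT hβ0 hδ herr hmain
  refine hnum.trans ?_
  have hlr : log 2 ≤ log r := Real.log_le_log (by norm_num) hr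
  have h9 : 2 * K * β + 5 * C * |log δ| ≤ abs (2 * K * β + 5 * C * |log δ|) / log 2 * log r := by
    calc 2 * K * β + 5 * C * |log δ| ≤ abs (2 * K * β + 5 * C * |log δ|) := le_abs_self _
      _ = abs (2 * K * β + 5 * C * |log δ|) / log 2 * log 2 := by
        rw [div_mul_cancel₀ _ hlog2.ne']
      _ ≤ _ := mul_le_mul_of_nonneg_left hlr (by positivity)
  linarith

end Pool.Agent.H53N
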