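import Pool.Agent.Lib.H53N.B2
import Pool.Agent.Lib.H53S.W4

set_option autoImplicit false

/-!
H53N, CHUNK B3: forms of one degree.
-/

open MvPolynomial Module Real MeasureTheory
open Pool.Agent.H89.Sect Pool.Agent.H89.Arr

namespace Pool.Agent.H53N

open Pool.Agent.H67T Pool.Agent.H53S Pool.Agent.H53K

attribute [local instance] MvPolynomial.gradedAlgebra

private theorem b3_eval {m M : ℕ} (G : Fin M → MvPolynomial (Fin m) ℂ) (x : Fin m → ℂ)
    (P : MvPolynomial (Fin M) ℂ) : eval x (aeval G P) = eval (fun l => eval x (G l)) P := by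
  induction P using MvPolynomial.induction_on with
  | C a => simp [MvPolynomial.algebraMap_eq]
  | add p q hp hq => simp only [map_add, hp, hq]
  | mul_X p i hp => simp only [map_mul, hp, aeval_X, eval_X]

private theorem b3_two {n M : ℕ} {I : Ideal (MvPolynomial (Fin n) ℂ)} {ι : Type} [Fintype ι]
    {F : ι → MvPolynomial (Fin n) ℂ} (hF : HypI I F) (hc : 2 ≤ Fintype.card ι)
    {g : Fin M → MvPolynomial (Fin n) ℂ} {p : ι → Fin M → ℂ}
    (hp : ∀ i, F i - ∑ l, C (p i l) * g l ∈ I) : 2 ≤ M := by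
  obtain ⟨i, j, hij⟩ := Fintype.one_lt_card_iff.1 hc
  by_contra hM
  have hM2 : M = 0 ∨ M = 1 := by omega
  rcases hM2 with rfl | rfl
  · have h1 := hp i
    rw [Finset.univ_eq_empty, Finset.sum_empty, sub_zero] at h1
    exact hF.nonzero i h1
  · have h1 := hp i
    have h2 := hp j
    rw [Fin.sum_univ_one] at h1 h2
    have h3 : p j 0 ≠ 0 := by
      intro h0
      rw [h0, C_0, zero_mul, sub_zero] at h2
      exact hF.nonzero j h2
    refine hF.distinct i j hij (p i 0 / p j 0) ?_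
    have h4 : F i - C (p i 0 / p j 0) * F j = (F i - C (p i 0) * g 0) -
        C (p i 0 / p j 0) * (F j - C (p j 0) * g 0) := by
      have h5 : (C (p i 0) : MvPolynomial (Fin n) ℂ) = C (p i 0 / p j 0) * C (p j 0) := by
        rw [← C_mul, div_mul_cancel₀ _ h3]
      rw [h5]
      ring
    rw [h4]
    exact Ideal.sub_mem _ h1 (Ideal.mul_mem_left _ _ h2)

/-- CHUNK B3 (M, copy).  Copy of `smt_degreeI` (Lib/H53S/W4.lean; the private lemmas `w4_eval`, `w4_two` must be copied too, with other names) with `smtL` instead of `smtR`: `K = 2 + ∑` of the constants of `smtL M` for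
`1 ≤ M ≤ (δ + 1) ^ n` (so `K ≥` each of them and `K' * N ≤ K * N ≤ card ι`).  The order of the quantifiers is new: `P` comes first, then `y`, then `N`.  If `card ι < 2` take `P = 1`
(`K * N ≤ card ι` is impossible).  The curve `y'` has `CurvePos N p y'` (as there). -/
theorem smt_degreeL (n δ : ℕ) (hδ : 1 ≤ δ) (ε : ℝ) (hε : 0 < ε) (hε1 : ε ≤ 1) : ∃ K : ℕ, 2 ≤ K ∧ ∀ (ι : Type)
    [Fintype ι] (F : ι → MvPolynomial (Fin n) ℂ)
    (I : Ideal (MvPolynomial (Fin n) ℂ)), I.IsPrime → I.IsHomogeneous (homogeneousSubmodule (Fin n) ℂ) →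
    (∀ i, (F i).IsHomogeneous δ) → HypI I F →
    ∃ P : MvPolynomial (Fin n) ℂ, P ∉ I ∧
      ∀ y : ℂ → Fin n → ℂ, IsHol y → (∀ z, ∀ G ∈ I, eval (y z) G = 0) → (∃ z, eval (y z) P ≠ 0) →
        ∀ N : ℕ, 1 ≤ N → K * N ≤ Fintype.card ι → CurvePosF N (fun _ => δ) F y →
        ∃ (C : ℝ) (E : Set ℝ), volume E < ⊤ ∧ ∀ r : ℝ, 2 ≤ r → r ∉ E →
          (1 - ε) * Fintype.card ι * δ * chi y r ≤
            ∑ i, N1 (fun z => eval (y z) (F i)) r + C * log r := by
  choose kk hkk2 hkk using fun (M : ℕ) (hM : 1 ≤ M) => smtL M hM ε hε hε1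
  refine ⟨2 + ∑ M ∈ Finset.range ((δ + 1) ^ n + 1), (if h : 1 ≤ M then kk M h else 0), by omega, ?_⟩
  intro ι _ F I hIp hI hFδ hF
  by_cases hc : 2 ≤ Fintype.card ι
  · obtain ⟨M', g, hM', hg⟩ := exists_basisD I δ
    choose p hp using fun i => hg.span (F i) (hFδ i)
    have hM2 : 2 ≤ M' := b3_two hF hc hp
    obtain ⟨M, rfl⟩ : ∃ M, M' = M + 1 := ⟨M' - 1, by omega⟩
    have hM1 : 1 ≤ M := by omega
    have hD := dataR_comap hδ hIp hI hg hFδ hF hp
    have hkM : kk M hM1 ≤
        2 + ∑ M ∈ Finset.range ((δ + 1) ^ n + 1), (if h : 1 ≤ M then kk M h else 0) := by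
      have hmem : M ∈ Finset.range ((δ + 1) ^ n + 1) := Finset.mem_range.2 (by omega)
      have h1 := Finset.single_le_sum (f := fun M => (if h : 1 ≤ M then kk M h else 0))
        (fun _ _ => Nat.zero_le _) hmem
      simp only [dif_pos hM1] at h1
      omega
    obtain ⟨P', hP', hsm⟩ := hkk M hM1 ι p _ hD
    refine ⟨aeval g P', hP', ?_⟩
    rintro y hy hyI ⟨z₀, hz₀⟩ N hN hKN hpos
    obtain ⟨hy', hpos', hlin⟩ := veronese_curveI hδ hg hp hy hyI hpos
    rw [b3_eval] at hz₀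
    obtain ⟨C₁, E, hE, hineq⟩ := hsm _ hy' ⟨z₀, hz₀⟩ N hN
      (le_trans (Nat.mul_le_mul_right N hkM) hKN) hpos'
    obtain ⟨K, hK⟩ := veronese_chiI hδ hg hy hyI hy'
    have hq : (0 : ℝ) ≤ (1 - ε) * Fintype.card ι := mul_nonneg (by linarith) (Nat.cast_nonneg _)
    refine ⟨C₁ + (1 - ε) * Fintype.card ι * |K| / log 2, E, hE, ?_⟩
    intro r hr hrE
    have h1 := hineq r hr hrE
    have h2 := hK r (by linarith)
    have hl2 : 0 < log 2 := Real.log_pos (by norm_num)
    have hlr : log 2 ≤ log r := Real.log_le_log (by norm_num) hr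
    have h3 : (1 - ε) * Fintype.card ι * (δ * chi y r - |K|) ≤
        (1 - ε) * Fintype.card ι * chi (fun z l => eval (y z) (g l)) r := by
      refine mul_le_mul_of_nonneg_left ?_ hq
      linarith [le_abs_self K]
    have h4 : (1 - ε) * Fintype.card ι * |K| ≤
        (1 - ε) * Fintype.card ι * |K| / log 2 * log r := by
      rw [div_mul_eq_mul_div, le_div_iff₀ hl2]
      exact mul_le_mul_of_nonneg_left hlr (mul_nonneg hq (abs_nonneg K))
    have h5 : ∑ i, N1 (fun z => lin (p i) (fun l => eval (y z) (g l))) r =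
        ∑ i, N1 (fun z => eval (y z) (F i)) r := by
      refine Finset.sum_congr rfl fun i _ => ?_
      congr 1
      funext z
      exact hlin i z
    have h6 : (1 - ε) * Fintype.card ι * chi (fun z l => eval (y z) (g l)) r ≤
        ∑ i, N1 (fun z => eval (y z) (F i)) r + C₁ * log r := by
      rw [← h5]
      exact h1
    have h7 : (C₁ + (1 - ε) * Fintype.card ι * |K| / log 2) * log r =
        C₁ * log r + (1 - ε) * Fintype.card ι * |K| / log 2 * log r := by ring
    rw [h7]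
    linarith
  · refine ⟨1, (Ideal.ne_top_iff_one _).1 hIp.ne_top, ?_⟩
    intro y _ _ _ N hN hKN _
    exfalso
    have h1 : (2 + ∑ M ∈ Finset.range ((δ + 1) ^ n + 1), (if h : 1 ≤ M then kk M h else 0)) * 1 ≤
        (2 + ∑ M ∈ Finset.range ((δ + 1) ^ n + 1), (if h : 1 ≤ M then kk M h else 0)) * N :=
      Nat.mul_le_mul_left _ hN
    omega

end Pool.Agent.H53N
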