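import Pool.Agent.Lib.H53N.B3
import Pool.Agent.Lib.H53S.W5

set_option autoImplicit false

/-!
H53N, CHUNK B4: forms of bounded degrees.
-/

open MvPolynomial Module Real MeasureTheory
open Pool.Agent.H89.Sect Pool.Agent.H89.Arr

namespace Pool.Agent.H53N

open Pool.Agent.H67T Pool.Agent.H53S Pool.Agent.H53K

attribute [local instance] MvPolynomial.gradedAlgebra

/-- CHUNK B4 (M, copy).  Copy of `smtI` (Lib/H53S/W5.lean) with `smt_degreeL n δ' h (ε / 2)`.  `K'` = the maximum of its constants over `1 ≤ δ' ≤ δ`; `K ≥ 2` with `2 δ ^ 2 K' / ε ≤ K`.  `P` = the product over all `δ' ∈ Icc 1 δ` (no case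
distinction needed for `P`).  For given `N` the big degrees are those with `K' * N ≤ card {i // d i = δ'}`; the small ones contribute at most `δ * (K' N) * δ ≤ (ε / 2) K N ≤ (ε / 2) ∑ i, d i`. -/
theorem smtIL (n δ : ℕ) (ε : ℝ) (hε : 0 < ε) (hε1 : ε ≤ 1) : ∃ K : ℕ, 2 ≤ K ∧ ∀ (ι : Type)
    [Fintype ι] (d : ι → ℕ) (F : ι → MvPolynomial (Fin n) ℂ)
    (I : Ideal (MvPolynomial (Fin n) ℂ)), I.IsPrime → I.IsHomogeneous (homogeneousSubmodule (Fin n) ℂ) →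
    (∀ i, 1 ≤ d i ∧ d i ≤ δ) → (∀ i, (F i).IsHomogeneous (d i)) → HypI I F →
    ∃ P : MvPolynomial (Fin n) ℂ, P ∉ I ∧
      ∀ y : ℂ → Fin n → ℂ, IsHol y → (∀ z, ∀ G ∈ I, eval (y z) G = 0) → (∃ z, eval (y z) P ≠ 0) →
        ∀ N : ℕ, 1 ≤ N → K * N ≤ Fintype.card ι → CurvePosF N d F y →
        ∃ (C : ℝ) (E : Set ℝ), volume E < ⊤ ∧ ∀ r : ℝ, 2 ≤ r → r ∉ E →
          (1 - ε) * (∑ i, d i : ℕ) * chi y r ≤ ∑ i, N1 (fun z => eval (y z) (F i)) r + C * log r := by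
  classical
  have hsd := fun (δ' : ℕ) (h : 1 ≤ δ') =>
    smt_degreeL n δ' h (ε / 2) (by linarith) (by linarith)
  choose kk hkk2 hkk using hsd
  obtain ⟨kf, hkf⟩ : ∃ kf : ℕ → ℕ, kf = fun δ' => if h : 1 ≤ δ' then kk δ' h else 0 := ⟨_, rfl⟩
  obtain ⟨K, hK⟩ : ∃ K : ℕ, K = (Finset.Icc 1 δ).sup kf := ⟨_, rfl⟩
  have hKk : ∀ δ' (h1 : 1 ≤ δ'), δ' ≤ δ → kk δ' h1 ≤ K := by
    intro δ' h1 h2
    have h3 : kf δ' ≤ K := by
      rw [hK]
      exact Finset.le_sup (f := kf) (Finset.mem_Icc.mpr ⟨h1, h2⟩)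
    rw [hkf] at h3
    simpa [h1] using h3
  refine ⟨max 2 ⌈2 * (δ : ℝ) ^ 2 * K / ε⌉₊, le_max_left _ _, ?_⟩
  intro ι _ d F I hIp hI hd hF hH
  have := hIp
  have h1J : (1 : MvPolynomial (Fin n) ℂ) ∉ I := by
    intro h
    exact hIp.ne_top ((Ideal.eq_top_iff_one I).mpr h)
  have claim : ∀ δ' : ℕ, ∃ P : MvPolynomial (Fin n) ℂ, P ∉ I ∧ (δ' ∈ Finset.Icc 1 δ →
      ∀ u : ℂ → Fin n → ℂ, IsHol u → (∀ z, ∀ G ∈ I, eval (u z) G = 0) →
      (∃ z, eval (u z) P ≠ 0) → ∀ N : ℕ, 1 ≤ N → K * N ≤ Fintype.card {i // d i = δ'} →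
        CurvePosF N (fun _ : {i // d i = δ'} => δ') (fun i : {i // d i = δ'} => F i.1) u →
        ∃ (C : ℝ) (E : Set ℝ), volume E < ⊤ ∧ ∀ r : ℝ, 2 ≤ r → r ∉ E →
          (1 - ε / 2) * Fintype.card {i // d i = δ'} * δ' * chi u r ≤
            ∑ i : {i // d i = δ'}, N1 (fun z => eval (u z) (F i.1)) r + C * log r) := by
    intro δ'
    by_cases hmem : δ' ∈ Finset.Icc 1 δ
    · obtain ⟨h1, h2⟩ := Finset.mem_Icc.mp hmem
      obtain ⟨P, hPJ, hP⟩ := hkk δ' h1 {i // d i = δ'}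
        (fun i => F i.1) I hIp hI
        (fun i => by have := hF i.1; rwa [i.2] at this) (w5_hyp hH _)
      refine ⟨P, hPJ, fun _ u hu huJ huP N hN hcN hup => ?_⟩
      exact hP u hu huJ huP N hN (le_trans (Nat.mul_le_mul_right N (hKk δ' h1 h2)) hcN) hup
    · exact ⟨1, h1J, fun h => absurd h hmem⟩
  choose P hPJ hP using claim
  refine ⟨∏ δ' ∈ Finset.Icc 1 δ, P δ', ?_, ?_⟩
  · intro h
    obtain ⟨δ', _, h'⟩ := (Ideal.IsPrime.prod_mem_iff (p := I)).mp h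
    exact hPJ δ' h'
  intro u hu huJ huP N hN hcard hup
  have hcard1 : 2 * N ≤ Fintype.card ι :=
    le_trans (Nat.mul_le_mul_right N (le_max_left _ _)) hcard
  have hNR : (1 : ℝ) ≤ N := by exact_mod_cast hN
  have hcard2 : 2 * (δ : ℝ) ^ 2 * K / ε * N ≤ Fintype.card ι := by
    have h1 : 2 * (δ : ℝ) ^ 2 * K / ε ≤ (⌈2 * (δ : ℝ) ^ 2 * K / ε⌉₊ : ℝ) := Nat.le_ceil _
    have h2 : ⌈2 * (δ : ℝ) ^ 2 * K / ε⌉₊ * N ≤ Fintype.card ι :=
      le_trans (Nat.mul_le_mul_right N (le_max_right _ _)) hcard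
    have h3 : (⌈2 * (δ : ℝ) ^ 2 * K / ε⌉₊ : ℝ) * N ≤ Fintype.card ι := by exact_mod_cast h2
    exact le_trans (mul_le_mul_of_nonneg_right h1 (by linarith)) h3
  obtain ⟨A, hA⟩ : ∃ A : ℕ → ℝ, A = fun δ' =>
    if K * N ≤ Fintype.card {i // d i = δ'} then (Fintype.card {i // d i = δ'} : ℝ) * δ' else 0 :=
    ⟨_, rfl⟩
  have hA0 : ∀ δ', 0 ≤ A δ' := by
    intro δ'
    rw [hA]
    dsimp only
    split_ifs <;> positivity
  obtain ⟨z₀, hz₀⟩ := huP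
  rw [map_prod, Finset.prod_ne_zero_iff] at hz₀
  have claim2 : ∀ δ' : ℕ, ∃ (C : ℝ) (E : Set ℝ), volume E < ⊤ ∧ (δ' ∈ Finset.Icc 1 δ →
      ∀ r : ℝ, 2 ≤ r → r ∉ E →
          (1 - ε / 2) * A δ' * chi u r ≤
            ∑ i : {i // d i = δ'}, N1 (fun z => eval (u z) (F i.1)) r + C * log r) := by
    intro δ'
    by_cases hmem : δ' ∈ Finset.Icc 1 δ
    · by_cases hbig : K * N ≤ Fintype.card {i // d i = δ'}
      · obtain ⟨C, E, hE, hC⟩ := hP δ' hmem u hu huJ ⟨z₀, hz₀ δ' hmem⟩ N hN hbig (w5_pos hup δ')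
        refine ⟨C, E, hE, fun _ r hr hrE => ?_⟩
        have := hC r hr hrE
        rw [hA]
        dsimp only
        rw [if_pos hbig]
        have e1 : (1 - ε / 2) * ((Fintype.card {i // d i = δ'} : ℝ) * δ') =
          (1 - ε / 2) * (Fintype.card {i // d i = δ'} : ℝ) * δ' := by ring
        rw [e1]
        exact this
      · refine ⟨0, ∅, by simp, fun _ r hr _ => ?_⟩
        rw [hA]
        dsimp only
        rw [if_neg hbig]
        have : 0 ≤ ∑ i : {i // d i = δ'}, N1 (fun z => eval (u z) (F i.1)) r :=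
          Finset.sum_nonneg fun i _ => N1_nonneg _ (by linarith)
        simpa using this
    · exact ⟨0, ∅, by simp, fun h => absurd h hmem⟩
  choose C E hE hC using claim2
  have hyh : IsHol u := hu
  obtain ⟨c1, hc1⟩ : ∃ c1 : ℝ, c1 = |chi u 1| :=
    ⟨_, rfl⟩
  have hc1' : 0 ≤ c1 := by rw [hc1]; exact abs_nonneg _
  have hchi : ∀ r : ℝ, 2 ≤ r → -c1 ≤ chi u r := by
    intro r hr
    have h1 := chi_mono hyh (r := 1) (R := r) one_pos (by linarith)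
    have h2 := neg_abs_le (chi u 1)
    rw [hc1]
    linarith
  obtain ⟨S, hS⟩ : ∃ S : ℝ, S = ∑ i, (d i : ℝ) := ⟨_, rfl⟩
  obtain ⟨Bt, hBt⟩ : ∃ Bt : ℝ, Bt = ∑ δ' ∈ Finset.Icc 1 δ, A δ' := ⟨_, rfl⟩
  have hSsum : S = ∑ δ' ∈ Finset.Icc 1 δ, (Fintype.card {i // d i = δ'} : ℝ) * δ' := by
    rw [hS, ← w5_sum d δ hd (fun i => (d i : ℝ))]
    apply Finset.sum_congr rfl
    intro δ' _
    have : ∀ i : {i // d i = δ'}, ((d i.1 : ℕ) : ℝ) = δ' := fun i => by rw [i.2]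
    simp only [this]
    simp
  have hSB : S - Bt ≤ (δ : ℝ) ^ 2 * (K * N) := by
    rw [hSsum, hBt, ← Finset.sum_sub_distrib]
    have h1 : ∀ δ' ∈ Finset.Icc 1 δ,
        (Fintype.card {i // d i = δ'} : ℝ) * δ' - A δ' ≤ (K * N : ℝ) * δ := by
      intro δ' hmem
      obtain ⟨_, h2⟩ := Finset.mem_Icc.mp hmem
      rw [hA]
      dsimp only
      split_ifs with hbig
      · rw [sub_self]
        positivity
      · rw [sub_zero]
        push Not at hbig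
        have e1 : (Fintype.card {i // d i = δ'} : ℝ) ≤ K * N := by exact_mod_cast hbig.le
        have e2 : (δ' : ℝ) ≤ δ := by exact_mod_cast h2
        exact mul_le_mul e1 e2 (Nat.cast_nonneg _) (by positivity)
    refine le_trans (Finset.sum_le_card_nsmul _ _ _ h1) ?_
    rw [Nat.card_Icc, nsmul_eq_mul]
    have : ((δ + 1 - 1 : ℕ) : ℝ) = δ := by simp
    rw [this]
    have : (δ : ℝ) * ((K * N : ℝ) * δ) = (δ : ℝ) ^ 2 * (K * N) := by ring
    linarith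
  have hScard : (Fintype.card ι : ℝ) ≤ S := by
    rw [hS]
    have h1 : ∑ i : ι, (1 : ℝ) ≤ ∑ i, (d i : ℝ) :=
      Finset.sum_le_sum fun i _ => by exact_mod_cast (hd i).1
    simpa using h1
  have hKδ : (δ : ℝ) ^ 2 * (K * N) ≤ ε / 2 * S := by
    rw [div_mul_eq_mul_div, div_le_iff₀ hε] at hcard2
    have : (Fintype.card ι : ℝ) * ε ≤ S * ε := mul_le_mul_of_nonneg_right hScard hε.le
    linarith
  have hBS : (1 - ε / 2) * S ≤ Bt := by linarith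
  have hS0 : 0 ≤ S := le_trans (Nat.cast_nonneg _) hScard
  have hW : 0 ≤ (1 - ε / 2) * Bt - (1 - ε) * S := by
    have h1 : (1 - ε / 2) * ((1 - ε / 2) * S) ≤ (1 - ε / 2) * Bt :=
      mul_le_mul_of_nonneg_left hBS (by linarith)
    have h2 : 0 ≤ ε ^ 2 / 4 * S := by positivity
    nlinarith
  refine ⟨∑ δ' ∈ Finset.Icc 1 δ, C δ' + ((1 - ε / 2) * Bt - (1 - ε) * S) * c1 / log 2,
    ⋃ δ' ∈ Finset.Icc 1 δ, E δ', ?_, ?_⟩
  · refine lt_of_le_of_lt (measure_biUnion_finset_le _ _) ?_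
    exact ENNReal.sum_lt_top.mpr fun δ' _ => hE δ'
  intro r hr hrE
  have hrE' : ∀ δ' ∈ Finset.Icc 1 δ, r ∉ E δ' := by
    intro δ' hmem h
    exact hrE (Set.mem_biUnion (Finset.mem_coe.mpr hmem) h)
  have hsum : (1 - ε / 2) * Bt * chi u r ≤
      ∑ i, N1 (fun z => eval (u z) (F i)) r + (∑ δ' ∈ Finset.Icc 1 δ, C δ') * log r := by
    rw [← w5_sum d δ hd (fun i => N1 (fun z => eval (u z) (F i)) r), hBt,
      Finset.mul_sum, Finset.sum_mul, Finset.sum_mul, ← Finset.sum_add_distrib]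
    exact Finset.sum_le_sum fun δ' hmem => hC δ' hmem r hr (hrE' δ' hmem)
  have hScast : ((∑ i, d i : ℕ) : ℝ) = S := by
    rw [hS]
    push_cast
    rfl
  rw [hScast]
  have hlog2 : 0 < log 2 := Real.log_pos (by norm_num)
  have hlogr : log 2 ≤ log r := Real.log_le_log (by norm_num) hr
  have hWc : ((1 - ε / 2) * Bt - (1 - ε) * S) * c1 ≤
      ((1 - ε / 2) * Bt - (1 - ε) * S) * c1 / log 2 * log r := by
    rw [div_mul_eq_mul_div, le_div_iff₀ hlog2]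
    exact mul_le_mul_of_nonneg_left hlogr (mul_nonneg hW hc1')
  have hchir := hchi r hr
  have h5 : ((1 - ε / 2) * Bt - (1 - ε) * S) * (-c1) ≤
      ((1 - ε / 2) * Bt - (1 - ε) * S) * chi u r :=
    mul_le_mul_of_nonneg_left hchir hW
  rw [add_mul]
  linarith

end Pool.Agent.H53N
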