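import Pool.Agent.Lib.H53N.B4
import Pool.Agent.Lib.H53S.G5

set_option autoImplicit false

/-!
H53N, CHUNK B5: covers.
-/

open MvPolynomial Module Real MeasureTheory
open Pool.Agent.H89.Sect Pool.Agent.H89.Arr

namespace Pool.Agent.H53N

open Pool.Agent.H67T Pool.Agent.H53S Pool.Agent.H53K

attribute [local instance] MvPolynomial.gradedAlgebra

/-- CHUNK B5 (M, copy).  Copy of `coversU` (Lib/H53S/G5.lean) with `smtIL (n + 1) δ (ε / 2)`.  New order of the quantifiers: `b, P` first, then `N` and the position.  (For `1 < ε` as there; `ι` is nonempty because `2 ≤ K`, `1 ≤ N`,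
`K * N ≤ card ι`.) -/
theorem coversL (n δ : ℕ) (ε : ℝ) (hε : 0 < ε) : ∃ K : ℕ, 2 ≤ K ∧ ∀ (ι : Type) [Fintype ι]
    (d : ι → ℕ) (F : ι → MvPolynomial (Fin (n + 1)) ℂ)
    (I : Ideal (MvPolynomial (Fin (n + 1)) ℂ)), I.IsPrime →
    I.IsHomogeneous (homogeneousSubmodule (Fin (n + 1)) ℂ) → (∀ i, 1 ≤ d i ∧ d i ≤ δ) →
    (∀ i, (F i).IsHomogeneous (d i)) → HypI I F →
    ∃ (b : ℕ) (P : MvPolynomial (Fin (n + 1)) ℂ), P.IsHomogeneous b ∧ P ∉ I ∧
      ∀ N : ℕ, 1 ≤ N → K * N ≤ Fintype.card ι →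
      (∀ y : Fin (n + 1) → ℂ, y ≠ 0 → (∀ G ∈ I, eval y G = 0) → ∀ s : Fin (N + 1) → ι,
        Function.Injective s → ∃ a, eval y (F (s a)) ≠ 0) →
      ∀ (m D : ℕ) (w : Fin m → ℕ) (J : Ideal (MvPolynomial (Fin m) ℂ))
      (f : Fin (n + 1) → MvPolynomial (Fin m) ℂ), WMapD w J D f → imageIdeal J f = I →
      ∀ (e a : ℕ) (R : MvPolynomial (Fin m) ℂ), 1 ≤ e → R.IsWeightedHomogeneous w a →
        (a : ℝ) ≤ e * ((1 - ε) * (∑ i, d i : ℕ) * D) →
        ∀ u : ℂ → Fin m → ℂ, IsHol u → (∀ z, ∀ G ∈ J, eval (u z) G = 0) →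
          (∃ z z', ∀ t : ℂ, u z' ≠ Pool.Agent.H89T.act w t (u z)) →
          (∀ (z : ℂ) (U : Finset ι), (∀ i ∈ U, eval (fun j => eval (u z) (f j)) (F i) = 0) →
            ((e * U.card : ℕ) : ℕ∞) ≤ analyticOrderAt (fun z => eval (u z) R) z) →
          ∀ z, eval (fun j => eval (u z) (f j)) P * eval (u z) R = 0 := by
  classical
  suffices hmain : ∃ K : ℕ, 2 ≤ K ∧ ∀ (ι : Type) [Fintype ι]
      (d : ι → ℕ) (F : ι → MvPolynomial (Fin (n + 1)) ℂ)
      (I : Ideal (MvPolynomial (Fin (n + 1)) ℂ)), I.IsPrime →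
      I.IsHomogeneous (homogeneousSubmodule (Fin (n + 1)) ℂ) → (∀ i, 1 ≤ d i ∧ d i ≤ δ) →
      (∀ i, (F i).IsHomogeneous (d i)) → HypI I F →
      ∃ P : MvPolynomial (Fin (n + 1)) ℂ, P ∉ I ∧
        ∀ N : ℕ, 1 ≤ N → K * N ≤ Fintype.card ι →
        (∀ y : Fin (n + 1) → ℂ, y ≠ 0 → (∀ G ∈ I, eval y G = 0) → ∀ s : Fin (N + 1) → ι,
          Function.Injective s → ∃ a, eval y (F (s a)) ≠ 0) →
        ∀ (m D : ℕ) (w : Fin m → ℕ) (J : Ideal (MvPolynomial (Fin m) ℂ))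
        (f : Fin (n + 1) → MvPolynomial (Fin m) ℂ), WMapD w J D f → imageIdeal J f = I →
        ∀ (e a : ℕ) (R : MvPolynomial (Fin m) ℂ), 1 ≤ e → R.IsWeightedHomogeneous w a →
          (a : ℝ) ≤ e * ((1 - ε) * (∑ i, d i : ℕ) * D) →
          ∀ u : ℂ → Fin m → ℂ, IsHol u → (∀ z, ∀ G ∈ J, eval (u z) G = 0) →
            (∃ z z', ∀ t : ℂ, u z' ≠ Pool.Agent.H89T.act w t (u z)) →
            (∀ (z : ℂ) (U : Finset ι), (∀ i ∈ U, eval (fun j => eval (u z) (f j)) (F i) = 0) →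
              ((e * U.card : ℕ) : ℕ∞) ≤ analyticOrderAt (fun z => eval (u z) R) z) →
            ∀ z, eval (u z) (aeval f P * R) = 0 by
    obtain ⟨K, hK, h⟩ := hmain
    refine ⟨K, hK, fun ι _ d F I hIp hIh hd hF hI => ?_⟩
    obtain ⟨P, hP, hcov⟩ := h ι d F I hIp hIh hd hF hI
    obtain ⟨b, hb⟩ : ∃ b, homogeneousComponent b P ∉ I := by
      by_contra hcon
      push Not at hcon
      apply hP
      rw [← sum_homogeneousComponent P]
      exact Ideal.sum_mem _ fun b _ => hcon b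
    refine ⟨b, homogeneousComponent b P, homogeneousComponent_isHomogeneous b P, hb, ?_⟩
    intro N hN hcard hpos m D w J f hX hJI
    exact covers_component hX hF (hcov N hN hcard hpos m D w J f hX hJI) b
  have hone : ∀ {K N c : ℕ}, 2 ≤ K → 1 ≤ N → K * N ≤ c → 0 < c := by
    intro K N c h1 h2 h3
    have h4 : 2 * 1 ≤ K * N := Nat.mul_le_mul h1 h2
    omega
  rcases lt_or_ge 1 ε with hε1 | hε1
  · refine ⟨2, le_rfl, fun ι _ d F I hIp hIh hd hF hI => ⟨1, ?_, ?_⟩⟩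
    · intro h
      exact hIp.ne_top ((Ideal.eq_top_iff_one _).2 h)
    · intro N hN hcard hpos m D w J f hX hJI e a R he hR ha
      exfalso
      have h1 : (1 : ℝ) ≤ (∑ i, d i : ℕ) := by
        obtain ⟨i⟩ : Nonempty ι := Fintype.card_pos_iff.1 (hone le_rfl hN hcard)
        have h2 : d i ≤ ∑ i, d i := Finset.single_le_sum (fun j _ => Nat.zero_le _) (Finset.mem_univ i)
        have h3 := (hd i).1
        exact_mod_cast h3.trans h2
      have h2 : (1 : ℝ) ≤ D := by exact_mod_cast hX.pos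
      have h3 : (1 : ℝ) ≤ e := by exact_mod_cast he
      have h4 : (0 : ℝ) ≤ a := Nat.cast_nonneg a
      have h5 : 0 < (e : ℝ) * ((ε - 1) * (∑ i, d i : ℕ) * D) := by
        have : 0 < ε - 1 := by linarith
        positivity
      have h6 : (e : ℝ) * ((1 - ε) * (∑ i, d i : ℕ) * D) = -((e : ℝ) * ((ε - 1) * (∑ i, d i : ℕ) * D)) := by
        ring
      linarith
  obtain ⟨K, hK2, hK⟩ := smtIL (n + 1) δ (ε / 2) (by linarith) (by linarith)
  refine ⟨K, hK2, fun ι _ d F I hIp hIh hd hF hI => ?_⟩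
  obtain ⟨P₀, hP₀, hsmt⟩ := hK ι d F I hIp hIh hd hF hI
  refine ⟨P₀ * ∏ i, F i, ?_, ?_⟩
  · intro h
    rcases hIp.mem_or_mem h with h1 | h1
    · exact hP₀ h1
    · obtain ⟨i, _, hi⟩ := hIp.prod_mem_iff.1 h1
      exact hI.nonzero i hi
  · intro N hN hcard hpos m D w J f hX hJI e a R he hR ha u hu huJ hnc hord z₁
    have hfI : ∀ x : Fin m → ℂ, (∀ G ∈ J, eval x G = 0) →
        ∀ G ∈ I, eval (fun j => eval x (f j)) G = 0 := by
      intro x hxJ G hG
      rw [← hJI] at hG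
      rw [← G2_eval]
      exact hxJ _ (mem_imageIdeal.mp hG)
    have hposX : PosX N J f F := by
      intro x hx hxJ s hs
      refine hpos _ ?_ (hfI x hxJ) s hs
      obtain ⟨j, hj⟩ := hX.free x hx hxJ
      exact fun h => hj (congrFun h j)
    have hB : (1 : ℝ) ≤ (∑ i, d i : ℕ) := by
      obtain ⟨i⟩ : Nonempty ι := Fintype.card_pos_iff.1 (hone hK2 hN hcard)
      have h2 : d i ≤ ∑ i, d i := Finset.single_le_sum (fun j _ => Nat.zero_le _) (Finset.mem_univ i)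
      have h3 := (hd i).1
      exact_mod_cast h3.trans h2
    refine cov_eq_zeroS (ε := ε / 2) (κ := (1 - ε) * (∑ i, d i : ℕ)) (B := (∑ i, d i : ℕ)) he ?_ hX
      ?_ hR ha hu huJ hord hnc z₁
    · nlinarith
    · intro v hv hvJ hvP
      have hyh : IsHol fun z j => eval (v z) (f j) := by
        refine ⟨fun j => differentiable_eval hv.diff (f j), fun z h => ?_⟩
        obtain ⟨j, hj⟩ := hX.free (v z) (hv.ne_zero z) (hvJ z)
        exact hj (congrFun h j)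
      have hyI : ∀ z, ∀ G ∈ I, eval (fun j => eval (v z) (f j)) G = 0 := fun z =>
        hfI (v z) (hvJ z)
      obtain ⟨z₀, hz₀⟩ := hvP
      rw [map_mul, map_prod] at hz₀
      refine ⟨fun i => ⟨z₀, fun h => ?_⟩, ?_⟩
      · exact hz₀ (mul_eq_zero_of_right _ (Finset.prod_eq_zero (Finset.mem_univ i) h))
      · obtain ⟨c, hc, hcb⟩ := posX_bound hX hF hposX
        exact hsmt _ hyh hyI ⟨z₀, left_ne_zero_of_mul hz₀⟩ N hN hcard
          ⟨c, hc, fun s hs z => hcb s hs (v z) (hv.ne_zero z) (hvJ z)⟩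

end Pool.Agent.H53N
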