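import Pool.Agent.Lib.H53N.B5

set_option autoImplicit false

/-!
H53N, CHUNK B6: covers, all subfamilies.
-/

open MvPolynomial Module Real MeasureTheory
open Pool.Agent.H89.Sect Pool.Agent.H89.Arr

namespace Pool.Agent.H53N

open Pool.Agent.H67T Pool.Agent.H53S Pool.Agent.H53K

attribute [local instance] MvPolynomial.gradedAlgebra

/-- CHUNK B6 (S/M).  PROOF.  `coversL` for the subtypes `{i // i ∈ S}` (`HypI` restricts: `w5_hyp`, Lib/H53S/W5), `P` = the product over all `S : Finset (Fin k)` of the `P S`, `b` = the sum; `P ∉ I` (prime).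
`Fintype.card {i // i ∈ S} = S.card` (`Fintype.card_coe`), `∑ i : S, d i = ∑ i ∈ S, d i` (`Finset.sum_coe_sort`).  For given `S`: `P S (f (u z)) * R (u z) = 0` implies the claim.  Position: an injective
`s : Fin (N + 1) → {i // i ∈ S}` gives `N + 1` elements of `{i | i ∈ S ∧ eval y (F i) = 0}` if all vanish.  Orders: a finset `U` of the subtype on which the forms vanish has
`U.card ≤ Nat.card {i // i ∈ S ∧ eval .. (F i) = 0}`. -/
theorem coversS (n δ : ℕ) (ε : ℝ) (hε : 0 < ε) : ∃ K : ℕ, 2 ≤ K ∧ ∀ (k : ℕ)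
    (d : Fin k → ℕ) (F : Fin k → MvPolynomial (Fin (n + 1)) ℂ)
    (I : Ideal (MvPolynomial (Fin (n + 1)) ℂ)), I.IsPrime →
    I.IsHomogeneous (homogeneousSubmodule (Fin (n + 1)) ℂ) → (∀ i, 1 ≤ d i ∧ d i ≤ δ) →
    (∀ i, (F i).IsHomogeneous (d i)) → HypI I F →
    ∃ (b : ℕ) (P : MvPolynomial (Fin (n + 1)) ℂ), P.IsHomogeneous b ∧ P ∉ I ∧
      ∀ (S : Finset (Fin k)) (N : ℕ), 1 ≤ N → K * N ≤ S.card →
      (∀ y : Fin (n + 1) → ℂ, y ≠ 0 → (∀ G ∈ I, eval y G = 0) →
        Nat.card {i // i ∈ S ∧ eval y (F i) = 0} ≤ N) →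
      ∀ (m D : ℕ) (w : Fin m → ℕ) (J : Ideal (MvPolynomial (Fin m) ℂ))
      (f : Fin (n + 1) → MvPolynomial (Fin m) ℂ), WMapD w J D f → imageIdeal J f = I →
      ∀ (e a : ℕ) (R : MvPolynomial (Fin m) ℂ), 1 ≤ e → R.IsWeightedHomogeneous w a →
        (a : ℝ) ≤ e * ((1 - ε) * (∑ i ∈ S, d i : ℕ) * D) →
        ∀ u : ℂ → Fin m → ℂ, IsHol u → (∀ z, ∀ G ∈ J, eval (u z) G = 0) →
          (∃ z z', ∀ t : ℂ, u z' ≠ Pool.Agent.H89T.act w t (u z)) →
          (∀ z : ℂ, ((e * Nat.card {i // i ∈ S ∧ eval (fun j => eval (u z) (f j)) (F i) = 0} : ℕ) : ℕ∞) ≤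
            analyticOrderAt (fun z => eval (u z) R) z) →
          ∀ z, eval (fun j => eval (u z) (f j)) P * eval (u z) R = 0 := by
  obtain ⟨K, hK2, hK⟩ := coversL n δ ε hε
  refine ⟨K, hK2, ?_⟩
  intro k d F I hI hIh hd hF hHyp
  have key := fun S : Finset (Fin k) => hK {i // i ∈ S} (fun i => d i.1) (fun i => F i.1) I hI hIh
    (fun i => hd i.1) (fun i => hF i.1) (w5_hyp hHyp fun i => i ∈ S)
  choose b P hP hPI hmain using key
  refine ⟨∑ S, b S, ∏ S, P S, MvPolynomial.IsHomogeneous.prod _ _ _ fun S _ => hP S, ?_, ?_⟩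
  · intro hmem
    obtain ⟨S, -, hS⟩ := hI.prod_mem_iff.1 hmem
    exact hPI S hS
  intro S N hN hKN hpos m D w J f hf hJ e a R he hR ha u hu huJ hu2 hord z
  have h := hmain S N hN (by rw [Fintype.card_coe]; exact hKN) ?_ m D w J f hf hJ e a R he hR ?_ u hu huJ hu2 ?_ z
  · rw [map_prod]
    rcases mul_eq_zero.1 h with h1 | h1
    · rw [Finset.prod_eq_zero (Finset.mem_univ S) h1, zero_mul]
    · rw [h1, mul_zero]
  · intro y hy hyI s hs
    by_contra hcon
    push Not at hcon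
    have h1 : Function.Injective (fun a : Fin (N + 1) =>
        (⟨(s a).1, (s a).2, hcon a⟩ : {i // i ∈ S ∧ eval y (F i) = 0})) := by
      intro a a' haa
      exact hs (Subtype.ext (congrArg (fun t : {i // i ∈ S ∧ eval y (F i) = 0} => t.1) haa))
    have h2 := Nat.card_le_card_of_injective _ h1
    rw [Nat.card_eq_fintype_card, Fintype.card_fin] at h2
    have h3 := hpos y hy hyI
    omega
  · rw [Finset.sum_coe_sort S d]
    exact ha
  · intro z U hU
    refine le_trans ?_ (hord z)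
    have h1 : Function.Injective (fun t : U =>
        (⟨t.1.1, t.1.2, hU t.1 t.2⟩ :
          {i // i ∈ S ∧ eval (fun j => eval (u z) (f j)) (F i) = 0})) := by
      intro t t' htt
      exact Subtype.ext (Subtype.ext (congrArg
        (fun t : {i // i ∈ S ∧ eval (fun j => eval (u z) (f j)) (F i) = 0} => t.1) htt))
    have h2 := Nat.card_le_card_of_injective _ h1
    rw [Nat.card_eq_fintype_card, Fintype.card_coe] at h2
    exact_mod_cast Nat.mul_le_mul_left e h2

end Pool.Agent.H53N
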