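import Pool.Agent.Lib.H94M.TE
import Pool.Agent.Lib.H53M.KR

/-!
# H53N: Theorem S for sparse good primes, for the square of a series of arbitrary weight

If the reductions of `h` are modular forms modulo `p` of weight `v + (p - 1) A` (`v` of any parity) then `h²` is
algebraically dependent on `E₂` over the level one forms, isobarically (`Rel v (h²)`).
-/

open Finset

namespace H53N

open PowerSeries H53M H94M

theorem sq_growth (h : PowerSeries ℚ) (C : ℝ) (κ : ℕ)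
    (hC : ∀ n, |((coeff n h : ℚ) : ℝ)| ≤ C * ((n : ℝ) + 1) ^ κ) (n : ℕ) :
    |((coeff n (h ^ 2) : ℚ) : ℝ)| ≤ C ^ 2 * ((n : ℝ) + 1) ^ (2 * κ + 1) := by
  have hC0 : 0 ≤ C := by
    have := (abs_nonneg _).trans (hC 0)
    simpa using this
  have hn : (0 : ℝ) ≤ n := Nat.cast_nonneg n
  rw [pow_two, coeff_mul, Rat.cast_sum]
  refine (Finset.abs_sum_le_sum_abs _ _).trans ?_
  have h1 : ∀ x ∈ HasAntidiagonal.antidiagonal n,
      |(((coeff x.1 h * coeff x.2 h : ℚ)) : ℝ)| ≤ C ^ 2 * ((n : ℝ) + 1) ^ (2 * κ) := by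
    intro x hx
    have hx' := HasAntidiagonal.mem_antidiagonal.1 hx
    have hb : ∀ m : ℕ, m ≤ n → |((coeff m h : ℚ) : ℝ)| ≤ C * ((n : ℝ) + 1) ^ κ := by
      intro m hm
      have hm' : (m : ℝ) ≤ n := by exact_mod_cast hm
      have hm0 : (0 : ℝ) ≤ m := Nat.cast_nonneg m
      exact (hC m).trans (mul_le_mul_of_nonneg_left
        (pow_le_pow_left₀ (by linarith) (by linarith) _) hC0)
    rw [Rat.cast_mul, abs_mul]
    calc _ ≤ (C * ((n : ℝ) + 1) ^ κ) * (C * ((n : ℝ) + 1) ^ κ) :=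
          mul_le_mul (hb _ (by omega)) (hb _ (by omega)) (abs_nonneg _) (by positivity)
      _ = _ := by ring
  refine (Finset.sum_le_card_nsmul _ _ _ h1).trans (le_of_eq ?_)
  rw [Finset.Nat.card_antidiagonal, nsmul_eq_mul]
  push_cast
  ring

theorem DG_mono (E : ℕ → Prop) [DecidablePred E] (B d : ℕ) {a n : ℕ} (h : a ≤ n) :
    DG E B d a ∣ DG E B d n := by
  induction n, h using Nat.le_induction with
  | base => exact dvd_rfl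
  | succ n _ ih => exact ih.trans (DG_dvd E B d n)

theorem sq_den (E : ℕ → Prop) [DecidablePred E] (B d : ℕ) (h : PowerSeries ℚ)
    (hh : ∀ n, ∃ z : ℤ, (DG E B d n : ℚ) * coeff n h = z) (n : ℕ) :
    ∃ z : ℤ, ((DG E B d n ^ 2 : ℕ) : ℚ) * coeff n (h ^ 2) = z := by
  have h1 : ∀ m ≤ n, ∃ z : ℤ, (DG E B d n : ℚ) * coeff m h = z := by
    intro m hm
    obtain ⟨z, hz⟩ := hh m
    obtain ⟨q, hq⟩ := DG_mono E B d hm
    refine ⟨q * z, ?_⟩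
    rw [hq]
    push_cast
    rw [← hz]
    ring
  choose! f hf using h1
  refine ⟨∑ x ∈ HasAntidiagonal.antidiagonal n, f x.1 * f x.2, ?_⟩
  rw [pow_two h, coeff_mul, Finset.mul_sum, Int.cast_sum]
  refine Finset.sum_congr rfl fun x hx => ?_
  have hx' := HasAntidiagonal.mem_antidiagonal.1 hx
  rw [Int.cast_mul, ← hf x.1 (by omega), ← hf x.2 (by omega)]
  push_cast
  ring

/-- **Theorem S for sparse good primes.** -/
theorem rel_sparse_sq (d B v A : ℕ) (hd : 1 ≤ d) (hB : 1 ≤ B) (hA : 1 ≤ A) (h : PowerSeries ℚ)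
    (C : ℝ) (κ : ℕ) (hC : ∀ n, |((coeff n h : ℚ) : ℝ)| ≤ C * ((n : ℝ) + 1) ^ κ)
    (E : ℕ → Prop) (δ : ℝ) (hδ : 0 < δ) (hδ1 : δ ≤ 1)
    (hE : ∃ X₀ : ℕ, ∀ X ≥ X₀,
      (Set.ncard {p : ℕ | p ≤ X ∧ p.Prime ∧ E p} : ℝ) ≤ (X : ℝ) ^ ((1 - δ) / (d : ℝ)))
    (hden : ∀ n p : ℕ, p.Prime → p ^ padicValNat p (coeff n h).den ≤ B * (n + 1) ^ d)
    (hint : ∀ p : ℕ, p.Prime → ¬ E p → ∀ n, ¬ p ∣ (coeff n h).den)
    (R : ℕ → Prop)
    (hR : ∀ η : ℝ, 0 < η → ∃ X₀ : ℕ, ∀ X ≥ X₀, (X : ℝ) ^ (1 - η) ≤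
      ∑ᶠ p ∈ {p : ℕ | p ≤ X ∧ p.Prime ∧ R p}, Real.log p)
    (p₀ μ s : ℕ) (hμ : 1 ≤ μ)
    (hr : ∀ p [Fact p.Prime], 3 < p → p₀ < p → R p → ¬ E p →
      ∃ M : ℕ → Submodule (ZMod p) (PowerSeries (ZMod p)),
        MFam p μ s M ∧ redQ p h ∈ M (v + (p - 1) * A)) :
    Rel v (h ^ 2) := by
  classical
  have hset : ∀ (Q : ℕ → Prop) (X : ℕ), {p : ℕ | p ≤ X ∧ p.Prime ∧ Q p} =
      (((range (X + 1)).filter (fun p => p.Prime ∧ Q p) : Finset ℕ) : Set ℕ) := by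
    intro Q X
    ext p
    simp only [Set.mem_ofPred_eq, coe_filter, mem_range]
    constructor
    · rintro ⟨a, b⟩
      exact ⟨by omega, b⟩
    · rintro ⟨a, b⟩
      exact ⟨by omega, b⟩
  have hE' : ∃ X₀ : ℕ, ∀ X ≥ X₀,
      (((range (X + 1)).filter (fun p => p.Prime ∧ E p)).card : ℝ) ≤
        (X : ℝ) ^ ((1 - δ) / (d : ℝ)) := by
    obtain ⟨X₀, h⟩ := hE
    refine ⟨X₀, fun X hX => ?_⟩
    have h1 := h X hX
    rw [hset E X, Set.ncard_coe_finset] at h1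
    exact h1
  have hR' : ∀ η : ℝ, 0 < η → ∃ X₀ : ℕ, ∀ X ≥ X₀, (X : ℝ) ^ (1 - η) ≤
      ∑ p ∈ (range (X + 1)).filter (fun p => p.Prime ∧ R p), Real.log p := by
    intro η hη
    obtain ⟨X₀, h⟩ := hR η hη
    refine ⟨X₀, fun X hX => ?_⟩
    have h1 := h X hX
    rw [hset R X, finsum_mem_coe_finset] at h1
    exact h1
  obtain ⟨K, hK, hD⟩ := log_DG_sparse E B d hB hd δ hδ hδ1 hE'
  obtain ⟨k, hk⟩ := exists_nat_ge (4 / (δ / 2))
  rw [div_le_iff₀ (by positivity)] at hk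
  obtain ⟨X₀, hX₀⟩ := GG_sparse E R p₀ d hd δ hδ hδ1 hE' hR' (etaK k) (etaK_pos k)
  have hD' : ∀ n : ℕ, Real.log ((DG E B d n ^ 2 : ℕ) : ℝ) ≤ 2 * K * ((n : ℝ) + 1) ^ (1 - δ / 2) := by
    intro n
    push_cast
    rw [Real.log_pow]
    have := hD n
    push_cast
    linarith
  refine thmS_core v (2 * A) (by omega) (h ^ 2) (C ^ 2) (2 * κ + 1) (sq_growth h C κ hC)
    (fun n => DG E B d n ^ 2) (fun n => Nat.pow_pos (DG_pos E B d n))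
    (fun n => pow_dvd_pow_of_dvd (DG_dvd E B d n) 2)
    (sq_den E B d h fun n => DG_den E B d n _ (hden n) (fun p hp hEp => hint p hp hEp n))
    (GG E R p₀) (fun p hp => ⟨hp.1, hp.2.1⟩)
    (fun X => (X : ℝ) ^ (1 - etaK k)) X₀ hX₀ ?_ μ s hμ ?_
    (fun C4 hC4 => numeric_sparse v (2 * A) μ s X₀ (by omega) hμ (fun n => DG E B d n ^ 2) k (δ / 2)
      (2 * K) (by linarith) hk (by linarith) hD' C4 hC4)
  · intro p hp
    have : Fact p.Prime := ⟨hp.1⟩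
    have h1 : PI p h := hint p hp.1 hp.2.2.2.2
    exact PI_pow h1 2
  · intro p _ hp
    obtain ⟨M, hM, hMh⟩ := hr p hp.2.1 hp.2.2.1 hp.2.2.2.1 hp.2.2.2.2
    refine ⟨M, hM, ?_⟩
    have h1 : PI p h := hint p hp.1 hp.2.2.2.2
    have h2 := hM.mul _ _ _ _ hMh hMh
    rw [kredQ_pow h1, pow_two]
    have e : 2 * v + (p - 1) * (2 * A) = v + (p - 1) * A + (v + (p - 1) * A) := by ring
    rw [e]
    exact h2

/-- `rel_sparse_sq` with the hypothesis `ncard ≤ K X^η`, `η < 1/d`, on the exceptional set. -/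
theorem rel_sparse_sq_eta (d B v A : ℕ) (hd : 1 ≤ d) (hB : 1 ≤ B) (hA : 1 ≤ A) (h : PowerSeries ℚ)
    (C : ℝ) (κ : ℕ) (hC : ∀ n, |((coeff n h : ℚ) : ℝ)| ≤ C * ((n : ℝ) + 1) ^ κ)
    (E : ℕ → Prop) (η K : ℝ) (hη : η < 1 / (d : ℝ))
    (hE : ∃ X₀ : ℕ, ∀ X ≥ X₀,
      (Set.ncard {p : ℕ | p ≤ X ∧ p.Prime ∧ E p} : ℝ) ≤ K * (X : ℝ) ^ η)
    (hden : ∀ n p : ℕ, p.Prime → p ^ padicValNat p (coeff n h).den ≤ B * (n + 1) ^ d)
    (hint : ∀ p : ℕ, p.Prime → ¬ E p → ∀ n, ¬ p ∣ (coeff n h).den)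
    (R : ℕ → Prop)
    (hR : ∀ η : ℝ, 0 < η → ∃ X₀ : ℕ, ∀ X ≥ X₀, (X : ℝ) ^ (1 - η) ≤
      ∑ᶠ p ∈ {p : ℕ | p ≤ X ∧ p.Prime ∧ R p}, Real.log p)
    (p₀ μ s : ℕ) (hμ : 1 ≤ μ)
    (hr : ∀ p [Fact p.Prime], 3 < p → p₀ < p → R p → ¬ E p →
      ∃ M : ℕ → Submodule (ZMod p) (PowerSeries (ZMod p)),
        MFam p μ s M ∧ redQ p h ∈ M (v + (p - 1) * A)) :
    Rel v (h ^ 2) := by
  have hd0 : (0 : ℝ) < d := by exact_mod_cast hd
  obtain ⟨δ, hδ⟩ : ∃ δ : ℝ, δ = min ((1 - d * η) / 2) (1 / 2) := ⟨_, rfl⟩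
  have h1 : 0 < 1 - d * η := by
    rw [lt_div_iff₀ hd0] at hη
    linarith
  have hδ0 : 0 < δ := by
    rw [hδ]
    exact lt_min (by linarith) (by norm_num)
  have hδ1 : δ ≤ 1 / 2 := by
    rw [hδ]
    exact min_le_right _ _
  have hδ2 : δ ≤ (1 - d * η) / 2 := by
    rw [hδ]
    exact min_le_left _ _
  refine rel_sparse_sq d B v A hd hB hA h C κ hC E δ hδ0 (by linarith) ?_ hden hint R hR p₀ μ s hμ hr
  obtain ⟨X₁, h2⟩ := hE
  have h3 : η < (1 - δ) / d := by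
    rw [lt_div_iff₀ hd0]
    linarith
  have h4 : 0 < (1 - δ) / (d : ℝ) := div_pos (by linarith) hd0
  obtain ⟨b, hb⟩ : ∃ b : ℝ, b = (max η 0 + (1 - δ) / d) / 2 := ⟨_, rfl⟩
  have hm : max η 0 < (1 - δ) / (d : ℝ) := max_lt h3 h4
  -- `K X^η ≤ X^η log X ≤ X^((1-δ)/d)` for `X` large
  obtain ⟨X₂, h5⟩ := rpow_cmp (-1) η ((1 - δ) / d) 0 (by linarith) h3 h4
  obtain ⟨X₃, h6⟩ := exists_nat_ge (Real.exp K)
  refine ⟨max (max X₁ X₂) (max X₃ 1), fun X hX => ?_⟩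
  have hX1 : X₁ ≤ X := le_trans (le_trans (le_max_left _ _) (le_max_left _ _)) hX
  have hX2 : X₂ ≤ X := le_trans (le_trans (le_max_right _ _) (le_max_left _ _)) hX
  have hX3 : X₃ ≤ X := le_trans (le_trans (le_max_left _ _) (le_max_right _ _)) hX
  have a1 := h2 X hX1
  have a2 := h5 X hX2
  have a3 : K ≤ Real.log X := by
    have a4 : Real.exp K ≤ X := h6.trans (by exact_mod_cast hX3)
    exact (Real.le_log_iff_exp_le (lt_of_lt_of_le (Real.exp_pos _) a4)).2 a4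
  have a4 : 0 ≤ (X : ℝ) ^ (-1 : ℝ) := Real.rpow_nonneg (Nat.cast_nonneg _) _
  have a5 : 0 ≤ (X : ℝ) ^ η := Real.rpow_nonneg (Nat.cast_nonneg _) _
  have a6 : K * (X : ℝ) ^ η ≤ (X : ℝ) ^ η * Real.log X := by
    rw [mul_comm]
    exact mul_le_mul_of_nonneg_left a3 a5
  linarith


end H53N
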