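import Pool.Agent.Lib.H36H.NB
import Pool.Agent.Lib.H53N.S
import Pool.Agent.Lib.H53N.K

/-!
# H53N: Theorem S for the square of the series `hs`, for the diagonal `Γ₁(N)`

A copy of the end of the module N of H36H. The weight `d k + 2 d - 4` of `hs` may be odd, so the
relation is obtained for the square of `hs`.
-/

open NumberField PowerSeries H53M H94M H53N

namespace H36H

variable {F : Type*} [Field F] [NumberField F] [IsTotallyReal F]

/-- **Module N**: the relation. -/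
theorem relH1 (hd : 1 < Module.finrank ℚ F) (k N : ℕ) [NeZero N] (hk : 3 ≤ k)
    (A : KArr (F →+* ℝ) (TotPos F)) (hnu : ∀ ξ φ, A.nu ξ φ = φ ξ.1) (hT : DTransI1 N k A.G)
    (v : ℕ) (hw : v + 4 = Module.finrank ℚ F * k + 2 * Module.finrank ℚ F)
    (η K : ℝ) (hη : η < 1 / (Module.finrank ℚ F : ℝ))
    (hE : ∀ X : ℕ, (Set.ncard {p : ℕ | p ≤ X ∧ p.Prime ∧
      ¬ ∀ ξ : TotPos F, (p : ℤ) ^ omegaP p (Ideal.span {ξ.1}) ∣ A.c ξ} : ℝ) ≤ K * (X : ℝ) ^ η) :
    Rel v (A.hs ^ 2) := by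
  classical
  obtain ⟨d, hdd⟩ : ∃ d, d = Module.finrank ℚ F := ⟨_, rfl⟩
  rw [← hdd] at hd hw hη
  have hcard : Fintype.card (F →+* ℝ) = d := by rw [na_card, hdd]
  obtain ⟨C, κ, hC⟩ := nb_growth A
  have hI0 : ∀ ξ : TotPos F, (Ideal.span {ξ.1} : Ideal (𝓞 F)) ≠ 0 := by
    intro ξ
    rw [Ne, Ideal.zero_eq_bot, Ideal.span_singleton_eq_bot]
    exact nb_ne ξ
  have hint : ∀ p : ℕ, p.Prime →
      ¬ (¬ ∀ ξ : TotPos F, (p : ℤ) ^ omegaP p (Ideal.span {ξ.1}) ∣ A.c ξ) →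
      ∀ ξ : TotPos F, ¬ p ∣ ((A.c ξ * A.q2 ξ : ℚ) / A.nm ξ).den := by
    intro p hp hEp ξ
    rw [not_not] at hEp
    obtain ⟨m, z, hm, hz, -⟩ := nb_key A hnu ξ hp 0 (hEp ξ)
      (omega_norm p (0 + 1) (fun P hP hpP => by
        rw [zero_add, pow_one]
        exact dvd_absNorm hp hP hpP) _ (hI0 ξ))
    exact nb_den_of hp hm hz
  refine rel_sparse_sq_eta d 1 v (2 * d + k - 3) (by omega) le_rfl (by omega) A.hs C κ hC
    (fun p => ¬ ∀ ξ : TotPos F, (p : ℤ) ^ omegaP p (Ideal.span {ξ.1}) ∣ A.c ξ) η K hη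
    ⟨0, fun X _ => hE X⟩ ?_ ?_ (fun p => Pool.Agent.Lib.H59.degOne F p = 0)
    (fun η hη => noDegOne_theta F (by rw [← hdd]; exact hd) η hη) (max 5 d) (12 * (mu1 N + 1)) 0
    (by omega) ?_
  · intro n p hp
    have h := nb_den A n p hp
    rwa [hcard] at h
  · intro p hp hEp n
    haveI : Fact p.Prime := ⟨hp⟩
    have h : PI p A.hs := by
      intro n
      unfold KArr.hs
      rw [coeff_mk]
      exact pi_sum _ _ fun ξ _ => hint p hp hEp ξ
    exact h n
  · intro p hpf hp3 hp0 hR hEp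
    have hp : p.Prime := hpf.out
    have hp5 : 5 < p := lt_of_le_of_lt (le_max_left _ _) hp0
    have hpd : d < p := lt_of_le_of_lt (le_max_right _ _) hp0
    refine ⟨fun w => MN1 N p w, mfam_MN1 N p, ?_⟩
    have h := A.hs_MN1 hk hT p hp5 (by rw [hcard]; exact hpd) ?_
    · have e : d * k + 2 * d - 4 = v := by omega
      rw [hcard, e] at h
      exact h
    · intro ξ hpnm
      rw [not_not] at hEp
      obtain ⟨m, z, hm, hz, hzd⟩ := nb_key A hnu ξ hp 1 (hEp ξ)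
        (omega_norm p (1 + 1) (fun P hP hpP => sq_dvd_norm hp hR P hP hpP) _ (hI0 ξ))
      have hω : 1 ≤ omegaP p (Ideal.span {ξ.1}) := by
        refine omega_pos hp _ (hI0 ξ) ?_
        rw [Ideal.absNorm_span_singleton, ← nb_nm A hnu ξ]
        exact Int.natCast_dvd.1 hpnm
      refine nb_num_of hp hm hz ?_
      rw [pow_one] at hzd
      exact (dvd_pow_self _ (by omega)).trans hzd

end H36H
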