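import Pool.Agent.Lib.H36H.AF
import Pool.Agent.Lib.H53N.N
import Pool.Agent.Lib.H53N.X

set_option autoImplicit false

/-!
# H53N: Hilbert cusp forms for `Γ₁(𝔫)`

`IsHilbertCusp1`, `IsDiagCusp1` : copies of the definitions of the module W2 of H36H, with the
invariance under `Γ₁(𝔫)` only (so for forms with an arbitrary nebentypus), and copies of the lemmas
of W2, IN3, G3, G4, G6, G7, XUN and AS of H36H about them.
-/

open NumberField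

namespace H36H

section Series

variable {F : Type*} [Field F] [NumberField F]

/-- The series with coefficients `a` is a cusp form of parallel weight `k` for the group of the
determinant one matrices `(A B; C D)` with `A, D` integral, `B` in the inverse different, `C` in
`𝔫` times the different and `D - 1` in `𝔫` (the group `Γ₁(𝔫)`). -/
structure IsHilbertCusp1 (k : ℕ) (𝔫 : Ideal (𝓞 F)) (a : 𝓞 F → ℂ) : Prop where
  summable : ∀ z : (F →+* ℝ) → ℂ, (∀ φ, 0 < (z φ).im) → Summable (fterm a z)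
  modular : ∀ A B C D : F, IsIntegral ℤ A → IsIntegral ℤ D →
    (∀ x : 𝓞 F, ∃ n : ℤ, Algebra.trace ℚ F (B * x) = n) →
    (∃ c ∈ 𝔫 * differentIdeal ℤ (𝓞 F), (c : F) = C) → (∃ e ∈ 𝔫, (e : F) = D - 1) →
    A * D - B * C = 1 →
    ∀ z : (F →+* ℝ) → ℂ, (∀ φ, 0 < (z φ).im) →
      fser a (fun φ => ((φ A : ℂ) * z φ + (φ B : ℂ)) / ((φ C : ℂ) * z φ + (φ D : ℂ))) =
        (∏ φ : F →+* ℝ, ((φ C : ℂ) * z φ + (φ D : ℂ))) ^ k * fser a z
  bounded : ∃ M : ℝ, ∀ z : (F →+* ℝ) → ℂ, (∀ φ, 0 < (z φ).im) →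
    ‖fser a z‖ * ∏ φ : F →+* ℝ, ((z φ).im) ^ ((k : ℝ) / 2) ≤ M

/-- The series with coefficients `a` converges absolutely, transforms with parallel weight `k` under the
diagonal action of `Γ₁(N)`, and `|f (z)| ∏ (Im z_φ) ^ (k / 2)` is bounded. -/
structure IsDiagCusp1 (N k : ℕ) (a : 𝓞 F → ℂ) : Prop where
  summable : ∀ z : (F →+* ℝ) → ℂ, (∀ φ, 0 < (z φ).im) → Summable (fterm a z)
  modular : ∀ A B C D : ℤ, (N : ℤ) ∣ C → (N : ℤ) ∣ D - 1 → A * D - B * C = 1 →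
    ∀ z : (F →+* ℝ) → ℂ, (∀ φ, 0 < (z φ).im) →
      fser a (fun φ => ((A : ℂ) * z φ + (B : ℂ)) / ((C : ℂ) * z φ + (D : ℂ))) =
        (∏ φ : F →+* ℝ, ((C : ℂ) * z φ + (D : ℂ))) ^ k * fser a z
  bounded : ∃ M : ℝ, ∀ z : (F →+* ℝ) → ℂ, (∀ φ, 0 < (z φ).im) →
    ‖fser a z‖ * ∏ φ : F →+* ℝ, ((z φ).im) ^ ((k : ℝ) / 2) ≤ M

/-- A Hilbert cusp form of level `𝔫` is invariant under the diagonal `Γ₁(N)` for an `N ≥ 1`. -/
theorem IsHilbertCusp1.diag {k : ℕ} {𝔫 : Ideal (𝓞 F)} (h𝔫 : 𝔫 ≠ ⊥) {a : 𝓞 F → ℂ}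
    (h : IsHilbertCusp1 k 𝔫 a) : ∃ N : ℕ, 0 < N ∧ IsDiagCusp1 N k a := by
  have hne : 𝔫 * differentIdeal ℤ (𝓞 F) ≠ ⊥ := mul_ne_zero h𝔫 differentIdeal_ne_bot
  refine ⟨Ideal.absNorm (𝔫 * differentIdeal ℤ (𝓞 F)), Nat.pos_of_ne_zero ?_, h.summable, ?_,
    h.bounded⟩
  · rw [Ne, Ideal.absNorm_eq_zero_iff]
    exact hne
  · intro A B C D hC hD hdet z hz
    have key := h.modular (A : F) (B : F) (C : F) (D : F) (isIntegral_algebraMap (R := ℤ) (x := A))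
      (isIntegral_algebraMap (R := ℤ) (x := D)) ?_ ?_ ?_ ?_ z hz
    · simpa using key
    · intro x
      refine ⟨B * Algebra.trace ℤ (𝓞 F) x, ?_⟩
      have h1 : (B : F) * (x : F) = (B : ℤ) • (x : F) := by rw [zsmul_eq_mul]
      rw [h1, map_zsmul, ← Algebra.coe_trace_int, zsmul_eq_mul]
      push_cast
      rfl
    · obtain ⟨m, hm⟩ := hC
      refine ⟨(C : 𝓞 F), ?_, by simp⟩
      rw [hm]
      push_cast
      exact Ideal.mul_mem_right _ _ (Ideal.absNorm_mem _)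
    · obtain ⟨m, hm⟩ := hD
      refine ⟨((D - 1 : ℤ) : 𝓞 F), ?_, by simp⟩
      rw [hm]
      push_cast
      have h2 : (Ideal.absNorm (𝔫 * differentIdeal ℤ (𝓞 F)) : 𝓞 F) ∈ 𝔫 :=
        (Ideal.mul_le_left : 𝔫 * differentIdeal ℤ (𝓞 F) ≤ 𝔫)
          (Ideal.absNorm_mem (𝔫 * differentIdeal ℤ (𝓞 F)))
      exact Ideal.mul_mem_right _ _ h2
    · have : ((A * D - B * C : ℤ) : F) = 1 := by rw [hdet, Int.cast_one]
      push_cast at this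
      exact this

theorem IsDiagCusp1.mono {N N' k : ℕ} (hN : N ∣ N') {a : 𝓞 F → ℂ} (h : IsDiagCusp1 N k a) :
    IsDiagCusp1 N' k a where
  summable := h.summable
  modular := fun A B C D hC hD => h.modular A B C D ((Int.natCast_dvd_natCast.2 hN).trans hC)
    ((Int.natCast_dvd_natCast.2 hN).trans hD)
  bounded := h.bounded

theorem IsDiagCusp1.sum {N k : ℕ} {ι : Type*} (s : Finset ι) (a : ι → 𝓞 F → ℂ)
    (h : ∀ i ∈ s, IsDiagCusp1 N k (a i)) : IsDiagCusp1 N k (fun x => ∑ i ∈ s, a i x) where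
  summable := by
    intro z hz
    have : fterm (fun x => ∑ i ∈ s, a i x) z = fun ξ => ∑ i ∈ s, fterm (a i) z ξ :=
      funext fun ξ => fterm_sum s a z ξ
    rw [this]
    exact summable_sum fun i hi => (h i hi).summable z hz
  modular := by
    intro A B C D hC hD hdet z hz
    rw [fser_sum s a _ (fun i hi => (h i hi).summable _ (moebius_im A B C D hdet z hz)),
      fser_sum s a _ (fun i hi => (h i hi).summable _ hz), Finset.mul_sum]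
    exact Finset.sum_congr rfl fun i hi => (h i hi).modular A B C D hC hD hdet z hz
  bounded := by
    classical
    choose! M hM using fun i hi => (h i hi).bounded
    refine ⟨∑ i ∈ s, M i, fun z hz => ?_⟩
    rw [fser_sum s a _ (fun i hi => (h i hi).summable _ hz)]
    have hpos : 0 ≤ ∏ φ : F →+* ℝ, ((z φ).im) ^ ((k : ℝ) / 2) :=
      Finset.prod_nonneg fun φ _ => Real.rpow_nonneg (hz φ).le _
    calc ‖∑ i ∈ s, fser (a i) z‖ * ∏ φ : F →+* ℝ, ((z φ).im) ^ ((k : ℝ) / 2)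
        ≤ (∑ i ∈ s, ‖fser (a i) z‖) * ∏ φ : F →+* ℝ, ((z φ).im) ^ ((k : ℝ) / 2) :=
          mul_le_mul_of_nonneg_right (norm_sum_le _ _) hpos
      _ = ∑ i ∈ s, ‖fser (a i) z‖ * ∏ φ : F →+* ℝ, ((z φ).im) ^ ((k : ℝ) / 2) := Finset.sum_mul _ _ _
      _ ≤ ∑ i ∈ s, M i := Finset.sum_le_sum fun i hi => hM i hi z hz

end Series

/-- The statement of the main theorem for rational integral coefficients (module T),
for `Γ₁(N)`. -/
def StH1 (F : Type*) [Field F] [NumberField F] : Prop :=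
  ∀ (k : ℕ), 4 ≤ k → ∀ N : ℕ, 0 < N → ∀ c : 𝓞 F → ℤ, c 1 ≠ 0 →
    (∀ ε : 𝓞 F, IsUnit ε → (∀ φ : F →+* ℝ, 0 < φ ε) → c ε = c 1) →
    IsDiagCusp1 N k (fun ξ => (c ξ : ℂ)) → ∀ η : ℝ, η < 1 / (Module.finrank ℚ F : ℝ) →
    ¬ ∃ K : ℝ, ∀ X : ℕ, (Set.ncard {p : ℕ | p ≤ X ∧ p.Prime ∧
      ¬ ∀ ξ : TotPos F, (p : ℤ) ^ omegaP p (Ideal.span {ξ.1}) ∣ c ξ.1} : ℝ) ≤ K * (X : ℝ) ^ η

section Real

open H53M Filter Topology

variable {F : Type*} [Field F] [NumberField F] [IsTotallyReal F]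

theorem in_bound1 {N k : ℕ} {a : 𝓞 F → ℂ} (h : IsDiagCusp1 N k a) :
    ∃ C : ℝ, 0 ≤ C ∧ ∀ ξ : TotPos F,
      ‖a ξ.1‖ ≤ C * ∏ φ : F →+* ℝ, (φ ξ.1) ^ ((k : ℝ) / 2) := by
  obtain ⟨M, hM⟩ := h.bounded
  have hM0 : 0 ≤ M := by
    refine le_trans ?_ (hM (fun _ => Complex.I) (fun _ => by simp))
    exact mul_nonneg (norm_nonneg _) (Finset.prod_nonneg fun φ _ => by simp)
  obtain ⟨d, hd⟩ : ∃ d : ℕ, d = Fintype.card (F →+* ℝ) := ⟨_, rfl⟩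
  refine ⟨M * Real.exp (2 * Real.pi * d), by positivity, fun ξ => ?_⟩
  have hξ : ∀ φ : F →+* ℝ, 0 < φ ξ.1 := ξ.2
  obtain ⟨z, hz⟩ : ∃ z : (F →+* ℝ) → ℂ, z = fun φ => Complex.I * ((φ ξ.1)⁻¹ : ℝ) := ⟨_, rfl⟩
  have hzim : ∀ φ, (z φ).im = (φ ξ.1)⁻¹ := by
    intro φ
    rw [hz]
    simp
  have hzpos : ∀ φ, 0 < (z φ).im := fun φ => by
    rw [hzim]
    exact inv_pos.2 (hξ φ)
  have hP : 0 < ∏ φ : F →+* ℝ, ((z φ).im) ^ ((k : ℝ) / 2) :=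
    Finset.prod_pos fun φ _ => Real.rpow_pos_of_pos (hzpos φ) _
  have key := in_coeff z (h.summable z hzpos) (M / ∏ φ : F →+* ℝ, ((z φ).im) ^ ((k : ℝ) / 2))
    (fun w hw => by
      rw [le_div_iff₀ hP]
      have h1 := hM w (fun φ => by
        rw [hw]
        exact hzpos φ)
      simp only [hw] at h1
      exact h1) ξ
  rw [in_fterm_norm] at key
  have h1 : ∑ φ : F →+* ℝ, φ ξ.1 * (z φ).im = d := by
    rw [Finset.sum_congr rfl fun φ _ => show φ ξ.1 * (z φ).im = 1 by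
      rw [hzim]
      exact mul_inv_cancel₀ (hξ φ).ne']
    simp [hd]
  have h2 : ∏ φ : F →+* ℝ, ((z φ).im) ^ ((k : ℝ) / 2) =
      (∏ φ : F →+* ℝ, (φ ξ.1) ^ ((k : ℝ) / 2))⁻¹ := by
    rw [← Finset.prod_inv_distrib]
    refine Finset.prod_congr rfl fun φ _ => ?_
    rw [hzim, Real.inv_rpow (hξ φ).le]
  rw [h1, h2, div_inv_eq_mul] at key
  have h3 : ‖a ξ.1‖ = ‖a ξ.1‖ * Real.exp (-(2 * Real.pi * d)) * Real.exp (2 * Real.pi * d) := by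
    rw [mul_assoc, ← Real.exp_add]
    simp
  rw [h3]
  calc _ ≤ (M * ∏ φ : F →+* ℝ, (φ ξ.1) ^ ((k : ℝ) / 2)) * Real.exp (2 * Real.pi * d) :=
        mul_le_mul_of_nonneg_right key (Real.exp_pos _).le
    _ = _ := by ring

/-- `|c(ξ)| ≤ C (tr ξ + 1) ^ (d k)`. -/
theorem in_bound_tr1 {N k : ℕ} {a : 𝓞 F → ℂ} (h : IsDiagCusp1 N k a) :
    ∃ C : ℝ, ∀ ξ : TotPos F,
      ‖a ξ.1‖ ≤ C * ((inTr ξ : ℝ) + 1) ^ (k * Fintype.card (F →+* ℝ)) := by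
  obtain ⟨C, hC0, hC⟩ := in_bound1 h
  refine ⟨C, fun ξ => (hC ξ).trans (mul_le_mul_of_nonneg_left ?_ hC0)⟩
  have h1 : ((inTr ξ : ℝ) + 1) ^ (k * Fintype.card (F →+* ℝ)) =
      ∏ _φ : F →+* ℝ, ((inTr ξ : ℝ) + 1) ^ k := by
    rw [Finset.prod_const, Finset.card_univ, pow_mul]
  rw [h1]
  have ht : (0 : ℝ) ≤ inTr ξ := Nat.cast_nonneg _
  refine Finset.prod_le_prod (fun φ _ => Real.rpow_nonneg (ξ.2 φ).le _) fun φ _ => ?_
  calc (φ ξ.1) ^ ((k : ℝ) / 2) ≤ ((inTr ξ : ℝ) + 1) ^ ((k : ℝ) / 2) :=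
        Real.rpow_le_rpow (ξ.2 φ).le ((in_lt_tr ξ φ).trans (by linarith)) (by positivity)
    _ ≤ ((inTr ξ : ℝ) + 1) ^ (k : ℝ) :=
        Real.rpow_le_rpow_of_exponent_le (by linarith) (by
          have : (0 : ℝ) ≤ k := Nat.cast_nonneg _
          linarith)
    _ = _ := Real.rpow_natCast _ _

/-! ### The array -/

/-- The array of a diagonal cusp form with integral coefficients. -/
noncomputable def karr1 {N k : ℕ} {c : 𝓞 F → ℤ} (h : IsDiagCusp1 N k (fun ξ => (c ξ : ℂ))) :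
    KArr (F →+* ℝ) (TotPos F) where
  nu ξ φ := φ ξ.1
  tr := inTr
  fib := inFib F
  mem_fib := mem_inFib
  nu_pos ξ φ := ξ.2 φ
  nu_sum := inTr_eq
  es ξ := inEs ξ.1
  es_eq ξ j := inEs_eq ξ.1 j
  nm ξ := Algebra.norm ℤ ξ.1
  nm_eq ξ := in_normZ ξ.1
  q2 ξ := inQ2 ξ.1
  q2_eq ξ := inQ2_eq (in_ne ξ)
  card_le := ⟨1, Fintype.card (F →+* ℝ), fun n => by
    rw [one_mul]
    exact_mod_cast inFib_card n⟩
  c ξ := c ξ.1
  c_le := by
    obtain ⟨C, hC⟩ := in_bound_tr1 h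
    refine ⟨C, k * Fintype.card (F →+* ℝ), fun ξ => ?_⟩
    have := hC ξ
    rwa [Complex.norm_intCast] at this

theorem karr_G1 {N k : ℕ} {c : 𝓞 F → ℤ} (h : IsDiagCusp1 N k (fun ξ => (c ξ : ℂ)))
    (z : (F →+* ℝ) → ℂ) : (karr1 h).G z = fser (fun ξ => (c ξ : ℂ)) z := rfl

theorem karr_trans1 {N k : ℕ} {c : 𝓞 F → ℤ} (h : IsDiagCusp1 N k (fun ξ => (c ξ : ℂ))) :
    DTransI1 N k (karr1 h).G := by
  intro A B C D hdet hN hD z hz
  rw [karr_G1, karr_G1]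
  exact h.modular A B C D hN hD hdet z hz

theorem cusp_parseval1 {N k : ℕ} {c : 𝓞 F → ℤ} (hc : IsDiagCusp1 N k fun ξ => (c ξ : ℂ)) :
    ∃ B : ℝ, 0 < B ∧ ∀ y : (F →+* ℝ) → ℝ, (∀ i, 0 < y i) →
      Summable (fun ξ : TotPos F => (c ξ.1 : ℝ) ^ 2 *
        Real.exp (-(4 * Real.pi * ∑ i, i (ξ.1 : F) * y i))) ∧
      ∑' ξ : TotPos F, (c ξ.1 : ℝ) ^ 2 *
        Real.exp (-(4 * Real.pi * ∑ i, i (ξ.1 : F) * y i)) ≤ B * ∏ i, (y i)⁻¹ ^ k := by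
  classical
  obtain ⟨ψ⟩ : Nonempty (F →+* ℂ) := inferInstance
  obtain ⟨η, hη⟩ := exists_eta (IsTotallyReal.complexEmbedding_isReal ψ).embedding
  generalize (IsTotallyReal.complexEmbedding_isReal ψ).embedding = i0 at hη
  obtain ⟨M₀, hM₀⟩ := hc.bounded
  refine ⟨M₀ ^ 2 + 1, by positivity, fun y hy => ?_⟩
  let z0 : (F →+* ℝ) → ℂ := fun j => Complex.I * (y j : ℂ)
  have hz0 : ∀ j, 0 < (z0 j).im := fun j => by
    simp only [z0]
    simpa using hy j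
  let a : TotPos F → ℂ := fterm (fun ξ => (c ξ : ℂ)) z0
  have ha : Summable a := hc.summable z0 hz0
  have hPk : ∀ j, 0 < (y j)⁻¹ ^ k := fun j => pow_pos (inv_pos.2 (hy j)) k
  have hprod : 0 < ∏ j, (y j)⁻¹ ^ k := Finset.prod_pos fun j _ => hPk j
  have key := parseval a ha (fun ξ => η * i0 (ξ.1 : F)) hη (M₀ ^ 2 * ∏ j, (y j)⁻¹ ^ k) (by
    intro M
    let z : (F →+* ℝ) → ℂ := fun j => z0 j + (if j = i0 then ((η * M : ℝ) : ℂ) else 0)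
    have hzim : ∀ j, (z j).im = y j := by
      intro j
      simp only [z, z0]
      split_ifs
      · simp
      · simp
    have hz : ∀ j, 0 < (z j).im := fun j => by
      rw [hzim]
      exact hy j
    have h1 : ∑' ξ, a ξ * X.ex ((η * i0 (ξ.1 : F) * M : ℝ) : ℂ) =
        fser (fun ξ => (c ξ : ℂ)) z := by
      unfold fser
      refine tsum_congr fun ξ => ?_
      change fterm (fun ξ => (c ξ : ℂ)) z0 ξ * _ = _
      unfold fterm X.ex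
      rw [mul_assoc, ← Complex.exp_add, ← mul_add]
      congr 3
      have h2 : ∑ φ : F →+* ℝ, ((φ ξ.1 : ℝ) : ℂ) * z φ =
          ∑ φ : F →+* ℝ, ((φ ξ.1 : ℝ) : ℂ) * z0 φ +
            ∑ φ : F →+* ℝ, ((φ ξ.1 : ℝ) : ℂ) * (if φ = i0 then ((η * M : ℝ) : ℂ) else 0) := by
        rw [← Finset.sum_add_distrib]
        refine Finset.sum_congr rfl fun φ _ => ?_
        rw [← mul_add]
      rw [h2]
      congr 1
      simp only [mul_ite, mul_zero, Finset.sum_ite_eq', Finset.mem_univ, if_true]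
      push_cast
      ring
    rw [h1]
    have h3 := hM₀ z hz
    simp only [hzim] at h3
    have hP : 0 < ∏ j, (y j) ^ ((k : ℝ) / 2) :=
      Finset.prod_pos fun j _ => Real.rpow_pos_of_pos (hy j) _
    have h4 : 0 ≤ ‖fser (fun ξ => (c ξ : ℂ)) z‖ * ∏ j, (y j) ^ ((k : ℝ) / 2) :=
      mul_nonneg (norm_nonneg _) hP.le
    have h5 := pow_le_pow_left₀ h4 h3 2
    rw [mul_pow] at h5
    have h6 : (∏ j, (y j) ^ ((k : ℝ) / 2)) ^ 2 * ∏ j, (y j)⁻¹ ^ k = 1 := by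
      rw [← Finset.prod_pow, ← Finset.prod_mul_distrib]
      refine Finset.prod_eq_one fun j _ => ?_
      have h7 : ((y j) ^ ((k : ℝ) / 2)) ^ 2 = (y j) ^ k := by
        rw [← Real.rpow_natCast, ← Real.rpow_mul (hy j).le, ← Real.rpow_natCast]
        congr 1
        push_cast
        ring
      rw [h7, ← mul_pow, mul_inv_cancel₀ (hy j).ne', one_pow]
    calc ‖fser (fun ξ => (c ξ : ℂ)) z‖ ^ 2
        = (‖fser (fun ξ => (c ξ : ℂ)) z‖ ^ 2 * (∏ j, (y j) ^ ((k : ℝ) / 2)) ^ 2) *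
            ∏ j, (y j)⁻¹ ^ k := by rw [mul_assoc, h6, mul_one]
      _ ≤ M₀ ^ 2 * ∏ j, (y j)⁻¹ ^ k := mul_le_mul_of_nonneg_right h5 hprod.le)
  have hterm : ∀ ξ : TotPos F, ‖a ξ‖ ^ 2 = (c ξ.1 : ℝ) ^ 2 *
      Real.exp (-(4 * Real.pi * ∑ i, i (ξ.1 : F) * y i)) := by
    intro ξ
    change ‖fterm (fun ξ => (c ξ : ℂ)) z0 ξ‖ ^ 2 = _
    rw [G3_norm, mul_pow, ← Real.exp_nat_mul]
    have h1 : ∑ φ : F →+* ℝ, φ (ξ.1 : F) * (z0 φ).im = ∑ i, i (ξ.1 : F) * y i := by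
      refine Finset.sum_congr rfl fun φ _ => ?_
      simp only [z0]
      simp
    rw [h1]
    congr 1
    · rw [Complex.norm_intCast, sq_abs]
    · congr 1
      push_cast
      ring
  simp only [hterm] at key
  refine ⟨key.1, key.2.trans ?_⟩
  exact mul_le_mul_of_nonneg_right (by linarith) hprod.le

theorem cusp_growth1 {N k : ℕ} {c : 𝓞 F → ℤ} (hc : IsDiagCusp1 N k fun ξ => (c ξ : ℂ)) :
    ∃ C : ℝ, ∃ K : ℕ, 0 < C ∧ ∀ ξ : TotPos F,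
      |(c ξ.1 : ℝ)| ≤ C * (1 + ∑ i : F →+* ℝ, i (ξ.1 : F)) ^ K := by
  obtain ⟨C, hC⟩ := in_bound_tr1 hc
  refine ⟨|C| + 1, k * Fintype.card (F →+* ℝ), by positivity, fun ξ => ?_⟩
  have h1 := hC ξ
  rw [Complex.norm_intCast] at h1
  rw [inTr_eq, add_comm (1 : ℝ)]
  refine h1.trans (mul_le_mul_of_nonneg_right ?_ (by positivity))
  exact (le_abs_self C).trans (by linarith)

theorem square_sum1 {N k : ℕ} {c : 𝓞 F → ℤ} (hc : IsDiagCusp1 N k fun ξ => (c ξ : ℂ))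
    (i : F →+* ℝ) {y : ℝ} (hy : 0 < y) (l : TotPos F → ℕ)
    (hl : ∀ ξ : TotPos F, i (ξ.1 : F) ≤ 4 * 4 ^ l ξ) :
    Summable fun ξ : TotPos F => (c ξ.1 : ℝ) ^ 2 * ((4 : ℝ) ^ (l ξ * k) * 2 ^ l ξ)⁻¹ *
      Real.exp (-(2 * Real.pi * ((∑ j : F →+* ℝ, j (ξ.1 : F)) - i (ξ.1 : F)) * y)) := by
  classical
  obtain ⟨B, hB, hP⟩ := cusp_parseval1 hc
  set s : TotPos F → ℝ := fun ξ => (∑ j : F →+* ℝ, j (ξ.1 : F)) - i (ξ.1 : F) with hs
  set yv : ℕ → (F →+* ℝ) → ℝ := fun m => Function.update (fun _ => y / 2) i ((4 : ℝ) ^ m)⁻¹ with hyv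
  have hyi : ∀ m, yv m i = ((4 : ℝ) ^ m)⁻¹ := fun m => by
    rw [hyv]
    exact Function.update_self _ _ _
  have hyj : ∀ m j, j ≠ i → yv m j = y / 2 := fun m j hj => by
    rw [hyv]
    exact Function.update_of_ne hj _ _
  have hypos : ∀ m j, 0 < yv m j := by
    intro m j
    rcases eq_or_ne j i with rfl | hj
    · rw [hyi]
      positivity
    · rw [hyj m j hj]
      positivity
  have hsum : ∀ m (ξ : TotPos F), ∑ j, j (ξ.1 : F) * yv m j = (y / 2) * s ξ + i (ξ.1 : F) * ((4 : ℝ) ^ m)⁻¹ := by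
    intro m ξ
    rw [← Finset.add_sum_erase _ _ (Finset.mem_univ i), hyi]
    have h1 : ∑ j ∈ Finset.univ.erase i, j (ξ.1 : F) * yv m j = ∑ j ∈ Finset.univ.erase i, j (ξ.1 : F) * (y / 2) :=
      Finset.sum_congr rfl fun j hj => by rw [hyj m j (Finset.ne_of_mem_erase hj)]
    have h2 := Finset.add_sum_erase Finset.univ (fun j : F →+* ℝ => j (ξ.1 : F)) (Finset.mem_univ i)
    rw [h1, ← Finset.sum_mul]
    simp only [hs]
    rw [← h2]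
    ring
  have hprod : ∀ m, ∏ j, (yv m j)⁻¹ ^ k = ((4 : ℝ) ^ m) ^ k * ∏ j ∈ Finset.univ.erase i, ((y / 2)⁻¹ ^ k) := by
    intro m
    rw [← Finset.mul_prod_erase _ _ (Finset.mem_univ i), hyi, inv_inv]
    congr 1
    exact Finset.prod_congr rfl fun j hj => by rw [hyj m j (Finset.ne_of_mem_erase hj)]
  set P : ℝ := ∏ j ∈ Finset.univ.erase i, ((y / 2)⁻¹ ^ k) with hPdef
  set T : ℕ × TotPos F → ℝ := fun p => ((4 : ℝ) ^ (p.1 * k) * 2 ^ p.1)⁻¹ *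
    ((c p.2.1 : ℝ) ^ 2 * Real.exp (-(4 * Real.pi * ∑ j : F →+* ℝ, j (p.2.1 : F) * yv p.1 j))) with hT
  have hT0 : 0 ≤ T := fun p => by
    simp only [hT, Pi.zero_apply]
    positivity
  have hTs : Summable T := by
    rw [summable_prod_of_nonneg hT0]
    refine ⟨fun m => ?_, ?_⟩
    · exact (hP (yv m) (hypos m)).1.mul_left (((4 : ℝ) ^ (m * k) * 2 ^ m)⁻¹)
    · have hg : Summable fun m : ℕ => (B * P) * ((1 : ℝ) / 2) ^ m :=
        (summable_geometric_of_lt_one (by norm_num) (by norm_num)).mul_left _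
      refine Summable.of_nonneg_of_le (fun m => tsum_nonneg fun ξ => hT0 (m, ξ)) (fun m => ?_) hg
      simp only [hT]
      rw [tsum_mul_left]
      have h1 := (hP (yv m) (hypos m)).2
      rw [hprod m] at h1
      calc ((4 : ℝ) ^ (m * k) * 2 ^ m)⁻¹ * _ ≤ ((4 : ℝ) ^ (m * k) * 2 ^ m)⁻¹ * (B * (((4 : ℝ) ^ m) ^ k * P)) :=
            mul_le_mul_of_nonneg_left h1 (by positivity)
        _ = (B * P) * ((1 : ℝ) / 2) ^ m := by
            rw [pow_mul, one_div, inv_pow]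
            field_simp
  have hinj : Function.Injective (fun ξ : TotPos F => (l ξ, ξ)) := fun a b h => (Prod.mk.inj h).2
  have hcomp := (hTs.comp_injective hinj).mul_left (Real.exp (16 * Real.pi))
  refine Summable.of_nonneg_of_le (fun ξ => by positivity) (fun ξ => ?_) hcomp
  simp only [Function.comp, hT]
  have hξ := hl ξ
  have h4 : (0 : ℝ) < 4 ^ l ξ := by positivity
  have h5 : i (ξ.1 : F) * ((4 : ℝ) ^ l ξ)⁻¹ ≤ 4 := by
    rw [← div_eq_mul_inv, div_le_iff₀ h4]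
    exact hξ
  have h6 : Real.exp (-(2 * Real.pi * ((∑ j : F →+* ℝ, j (ξ.1 : F)) - i (ξ.1 : F)) * y)) ≤
      Real.exp (16 * Real.pi) * Real.exp (-(4 * Real.pi * ∑ j : F →+* ℝ, j (ξ.1 : F) * yv (l ξ) j)) := by
    rw [← Real.exp_add, Real.exp_le_exp, hsum]
    have h7 : s ξ = (∑ j : F →+* ℝ, j (ξ.1 : F)) - i (ξ.1 : F) := rfl
    rw [h7]
    nlinarith [Real.pi_pos, mul_nonneg Real.pi_pos.le (sub_nonneg.2 h5)]
  have h8 : 0 ≤ (c ξ.1 : ℝ) ^ 2 * ((4 : ℝ) ^ (l ξ * k) * 2 ^ l ξ)⁻¹ := by positivity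
  calc (c ξ.1 : ℝ) ^ 2 * ((4 : ℝ) ^ (l ξ * k) * 2 ^ l ξ)⁻¹ *
      Real.exp (-(2 * Real.pi * ((∑ j : F →+* ℝ, j (ξ.1 : F)) - i (ξ.1 : F)) * y)) ≤
      (c ξ.1 : ℝ) ^ 2 * ((4 : ℝ) ^ (l ξ * k) * 2 ^ l ξ)⁻¹ *
      (Real.exp (16 * Real.pi) * Real.exp (-(4 * Real.pi * ∑ j : F →+* ℝ, j (ξ.1 : F) * yv (l ξ) j))) :=
        mul_le_mul_of_nonneg_left h6 h8
    _ = _ := by ring

private theorem G7_log1 (m : ℕ) : ((2 : ℝ) ^ (3 * Nat.log 4 m))⁻¹ ≤ 8 * (((m : ℝ) + 1) ^ (3 / 2 : ℝ))⁻¹ := by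
  have h1 : m + 1 ≤ 4 ^ (Nat.log 4 m + 1) := Nat.lt_pow_succ_log_self (by norm_num) m
  have h2 : (m : ℝ) + 1 ≤ 4 ^ (Nat.log 4 m + 1) := by exact_mod_cast h1
  have h3 : ((m : ℝ) + 1) ^ (3 / 2 : ℝ) ≤ ((4 : ℝ) ^ (Nat.log 4 m + 1)) ^ (3 / 2 : ℝ) :=
    Real.rpow_le_rpow (by positivity) h2 (by norm_num)
  have h4 : ((4 : ℝ) ^ (Nat.log 4 m + 1)) ^ (3 / 2 : ℝ) = 8 * 2 ^ (3 * Nat.log 4 m) := by
    have e : (4 : ℝ) ^ (Nat.log 4 m + 1) = ((2 : ℝ) ^ (Nat.log 4 m + 1)) ^ (2 : ℝ) := by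
      rw [Real.rpow_two, ← pow_mul, mul_comm, pow_mul]
      norm_num
    rw [e, ← Real.rpow_mul (by positivity)]
    have e2 : (2 : ℝ) * (3 / 2) = ((3 : ℕ) : ℝ) := by norm_num
    rw [e2, Real.rpow_natCast, ← pow_mul]
    have e3 : (Nat.log 4 m + 1) * 3 = 3 + 3 * Nat.log 4 m := by ring
    rw [e3, pow_add]
    norm_num
  rw [h4] at h3
  have h5 : 0 < ((m : ℝ) + 1) ^ (3 / 2 : ℝ) := by positivity
  rw [inv_le_comm₀ (by positivity) (by positivity), mul_inv, inv_inv]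
  linarith

private theorem G7_summ1 : Summable fun m : ℕ => 8 * (((m : ℝ) + 1) ^ (3 / 2 : ℝ))⁻¹ := by
  have h := (summable_nat_add_iff 1).2 (Real.summable_nat_rpow_inv.2 (by norm_num : (1 : ℝ) < 3 / 2))
  refine (h.mul_left 8).congr fun m => ?_
  push_cast
  rfl

private theorem G7_poly1 (K : ℕ) {b : ℝ} (hb : 0 < b) : ∃ C : ℝ, 0 < C ∧ ∀ s : ℝ, 0 ≤ s →
    (s + 2) ^ K * Real.exp (-(b * s)) ≤ C := by
  refine ⟨(K.factorial : ℝ) * (b⁻¹ ^ K) * Real.exp (b * 2), by positivity, fun s hs => ?_⟩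
  have h1 := Real.pow_div_factorial_le_exp (b * (s + 2)) (by positivity) K
  have hf : (0 : ℝ) < K.factorial := by exact_mod_cast K.factorial_pos
  rw [div_le_iff₀ hf, mul_pow] at h1
  have h2 : Real.exp (b * (s + 2)) = Real.exp (b * s) * Real.exp (b * 2) := by
    rw [← Real.exp_add]
    ring_nf
  have h3 : Real.exp (-(b * s)) * Real.exp (b * s) = 1 := by
    rw [← Real.exp_add]
    simp
  have h4 : b⁻¹ ^ K * b ^ K = 1 := by
    rw [← mul_pow, inv_mul_cancel₀ hb.ne', one_pow]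
  rw [h2] at h1
  calc (s + 2) ^ K * Real.exp (-(b * s)) = (b⁻¹ ^ K * Real.exp (-(b * s))) * (b ^ K * (s + 2) ^ K) := by
        linear_combination (-(s + 2) ^ K * Real.exp (-(b * s))) * h4
    _ ≤ (b⁻¹ ^ K * Real.exp (-(b * s))) * (Real.exp (b * s) * Real.exp (b * 2) * K.factorial) :=
        mul_le_mul_of_nonneg_left h1 (by positivity)
    _ = _ := by linear_combination (b⁻¹ ^ K * Real.exp (b * 2) * K.factorial) * h3

theorem famF1 {N k : ℕ} (hk : 4 ≤ k) {c : 𝓞 F → ℤ} (hc : IsDiagCusp1 N k fun ξ => (c ξ : ℂ))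
    (i : F →+* ℝ) {y : ℝ} (hy : 0 < y) :
    Summable fun ξ : TotPos F => |(c ξ.1 : ℝ)| * (i (ξ.1 : F))⁻¹ ^ (k - 1) *
      Real.exp (-(2 * Real.pi * ((∑ j : F →+* ℝ, j (ξ.1 : F)) - i (ξ.1 : F)) * y)) := by
  classical
  have hpos : ∀ (ξ : TotPos F) (j : F →+* ℝ), 0 < j (ξ.1 : F) := fun ξ j => ξ.2 j
  set s : TotPos F → ℝ := fun ξ => (∑ j : F →+* ℝ, j (ξ.1 : F)) - i (ξ.1 : F) with hs
  have hs' : ∀ ξ : TotPos F, s ξ = ∑ j ∈ Finset.univ.erase i, j (ξ.1 : F) := fun ξ => by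
    have h2 := Finset.add_sum_erase Finset.univ (fun j : F →+* ℝ => j (ξ.1 : F)) (Finset.mem_univ i)
    simp only [hs]
    rw [← h2]
    ring
  have hs0 : ∀ ξ, 0 ≤ s ξ := fun ξ => by
    rw [hs']
    exact Finset.sum_nonneg fun j _ => (hpos ξ j).le
  set l : TotPos F → ℕ := fun ξ => Nat.log 4 ⌊i (ξ.1 : F)⌋₊ with hldef
  have hl : ∀ ξ : TotPos F, i (ξ.1 : F) ≤ 4 * 4 ^ l ξ := by
    intro ξ
    have h1 : ⌊i (ξ.1 : F)⌋₊ + 1 ≤ 4 ^ (l ξ + 1) := Nat.lt_pow_succ_log_self (by norm_num) _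
    have h2 : ((⌊i (ξ.1 : F)⌋₊ : ℕ) : ℝ) + 1 ≤ 4 ^ (l ξ + 1) := by exact_mod_cast h1
    have h3 := Nat.lt_floor_add_one (i (ξ.1 : F))
    rw [pow_succ] at h2
    linarith
  have hsq := square_sum1 hc i hy l hl
  have hlat := lattice_sum i (fun m : ℕ => 8 * (((m : ℝ) + 1) ^ (3 / 2 : ℝ))⁻¹) (fun m => by positivity) G7_summ1
    (show (0 : ℝ) < 2 * Real.pi * y by positivity)
  have hlat0 := lattice_sum i (fun m : ℕ => if m = 0 then (1 : ℝ) else 0) (fun m => by positivity)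
    (summable_of_ne_finset_zero (s := {0}) fun m hm => by
      rw [Finset.mem_singleton] at hm
      simp [hm]) (show (0 : ℝ) < Real.pi * y by positivity)
  obtain ⟨C, K, hC, hgr⟩ := cusp_growth1 hc
  set d : ℕ := Fintype.card (F →+* ℝ) with hd
  obtain ⟨C2, hC2, hpoly⟩ := G7_poly1 (K + d * (k - 1)) (show (0 : ℝ) < Real.pi * y by positivity)
  refine Summable.of_nonneg_of_le (fun ξ => ?_) (fun ξ => ?_) ((hsq.add hlat).add (hlat0.mul_left (C * C2)))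
  · have := hpos ξ i
    positivity
  have hν := hpos ξ i
  set ν : ℝ := i (ξ.1 : F) with hνdef
  have hE : (∑ j : F →+* ℝ, j (ξ.1 : F)) - ν = s ξ := rfl
  rw [hE]
  have t1 : 0 ≤ (c ξ.1 : ℝ) ^ 2 * ((4 : ℝ) ^ (l ξ * k) * 2 ^ l ξ)⁻¹ * Real.exp (-(2 * Real.pi * s ξ * y)) := by
    positivity
  have t2' : 0 ≤ 8 * ((((⌊ν⌋₊ : ℕ) : ℝ) + 1) ^ (3 / 2 : ℝ))⁻¹ * Real.exp (-(2 * Real.pi * y * s ξ)) := by
    positivity
  have t3 : 0 ≤ C * C2 * ((if ⌊ν⌋₊ = 0 then (1 : ℝ) else 0) * Real.exp (-(Real.pi * y * s ξ))) := by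
    positivity
  rcases le_or_gt 1 ν with h1 | h1
  · -- `ν ≥ 1`
    have hfl : ⌊ν⌋₊ ≠ 0 := (Nat.floor_pos.2 h1).ne'
    have h4l : (4 : ℝ) ^ l ξ ≤ ν := by
      have h5 : 4 ^ l ξ ≤ ⌊ν⌋₊ := Nat.pow_log_le_self 4 hfl
      have h6 : ((4 : ℝ) ^ l ξ) ≤ ((⌊ν⌋₊ : ℕ) : ℝ) := by exact_mod_cast h5
      exact h6.trans (Nat.floor_le hν.le)
    have h4p : (0 : ℝ) < 4 ^ l ξ := by positivity
    have h7 : ν⁻¹ ^ (k - 1) ≤ ((4 : ℝ) ^ l ξ)⁻¹ ^ (k - 1) :=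
      pow_le_pow_left₀ (by positivity) (inv_anti₀ h4p h4l) _
    set u : ℝ := (c ξ.1 : ℝ) ^ 2 * ((4 : ℝ) ^ (l ξ * k) * 2 ^ l ξ)⁻¹ with hu
    set v : ℝ := ((2 : ℝ) ^ (3 * l ξ))⁻¹ with hv
    have hu0 : 0 ≤ u := by positivity
    have hv0 : 0 ≤ v := by positivity
    have hX : |(c ξ.1 : ℝ)| * ν⁻¹ ^ (k - 1) ≤ u + v := by
      have hX0 : 0 ≤ |(c ξ.1 : ℝ)| * ν⁻¹ ^ (k - 1) := by positivity
      have hXX : (|(c ξ.1 : ℝ)| * ν⁻¹ ^ (k - 1)) ^ 2 ≤ u * v := by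
        have e1 : (|(c ξ.1 : ℝ)| * ν⁻¹ ^ (k - 1)) ^ 2 = (c ξ.1 : ℝ) ^ 2 * (ν⁻¹ ^ (k - 1)) ^ 2 := by
          rw [mul_pow, sq_abs]
        have e2 : (ν⁻¹ ^ (k - 1)) ^ 2 ≤ (((4 : ℝ) ^ l ξ)⁻¹ ^ (k - 1)) ^ 2 :=
          pow_le_pow_left₀ (by positivity) h7 2
        have e3 : (((4 : ℝ) ^ l ξ)⁻¹ ^ (k - 1)) ^ 2 ≤ ((4 : ℝ) ^ l ξ)⁻¹ ^ (k + 2) := by
          rw [← pow_mul]
          refine pow_le_pow_of_le_one (by positivity) (inv_le_one_of_one_le₀ (one_le_pow₀ (by norm_num))) ?_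
          omega
        have e4 : u * v = (c ξ.1 : ℝ) ^ 2 * ((4 : ℝ) ^ l ξ)⁻¹ ^ (k + 2) := by
          have e5 : ((4 : ℝ) ^ l ξ)⁻¹ ^ (k + 2) = ((4 : ℝ) ^ (l ξ * k) * 2 ^ l ξ)⁻¹ * ((2 : ℝ) ^ (3 * l ξ))⁻¹ := by
            rw [← mul_inv, inv_pow]
            congr 1
            have e6 : (4 : ℝ) = 2 ^ 2 := by norm_num
            rw [e6, ← pow_mul, ← pow_mul, ← pow_mul, ← pow_add, ← pow_add]
            congr 1
            ring
          rw [hu, hv, e5]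
          ring
        rw [e1, e4]
        exact mul_le_mul_of_nonneg_left (e2.trans e3) (sq_nonneg _)
      nlinarith [sq_nonneg (u - v), mul_nonneg hu0 hv0]
    have hvg : v ≤ 8 * ((((⌊ν⌋₊ : ℕ) : ℝ) + 1) ^ (3 / 2 : ℝ))⁻¹ := G7_log1 ⌊ν⌋₊
    have hee : Real.exp (-(2 * Real.pi * s ξ * y)) = Real.exp (-(2 * Real.pi * y * s ξ)) := by ring_nf
    calc |(c ξ.1 : ℝ)| * ν⁻¹ ^ (k - 1) * Real.exp (-(2 * Real.pi * s ξ * y)) ≤
        (u + v) * Real.exp (-(2 * Real.pi * s ξ * y)) := mul_le_mul_of_nonneg_right hX (Real.exp_pos _).le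
      _ = u * Real.exp (-(2 * Real.pi * s ξ * y)) + v * Real.exp (-(2 * Real.pi * y * s ξ)) := by
          rw [add_mul, hee]
      _ ≤ u * Real.exp (-(2 * Real.pi * s ξ * y)) + 8 * ((((⌊ν⌋₊ : ℕ) : ℝ) + 1) ^ (3 / 2 : ℝ))⁻¹ *
          Real.exp (-(2 * Real.pi * y * s ξ)) :=
          add_le_add le_rfl (mul_le_mul_of_nonneg_right hvg (Real.exp_pos _).le)
      _ ≤ _ := le_add_of_nonneg_right t3
  · -- `ν < 1`
    have hfl : ⌊ν⌋₊ = 0 := Nat.floor_eq_zero.2 h1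
    have hle : ∀ j ∈ Finset.univ.erase i, j (ξ.1 : F) ≤ 1 + s ξ := by
      intro j hj
      have h2 : j (ξ.1 : F) ≤ s ξ := by
        rw [hs']
        exact Finset.single_le_sum (f := fun j : F →+* ℝ => j (ξ.1 : F)) (fun j _ => (hpos ξ j).le) hj
      linarith
    have h3 : ν⁻¹ ≤ (1 + s ξ) ^ d := by
      have h4 := g_prod ξ
      rw [← Finset.mul_prod_erase _ _ (Finset.mem_univ i), ← hνdef] at h4
      have h5 : ∏ j ∈ Finset.univ.erase i, j (ξ.1 : F) ≤ ∏ _j ∈ Finset.univ.erase i, (1 + s ξ) :=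
        Finset.prod_le_prod (fun j _ => (hpos ξ j).le) hle
      rw [Finset.prod_const] at h5
      have h6 : (1 + s ξ) ^ (Finset.univ.erase i).card ≤ (1 + s ξ) ^ d :=
        pow_le_pow_right₀ (by linarith [hs0 ξ]) (by
          rw [hd, ← Finset.card_univ]
          exact Finset.card_le_card (Finset.erase_subset _ _))
      rw [inv_le_iff_one_le_mul₀ hν]
      calc (1 : ℝ) ≤ ν * ∏ j ∈ Finset.univ.erase i, j (ξ.1 : F) := h4
        _ ≤ ν * (1 + s ξ) ^ d := mul_le_mul_of_nonneg_left (h5.trans h6) hν.le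
        _ = _ := mul_comm _ _
    have hgr1 : |(c ξ.1 : ℝ)| ≤ C * (s ξ + 2) ^ K := by
      refine (hgr ξ).trans (mul_le_mul_of_nonneg_left (pow_le_pow_left₀ ?_ ?_ K) hC.le)
      · have := Finset.sum_nonneg (s := Finset.univ) fun (j : F →+* ℝ) _ => (hpos ξ j).le
        linarith
      · linarith
    have h8 : ν⁻¹ ^ (k - 1) ≤ (s ξ + 2) ^ (d * (k - 1)) := by
      rw [pow_mul]
      refine pow_le_pow_left₀ (by positivity) (h3.trans ?_) _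
      exact pow_le_pow_left₀ (by linarith [hs0 ξ]) (by linarith) d
    have h9 : |(c ξ.1 : ℝ)| * ν⁻¹ ^ (k - 1) ≤ C * (s ξ + 2) ^ (K + d * (k - 1)) := by
      rw [pow_add, ← mul_assoc]
      have := hs0 ξ
      exact mul_le_mul hgr1 h8 (by positivity) (by positivity)
    have h10 := hpoly (s ξ) (hs0 ξ)
    have h11 : Real.exp (-(2 * Real.pi * s ξ * y)) =
        Real.exp (-(Real.pi * y * s ξ)) * Real.exp (-(Real.pi * y * s ξ)) := by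
      rw [← Real.exp_add]
      ring_nf
    calc |(c ξ.1 : ℝ)| * ν⁻¹ ^ (k - 1) * Real.exp (-(2 * Real.pi * s ξ * y)) ≤
        C * (s ξ + 2) ^ (K + d * (k - 1)) * Real.exp (-(2 * Real.pi * s ξ * y)) :=
          mul_le_mul_of_nonneg_right h9 (Real.exp_pos _).le
      _ = C * ((s ξ + 2) ^ (K + d * (k - 1)) * Real.exp (-(Real.pi * y * s ξ))) *
          Real.exp (-(Real.pi * y * s ξ)) := by
          rw [h11]
          ring
      _ ≤ C * C2 * Real.exp (-(Real.pi * y * s ξ)) :=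
          mul_le_mul_of_nonneg_right (mul_le_mul_of_nonneg_left h10 hC.le) (Real.exp_pos _).le
      _ = C * C2 * ((if ⌊ν⌋₊ = 0 then (1 : ℝ) else 0) * Real.exp (-(Real.pi * y * s ξ))) := by
          rw [if_pos hfl, one_mul]
      _ ≤ _ := le_add_of_nonneg_left (add_nonneg t1 t2')

theorem karr_XFam1 {N k : ℕ} (hk : 4 ≤ k) {c : 𝓞 F → ℤ} (h : IsDiagCusp1 N k fun ξ => (c ξ : ℂ)) :
    (karr1 h).XFam k := by
  intro i y hy
  refine (famF1 hk h i hy).congr fun ξ => ?_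
  have h1 : ((karr1 h).tr ξ : ℝ) = ∑ j : F →+* ℝ, j (ξ.1 : F) := (inTr_eq ξ).symm
  rw [h1]
  rfl

open scoped Classical in
theorem xb_eq1 {N k : ℕ} (hN : 0 < N) {c : 𝓞 F → ℤ}
    (h : IsDiagCusp1 N k (fun ξ => (c ξ : ℂ))) (y : ℝ) (i : F →+* ℝ) (ξ : TotPos F) :
    (karr1 h).xb N k (1 + N * (Complex.I * y)) (i, ξ) = xuTerm c (xuW N k) (-(1 / N)) y i ξ := by
  have hN' : (N : ℂ) ≠ 0 := by exact_mod_cast hN.ne'
  unfold KArr.xb KArr.xc KArr.xv KArr.xu xuTerm xuW X.ex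
  simp only [add_zero]
  have hnu : ∀ j : F →+* ℝ, (karr1 h).nu ξ j = j (ξ.1 : F) := fun _ => rfl
  have htr : (karr1 h).tr ξ = inTr ξ := rfl
  have hc : (karr1 h).c ξ = c ξ.1 := rfl
  simp only [hnu, htr, hc]
  push_cast
  have e1 : Complex.exp (2 * Real.pi * Complex.I * ((-1 : ℂ) * (inTr ξ : ℂ) / (N : ℂ))) *
      Complex.exp (2 * Real.pi * Complex.I * (((inTr ξ : ℂ) - (i (ξ.1 : F) : ℂ)) / (N : ℂ) *
        (1 + N * (Complex.I * y)))) =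
      Complex.exp (2 * Real.pi * Complex.I * (-(1 / (N : ℂ)) * (i (ξ.1 : F) : ℂ))) *
        Complex.exp (-(2 * Real.pi * ((inTr ξ : ℂ) - (i (ξ.1 : F) : ℂ)) * y)) := by
    rw [← Complex.exp_add, ← Complex.exp_add]
    congr 1
    field_simp
    ring_nf
    rw [Complex.I_sq]
    ring
  have e2 : ∀ a b P Q e1 e2 e3 e4 : ℂ, e1 * e2 = e3 * e4 → a * e1 * P * Q * e2 =
      a * (P * Q) * e3 * e4 := by
    intro a b P Q e1 e2 e3 e4 h
    linear_combination (a * P * Q) * h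
  exact e2 _ 0 _ _ _ _ _ _ e1

open scoped Classical in
/-- **Nonvanishing** for module X. -/
theorem karr_hne1 (hd : 1 < Module.finrank ℚ F) {N k : ℕ} (hN : 0 < N) {c : 𝓞 F → ℤ}
    (h : IsDiagCusp1 N k (fun ξ => (c ξ : ℂ))) (hc1 : c 1 ≠ 0)
    (hu : ∀ ε : 𝓞 F, IsUnit ε → (∀ φ : F →+* ℝ, 0 < φ ε) → c ε = c 1) :
    ∀ᶠ y : ℝ in atTop, ∃ φ : ℝ, Irrational φ ∧
      (∑' p : (F →+* ℝ) × TotPos F, if ∃ m : ℤ, -((karr1 h).nu p.2 p.1) - φ = m then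
        (karr1 h).xb N k (1 + N * (Complex.I * y)) p else 0) ≠ 0 := by
  obtain ⟨θ, hθ, hev⟩ := xu_main hd c hc1 hu (karr1 h).c_le (xuW N k) (fun i ξ => xuW_pos hN k i ξ)
    (xuW_le hN k) (-(1 / N))
  filter_upwards [hev] with y hy
  refine ⟨-θ, hθ.neg, ?_⟩
  have h1 := tsum_subtype (f := fun p : (F →+* ℝ) × TotPos F =>
    (karr1 h).xb N k (1 + N * (Complex.I * y)) p)
    {x : (F →+* ℝ) × TotPos F | ∃ m : ℤ, x.1 x.2.1 = θ + m}
  have h2 : (∑' p : (F →+* ℝ) × TotPos F, if ∃ m : ℤ, -((karr1 h).nu p.2 p.1) - -θ = m then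
        (karr1 h).xb N k (1 + N * (Complex.I * y)) p else 0) =
      ∑' x : XP F θ, xuTerm c (xuW N k) (-(1 / N)) y x.1.1 x.1.2 := by
    have h3 : ∑' x : XP F θ, xuTerm c (xuW N k) (-(1 / N)) y x.1.1 x.1.2 =
        ∑' x : ({x : (F →+* ℝ) × TotPos F | ∃ m : ℤ, x.1 x.2.1 = θ + m} : Set _),
          (karr1 h).xb N k (1 + N * (Complex.I * y)) x := by
      refine tsum_congr fun x => ?_
      exact (xb_eq1 hN h y x.1.1 x.1.2).symm
    rw [h3, h1]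
    refine tsum_congr fun p => ?_
    by_cases hp : ∃ m : ℤ, p.1 p.2.1 = θ + m
    · rw [Set.indicator_of_mem (s := {x : (F →+* ℝ) × TotPos F | ∃ m : ℤ, x.1 x.2.1 = θ + m})
        hp, if_pos]
      obtain ⟨m, hm⟩ := hp
      refine ⟨-m, ?_⟩
      change -(p.1 (p.2.1 : F)) - -θ = _
      rw [hm]
      push_cast
      ring
    · rw [Set.indicator_of_notMem (s := {x : (F →+* ℝ) × TotPos F | ∃ m : ℤ, x.1 x.2.1 = θ + m})
        hp, if_neg]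
      rintro ⟨m, hm⟩
      apply hp
      refine ⟨-m, ?_⟩
      change -(p.1 (p.2.1 : F)) - -θ = _ at hm
      push_cast
      linarith
  rw [h2]
  exact hy.2

end Real

end H36H
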