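import Pool.Agent.Lib.H53K.C2
import Pool.Agent.Lib.H53K.W2
import Pool.Agent.Lib.H67T.NS2

set_option autoImplicit false

/-!
H53N, ND: definitions.
-/

open MvPolynomial Module Real MeasureTheory
open Pool.Agent.H89.Sect Pool.Agent.H89.Arr

namespace Pool.Agent.H53N

open Pool.Agent.H67T Pool.Agent.H53S Pool.Agent.H53K

attribute [local instance] MvPolynomial.gradedAlgebra

/-- `w` is a reduced representation of `h` (which may have common zeros), `g` is the common divisor. -/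
structure Red {m : ℕ} (h : ℂ → Fin m → ℂ) (g : ℂ → ℂ) (w : ℂ → Fin m → ℂ) : Prop where
  diff : Differentiable ℂ g
  ne : ∃ z, g z ≠ 0
  hol : IsHol w
  eq : ∀ z, h z = g z • w z

/-- The pair of the values of two linear forms along `y`. -/
noncomputable def pr {n : ℕ} (a b : Fin n → ℂ) (y : ℂ → Fin n → ℂ) : ℂ → Fin 2 → ℂ :=
  fun z => ![lin a (y z), lin b (y z)]

/-- `D i j` bounds the difference of the characteristics of `y` and of the reduced pair
`(lin (p i) y, lin (p j) y)`. -/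
def Loss {n : ℕ} {ι : Type} (p : ι → Fin n → ℂ) (y : ℂ → Fin n → ℂ) (D : ι → ι → ℝ → ℝ) : Prop :=
  (∀ i j r, 1 ≤ r → 0 ≤ D i j r) ∧ ∀ i j, i ≠ j → ∃ (G : ℂ → ℂ) (w : ℂ → Fin 2 → ℂ),
    Red (pr (p i) (p j) y) G w ∧ ∀ r, 1 ≤ r → chi y r - chi w r ≤ D i j r

end Pool.Agent.H53N
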