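import Pool.Agent.Lib.H53N.M

set_option autoImplicit false

/-!
# H53N: ordinarity at all places
-/

open NumberField

namespace H36H

/-- `P` is ordinary at the place `τ`: the Hecke polynomial `x ^ 2 - C(P) x + χ(P) N(P) ^ (k - 1)` has,
in the algebraic closure of `ℚ_p`, a root of absolute value `1` and a root of absolute value
`N(P) ^ (-(k - 1))`. -/
def IsOrdAt {F : Type*} [Field F] [NumberField F] {E : Type*} [Field E] [NumberField E] (k : ℕ)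
    (χ C : Ideal (𝓞 F) → 𝓞 E) (p : ℕ) [Fact p.Prime] (P : Ideal (𝓞 F)) (τ : E →+* PadicAlgCl p) :
    Prop :=
  ∃ x y : PadicAlgCl p, x + y = τ (C P) ∧
    x * y = τ (χ P) * (Ideal.absNorm P : PadicAlgCl p) ^ (k - 1) ∧ ‖x‖ = 1 ∧
    ‖y‖ = (Ideal.absNorm P : ℝ) ^ (-((k : ℤ) - 1))

variable {F : Type*} [Field F] [NumberField F] {E : Type*} [Field E] [NumberField E]

/-- `P` is ordinary at `τ` if and only if `τ(C(P))` has absolute value `1`. -/
theorem isOrdAt_iff {k : ℕ} (hk : 2 ≤ k) {χ C : Ideal (𝓞 F) → 𝓞 E} {p : ℕ} [Fact p.Prime]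
    {P : Ideal (𝓞 F)} (hP : P.IsPrime) (hP0 : P ≠ ⊥) (hpP : (p : 𝓞 F) ∈ P) (hχ : IsUnit (χ P))
    (τ : E →+* PadicAlgCl p) : IsOrdAt k χ C p P τ ↔ ‖τ (C P : E)‖ = 1 := by
  have hp : p.Prime := Fact.out
  obtain ⟨f, hf, hfP⟩ := absNorm_pow hp (Ideal.prime_of_isPrime hP0 hP) hpP
  have hp1 : (1 : ℝ) < p := by exact_mod_cast hp.one_lt
  have hqn : ‖τ (χ P : E) * (Ideal.absNorm P : PadicAlgCl p) ^ (k - 1)‖ =
      (Ideal.absNorm P : ℝ) ^ (-((k : ℤ) - 1)) := by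
    rw [norm_mul, norm_unit p τ _ hχ, one_mul, norm_pow, hfP]
    push_cast
    rw [norm_pow, norm_natCast, inv_pow, ← zpow_natCast ((p : ℝ) ^ f)⁻¹ (k - 1), inv_zpow',
      Nat.cast_sub (by omega : 1 ≤ k), Nat.cast_one]
  have hq1 : ‖τ (χ P : E) * (Ideal.absNorm P : PadicAlgCl p) ^ (k - 1)‖ < 1 := by
    rw [norm_mul, norm_unit p τ _ hχ, one_mul, norm_pow, hfP]
    push_cast
    rw [norm_pow, norm_natCast, ← pow_mul]
    exact pow_lt_one₀ (by positivity) (inv_lt_one_of_one_lt₀ hp1)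
      (Nat.mul_pos (by omega) (by omega)).ne'
  constructor
  · rintro ⟨x, y, h1, h2, h3, h4⟩
    have hy : ‖y‖ < 1 := by
      have := hq1
      rw [← h2, norm_mul, h3, one_mul] at this
      exact this
    refine le_antisymm (H94M.TR_norm_le p τ (C P)) ?_
    have h5 : x = τ (C P : E) - y := by rw [← h1]; ring
    have h6 : ‖x‖ ≤ max ‖τ (C P : E)‖ ‖y‖ := by
      rw [h5]
      exact H94M.TR_sub p _ _
    rw [h3] at h6
    rcases le_max_iff.1 h6 with h | h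
    · exact h
    · exact absurd hy (not_lt.2 h)
  · intro h
    obtain ⟨x, y, hx1, hx2, hx3, hx4⟩ := roots_of_unit p _ _ h hq1
    exact ⟨x, y, hx1, hx2, hx3, hx4.trans hqn⟩

/-- If `C(P) ^ 2` is a rational multiple of `χ(P)`, ordinarity does not depend on the place. -/
theorem isOrdAt_all {k : ℕ} (hk : 2 ≤ k) {χ C : Ideal (𝓞 F) → 𝓞 E} {p : ℕ} [Fact p.Prime]
    {P : Ideal (𝓞 F)} (hP : P.IsPrime) (hP0 : P ≠ ⊥) (hpP : (p : 𝓞 F) ∈ P) (hχ : IsUnit (χ P))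
    (hr : ∃ r : ℚ, (C P : E) ^ 2 = (r : E) * (χ P : E)) (h : IsOrd k χ C p P)
    (τ : E →+* PadicAlgCl p) : IsOrdAt k χ C p P τ := by
  obtain ⟨r, hr⟩ := hr
  obtain ⟨τ', h'⟩ := h
  have h1 : ‖τ' (C P : E)‖ = 1 := (isOrdAt_iff hk hP hP0 hpP hχ τ').1 h'
  have key : ∀ σ : E →+* PadicAlgCl p, ‖σ (C P : E)‖ ^ 2 = ‖(r : PadicAlgCl p)‖ := by
    intro σ
    rw [← norm_pow, ← map_pow, hr, map_mul, norm_mul, norm_unit p σ _ hχ, mul_one, map_ratCast]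
  rw [isOrdAt_iff hk hP hP0 hpP hχ]
  have h2 := key τ
  rw [← key τ', h1, one_pow] at h2
  exact (pow_eq_one_iff_of_nonneg (norm_nonneg _) two_ne_zero).1 h2

end H36H
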